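import Mathlib

set_option autoImplicit false

open Polynomial

namespace Pool.Agent.LNDT

/-- the weight of degree `n`: the coefficient of `X ^ n` of an adapted element is its inverse -/
def wt {A : Type} [CommRing A] (u v : A) (α β n : ℕ) : A := u ^ (n / α) * v ^ (n / β)

/-- Local data at a crossing of two simple curves `u`, `v`. `S` is the ring `B` at the crossing, written as a
ring of polynomials in the local slice over the fraction field `K` of the local ring `A` of constants. -/
structure LPData {A K : Type} [CommRing A] [IsDomain A] [Field K] [Algebra A K]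
    (S : Subalgebra A K[X]) (u v : A) (α β : ℕ) : Prop where
  inj : Function.Injective (algebraMap A K)
  unit : ∀ n : ℕ, n ≠ 0 → IsUnit (n : A)
  pu : Prime u
  pv : Prime v
  huv : ¬ u ∣ v
  hvu : ¬ v ∣ u
  pα : 0 < α
  pβ : 0 < β
  X_mem : X ∈ S
  lead : ∀ n : ℕ, ∀ x ∈ S, x.natDegree ≤ n →
    ∃ a : A, algebraMap A K (wt u v α β n) * x.coeff n = algebraMap A K a
  sat : ∀ x ∈ S, ∀ y ∈ S, ∀ i j : ℕ, v ^ j • x = u ^ i • y → ∃ z ∈ S, x = u ^ i • z

/-- a pair `y`, `z` of elements of degree `≤ n` with leading coefficients `u ^ i`, `v ^ j` times the minimal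
one, which agree (after multiplication by `v ^ j`, `u ^ i`) up to degree `< n - s + 1` -/
structure Pair {A K : Type} [CommRing A] [IsDomain A] [Field K] [Algebra A K]
    (S : Subalgebra A K[X]) (u v : A) (α β n s i j : ℕ) (y z : K[X]) : Prop where
  memy : y ∈ S
  memz : z ∈ S
  degy : y.natDegree ≤ n
  degz : z.natDegree ≤ n
  ly : algebraMap A K (wt u v α β n) * y.coeff n = algebraMap A K (u ^ i)
  lz : algebraMap A K (wt u v α β n) * z.coeff n = algebraMap A K (v ^ j)
  agree : ∀ t : ℕ, n < t + s → (v ^ j • y - u ^ i • z).coeff t = 0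

/-- there is a pair in degree `n` of precision `s` -/
def HasPair {A K : Type} [CommRing A] [IsDomain A] [Field K] [Algebra A K]
    (S : Subalgebra A K[X]) (u v : A) (α β n s : ℕ) : Prop :=
  ∃ (i j : ℕ) (y z : K[X]), Pair S u v α β n s i j y z

/-- there is an adapted element in degree `n` -/
def Adapted {A K : Type} [CommRing A] [IsDomain A] [Field K] [Algebra A K]
    (S : Subalgebra A K[X]) (u v : A) (α β n : ℕ) : Prop :=
  ∃ x ∈ S, x.natDegree ≤ n ∧ algebraMap A K (wt u v α β n) * x.coeff n = 1

/-- the elements of `K` of the form `a / u ^ i + b / v ^ j` -/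
def Nu {A K : Type} [CommRing A] [Field K] [Algebra A K] (u v : A) : Submodule A K where
  carrier := {q | ∃ (i j : ℕ) (a b : A), algebraMap A K (u ^ i * v ^ j) * q =
    algebraMap A K (a * v ^ j + b * u ^ i)}
  add_mem' := by
    rintro x y ⟨i, j, a, b, h⟩ ⟨i', j', a', b', h'⟩
    refine ⟨i + i', j + j', a * u ^ i' + a' * u ^ i, b * v ^ j' + b' * v ^ j, ?_⟩
    have e1 : algebraMap A K (u ^ (i + i') * v ^ (j + j')) * (x + y) =
        algebraMap A K (u ^ i' * v ^ j') * (algebraMap A K (u ^ i * v ^ j) * x) +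
        algebraMap A K (u ^ i * v ^ j) * (algebraMap A K (u ^ i' * v ^ j') * y) := by
      simp only [map_mul, map_pow, pow_add]
      ring
    rw [e1, h, h', ← map_mul, ← map_mul, ← map_add]
    congr 1
    ring
  zero_mem' := ⟨0, 0, 0, 0, by simp⟩
  smul_mem' := by
    rintro c x ⟨i, j, a, b, h⟩
    refine ⟨i, j, c * a, c * b, ?_⟩
    rw [Algebra.smul_def]
    have e1 : algebraMap A K (u ^ i * v ^ j) * (algebraMap A K c * x) =
        algebraMap A K c * (algebraMap A K (u ^ i * v ^ j) * x) := by ring
    rw [e1, h, ← map_mul]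
    congr 1
    ring

/-- `q` represents the obstruction of precision `r` in degree `n` -/
def Obs {A K : Type} [CommRing A] [IsDomain A] [Field K] [Algebra A K]
    (S : Subalgebra A K[X]) (u v : A) (α β n r : ℕ) (q : K) : Prop :=
  r ≤ n ∧ ∃ (i j : ℕ) (y z : K[X]), Pair S u v α β n r i j y z ∧
    algebraMap A K (u ^ i * v ^ j) * q =
      algebraMap A K (wt u v α β (n - r)) * (v ^ j • y - u ^ i • z).coeff (n - r)

/-- the carry of `n + m` with respect to `a` -/
def cy (a n m : ℕ) : ℕ := (n + m) / a - n / a - m / a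

end Pool.Agent.LNDT
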