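import Mathlib
import Pool.Agent.LNDHom.Red
import Pool.Agent.LNDF.ArDefs

set_option autoImplicit false

open Polynomial

namespace Pool.Agent.LNDT

open Pool.Agent.LNDHom

section ld

variable {k B : Type} [Field k] [CommRing B] [Algebra k B]

/-- the leading coefficient of degree `n`: `D^n x / n!` -/
noncomputable def ld (D : Derivation k B B) (n : ℕ) (x : B) : B :=
  ((n.factorial : k)⁻¹) • (⇑D)^[n] x

/-- `E` raises the `D`-degree by at most `d` -/
def BdE (D E : Derivation k B B) (d : ℕ) : Prop :=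
  ∀ (n : ℕ) (x : B), (⇑D)^[n + 1] x = 0 → (⇑D)^[n + d + 1] (E x) = 0

/-- the prime constant `p` is special (`c` the gcd of the plinth ideal): in some degree its multiplicity in
some leading coefficient is less than in `c ^ n` -/
def Special (D : Derivation k B B) (c p : B) : Prop :=
  ∃ (n : ℕ) (x : B) (t : ℕ), (⇑D)^[n + 1] x = 0 ∧ p ^ t ∣ c ^ n ∧ ¬ p ^ t ∣ (⇑D)^[n] x

end ld

section ops

variable {K : Type} [Field K] (δ : Derivation ℤ K K) (θ : K) (d : ℕ)

/-- the operator of degree `n` on coefficients: `E' (x t^n) = Dl n x t^(n+d)` -/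
def Dl (n : ℤ) (x : K) : K := δ x + (n : K) * θ * x

/-- its iterates -/
def It : ℕ → ℤ → K → K
  | 0, _, x => x
  | j + 1, n, x => It j (n + d) (Dl δ θ n x)

end ops

/-- the graded ring over the field of constants, as a family of subgroups of a field, with its locally
nilpotent operator of degree `d`, a constant `h` of degree `N > 0` which is invertible, and a generator `c` in
degree one -/
structure GrData {K : Type} [Field K] (δ : Derivation ℤ K K) (θ : K) (d : ℕ)
    (I : ℤ → AddSubgroup K) (N : ℕ) (h c : K) : Prop where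
  one_mem : (1 : K) ∈ I 0
  mul_mem : ∀ n m x y, x ∈ I n → y ∈ I m → x * y ∈ I (n + m)
  dl_mem : ∀ n x, x ∈ I n → Dl δ θ n x ∈ I (n + d)
  nil : ∀ n x, x ∈ I n → ∃ j, It δ θ d j n x = 0
  inv0 : ∀ x, x ∈ I 0 → x ≠ 0 → δ x = 0 → x⁻¹ ∈ I 0
  N_pos : 0 < N
  h_mem : h ∈ I N
  h_ne : h ≠ 0
  h_const : Dl δ θ N h = 0
  h_inv : h⁻¹ ∈ I (-N)
  act : ∃ x ∈ I 0, δ x ≠ 0
  c_mem : c ∈ I 1
  c_ne : c ≠ 0
  c_gen : ∀ x ∈ I 1, ∃ a ∈ I 0, x = a * c

/-- the field of constants of degree zero -/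
def Kap {K : Type} [Field K] (δ : Derivation ℤ K K) (I : ℤ → AddSubgroup K) : Set K :=
  {x | x ∈ I 0 ∧ δ x = 0}

end Pool.Agent.LNDT
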