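import Mathlib
import Pool.Agent.LNDT.Defs
import Pool.Agent.LNDT.GDefs
import Pool.Agent.LNDF.ArDefs
import Pool.Agent.LNDF.Ar1
import Pool.Agent.LNDF.ChE2

set_option autoImplicit false

open Polynomial

namespace Pool.Agent.LNDT

open Pool.Agent.LNDHom Pool.Agent.LNDF

variable {k B : Type} [Field k] [CharZero k] [CommRing B] [IsDomain B] [Algebra k B]
  {D : Derivation k B B}

/-- `b / s` (`s` outside of `m`), written as a polynomial in the slice `r`: `s t x = Q`, `Q(r) = t b` -/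
def InB (r : B) (m : Ideal (kerAlg D)) {F : Type} [Field F] [Algebra (kerAlg D) F] (x : F[X]) :
    Prop :=
  ∃ (s t : kerAlg D) (Q : (kerAlg D)[X]) (b : B), s ∉ m ∧ t ≠ 0 ∧
    C (algebraMap (kerAlg D) F (s * t)) * x = Q.map (algebraMap (kerAlg D) F) ∧
    aeval r Q = (t : B) * b

omit [CharZero k] in
/-- the ring `B` localized at the maximal ideal `m` of the kernel, as a ring of polynomials in `r` -/
theorem exists_SB (r : B) (m : Ideal (kerAlg D)) [m.IsPrime] {A F : Type} [CommRing A]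
    [Algebra (kerAlg D) A] [IsLocalization.AtPrime A m] [Field F] [Algebra A F]
    [Algebra (kerAlg D) F] [IsScalarTower (kerAlg D) A F]
    (hinj : Function.Injective (algebraMap (kerAlg D) F)) :
    ∃ S : Subalgebra A F[X], ∀ x, x ∈ S ↔ InB r m x := by
  have hmap : ∀ a : A, InB r m (algebraMap A F[X] a) := by
    intro a
    obtain ⟨⟨a0, s⟩, hs⟩ := IsLocalization.surj m.primeCompl a
    refine ⟨s, 1, C a0, a0, s.2, one_ne_zero, ?_, ?_⟩
    · rw [mul_one, Polynomial.algebraMap_apply, ← C_mul, map_C]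
      congr 1
      have h1 := congrArg (algebraMap A F) hs
      simp only [map_mul] at h1
      rw [← IsScalarTower.algebraMap_apply (kerAlg D) A F,
        ← IsScalarTower.algebraMap_apply (kerAlg D) A F] at h1
      rw [mul_comm]
      exact h1
    · rw [aeval_C]
      show (a0 : B) = ((1 : kerAlg D) : B) * a0
      simp
  have hmul : ∀ x y : F[X], InB r m x → InB r m y → InB r m (x * y) := by
    rintro x y ⟨s1, t1, Q1, b1, hs1, ht1, e1, f1⟩ ⟨s2, t2, Q2, b2, hs2, ht2, e2, f2⟩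
    refine ⟨s1 * s2, t1 * t2, Q1 * Q2, b1 * b2, ?_, mul_ne_zero ht1 ht2, ?_, ?_⟩
    · exact fun hh => (Ideal.IsPrime.mem_or_mem inferInstance hh).elim hs1 hs2
    · rw [Polynomial.map_mul, ← e1, ← e2]
      simp only [map_mul]
      ring
    · rw [map_mul, f1, f2]
      push_cast
      ring
  have hadd : ∀ x y : F[X], InB r m x → InB r m y → InB r m (x + y) := by
    rintro x y ⟨s1, t1, Q1, b1, hs1, ht1, e1, f1⟩ ⟨s2, t2, Q2, b2, hs2, ht2, e2, f2⟩
    refine ⟨s1 * s2, t1 * t2, C (s2 * t2) * Q1 + C (s1 * t1) * Q2,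
      (s2 : B) * b1 + (s1 : B) * b2, ?_, mul_ne_zero ht1 ht2, ?_, ?_⟩
    · exact fun hh => (Ideal.IsPrime.mem_or_mem inferInstance hh).elim hs1 hs2
    · rw [Polynomial.map_add, Polynomial.map_mul, Polynomial.map_mul, map_C, map_C, ← e1, ← e2]
      simp only [map_mul]
      ring
    · rw [map_add, map_mul (aeval r) (C (s2 * t2)), map_mul (aeval r) (C (s1 * t1)), f1, f2,
        aeval_C, aeval_C]
      show ((s2 * t2 : kerAlg D) : B) * (t1 * b1) + ((s1 * t1 : kerAlg D) : B) * (t2 * b2) =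
        ((t1 * t2 : kerAlg D) : B) * (s2 * b1 + s1 * b2)
      push_cast
      ring
  refine ⟨{ carrier := {x | InB r m x}
            mul_mem' := fun {x y} hx hy => hmul x y hx hy
            add_mem' := fun {x y} hx hy => hadd x y hx hy
            algebraMap_mem' := hmap }, fun x => Iff.rfl⟩

/-- a crossing: the maximal ideal `m` is locally generated by the two simple primes `p`, `q`, and no other
prime in `m` divides `cc 1` -/
structure Cross (D : Derivation k B B) (cc : ℕ → B) (m : Ideal (kerAlg D)) (p q : kerAlg D)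
    (α β : ℕ) : Prop where
  hcc : ∀ n, IsCC D n (cc n)
  lnd : ∀ x, ∃ n, (⇑D)^[n] x = 0
  pp : Prime (p : B)
  pq : Prime (q : B)
  npq : ¬ Associated (p : B) (q : B)
  pm : p ∈ m
  qm : q ∈ m
  pα : 1 < α
  pβ : 1 < β
  ep : ∀ n s : ℕ, (p : B) ^ s ∣ cc n ↔ s ≤ n - n / α
  eq : ∀ n s : ℕ, (q : B) ^ s ∣ cc n ↔ s ≤ n - n / β
  other : ∀ p' : kerAlg D, Prime (p' : B) → p' ∈ m → (p' : B) ∣ cc 1 →
    Associated (p' : B) (p : B) ∨ Associated (p' : B) (q : B)
  gen : ∀ a ∈ m, ∃ s, s ∉ m ∧ ∃ x y, s * a = x * p + y * q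

section tools

omit [CharZero k] [IsDomain B] [Algebra k B] [Field k] in
theorem dvd_of_pow_mul [IsDomain B] {p z w : B} (hp : Prime p) (h : ¬ p ∣ z) (n : ℕ)
    (hd : z ∣ p ^ n * w) : z ∣ w := by
  induction n with
  | zero => simpa using hd
  | succ n ih =>
    apply ih
    obtain ⟨t, ht⟩ := hd
    have h1 : p ∣ z * t := ⟨p ^ n * w, by rw [← ht, pow_succ]; ring⟩
    obtain ⟨t', rfl⟩ := (hp.dvd_or_dvd h1).resolve_left h
    refine ⟨t', mul_left_cancel₀ hp.ne_zero ?_⟩
    rw [pow_succ] at ht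
    linear_combination ht

/-- factorial closedness for divisors of a nonzero constant -/
theorem const_dvd (hln : ∀ x, ∃ n, (⇑D)^[n] x = 0) {a b : B} (h : D (a * b) = 0)
    (h0 : a * b ≠ 0) : D a = 0 ∧ D b = 0 :=
  ⟨fact_closed D hln a b h h0, fact_closed D hln b a (by rw [mul_comm]; exact h)
    (by rw [mul_comm]; exact h0)⟩

/-- divisibility in `B` of constants is divisibility in the kernel -/
theorem ker_dvd (hln : ∀ x, ∃ n, (⇑D)^[n] x = 0) {a b : kerAlg D} :
    (a : B) ∣ (b : B) ↔ a ∣ b := by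
  constructor
  · rintro ⟨c, hc⟩
    rcases eq_or_ne (b : B) 0 with h0 | h0
    · have : b = 0 := Subtype.ext h0
      rw [this]
      exact dvd_zero a
    · have h1 : D ((a : B) * c) = 0 := by rw [← hc]; exact b.2
      have h2 := (const_dvd hln h1 (by rw [← hc]; exact h0)).2
      exact ⟨⟨c, h2⟩, Subtype.ext hc⟩
  · rintro ⟨c, rfl⟩
    exact ⟨c, rfl⟩

theorem ker_prime (hln : ∀ x, ∃ n, (⇑D)^[n] x = 0) {p : kerAlg D} (hp : Prime (p : B)) :
    Prime p := by
  refine ⟨fun h => hp.ne_zero (by rw [h]; rfl), fun h => hp.not_isUnit ?_, fun a b h => ?_⟩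
  · exact h.map (kerAlg D).val
  · rw [← ker_dvd hln] at h
    rw [← ker_dvd hln, ← ker_dvd hln]
    exact hp.dvd_or_dvd h

omit [CharZero k] [IsDomain B] in
/-- the coefficient of degree `n` and the top derivative -/
theorem top_aeval {r : B} (hr : D (D r) = 0) {n : ℕ} (Q : (kerAlg D)[X]) (hQ : Q.natDegree ≤ n) :
    (⇑D)^[n] (aeval r Q) = (n.factorial : B) * D r ^ n * (Q.coeff n : kerAlg D) ∧
      (⇑D)^[n + 1] (aeval r Q) = 0 := by
  have h1 : (Q - monomial n (Q.coeff n)).degree < n := by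
    rw [degree_lt_iff_coeff_zero]
    intro i hi
    rw [coeff_sub, coeff_monomial]
    split_ifs with h
    · rw [h, sub_self]
    · rw [coeff_eq_zero_of_natDegree_lt (by omega), sub_zero]
  have h2 := ChE2.aeval_zero_of hr _ h1
  have h3 := ker_mul_pow D hr (c := ((Q.coeff n : kerAlg D) : B)) (Q.coeff n).2 n
  have h4 : aeval r Q = aeval r (Q - monomial n (Q.coeff n)) + (Q.coeff n : kerAlg D) * r ^ n := by
    rw [map_sub, aeval_monomial]
    show aeval r Q = aeval r Q - (Q.coeff n : kerAlg D) * r ^ n + (Q.coeff n : kerAlg D) * r ^ n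
    ring
  constructor
  · rw [h4, iterate_map_add, h2, h3.1]
    ring
  · rw [h4, iterate_map_add, h3.2, iter_zero_of_le D h2 (Nat.le_succ n), add_zero]

omit [CharZero k] [IsDomain B] in
theorem iter_const {a : B} (ha : D a = 0) (n : ℕ) (x : B) :
    (⇑D)^[n] (a * x) = a * (⇑D)^[n] x := by
  induction n with
  | zero => rfl
  | succ n ih =>
    rw [Function.iterate_succ_apply', ih, Derivation.leibniz, ha, Function.iterate_succ_apply']
    simp

end tools

variable [UniqueFactorizationMonoid B]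

/-- `c^n = cc n · p^[n/α] q^[n/β] · ε` with `ε` outside of `m` -/
theorem Cross.cc_eq {cc : ℕ → B} {m : Ideal (kerAlg D)} [m.IsPrime] {p q : kerAlg D} {α β : ℕ}
    (h : Cross D cc m p q α β) {r : B} (hr : D r = cc 1) (n : ℕ) : ∃ ε : kerAlg D, ε ∉ m ∧
      cc 1 ^ n = cc n * ((p : B) ^ (n / α) * (q : B) ^ (n / β) * ε) := by
  have hchar : CharZero B := charZero_of_injective_algebraMap (algebraMap k B).injective
  have hα := h.pα
  have hβ := h.pβ
  have hc0 := (h.hcc 1).ne
  have hnp : ¬ (p : B) ∣ (q : B) := fun hd => h.npq (h.pp.associated_of_dvd h.pq hd)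
  have hnq : ¬ (q : B) ∣ (p : B) := fun hd => h.npq ((h.pq.associated_of_dvd h.pp hd).symm)
  -- the factorization of `cc n`
  have hfac : ∀ n, ∃ z, cc n = (p : B) ^ (n - n / α) * ((q : B) ^ (n - n / β) * z) ∧
      ¬ (p : B) ∣ z ∧ ¬ (q : B) ∣ z := by
    intro n
    obtain ⟨y, hy⟩ := (h.ep n (n - n / α)).2 le_rfl
    have h1 := (h.eq n (n - n / β)).2 le_rfl
    rw [hy] at h1
    obtain ⟨z, rfl⟩ := h.pq.pow_dvd_of_dvd_mul_left _
      (fun hd => hnq (h.pq.dvd_of_dvd_pow hd)) h1
    refine ⟨z, hy, ?_, ?_⟩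
    · rintro ⟨w, rfl⟩
      have h2 := (h.ep n (n - n / α + 1)).1 ⟨(q : B) ^ (n - n / β) * w, by rw [hy, pow_succ]; ring⟩
      omega
    · rintro ⟨w, rfl⟩
      have h2 := (h.eq n (n - n / β + 1)).1 ⟨(p : B) ^ (n - n / α) * w, by rw [hy, pow_succ]; ring⟩
      omega
  obtain ⟨c', hc', hpc, hqc⟩ := hfac 1
  rw [Nat.div_eq_of_lt hα, Nat.div_eq_of_lt hβ, Nat.sub_zero, pow_one, pow_one] at hc'
  obtain ⟨z, hz, hpz, hqz⟩ := hfac n
  -- `cc n` divides `cc 1 ^ n`
  have hdd : D (D r) = 0 := by rw [hr]; exact (h.hcc 1).const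
  have h1 : cc n ∣ cc 1 ^ n := by
    have h2 := pow_top D hdd n
    have h3 := (h.hcc n).dvd _ h2.2
    rw [h2.1, hr] at h3
    have hu : IsUnit ((n.factorial : ℕ) : B) := by
      have : ((n.factorial : ℕ) : B) = algebraMap k B ((n.factorial : ℕ) : k) := by simp
      rw [this]
      refine IsUnit.map _ (isUnit_iff_ne_zero.2 ?_)
      exact_mod_cast n.factorial_ne_zero
    exact (hu.dvd_mul_left).1 h3
  have h2 : z ∣ c' ^ n := by
    have h3 : z ∣ (p : B) ^ n * ((q : B) ^ n * c' ^ n) := by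
      have h4 : z ∣ cc n := ⟨(p : B) ^ (n - n / α) * (q : B) ^ (n - n / β), by rw [hz]; ring⟩
      have h5 := h4.trans h1
      rwa [hc', mul_pow, mul_pow] at h5
    exact dvd_of_pow_mul h.pq hqz n (dvd_of_pow_mul h.pp hpz n h3)
  obtain ⟨ε, hε⟩ := h2
  have e1 : cc 1 ^ n = cc n * ((p : B) ^ (n / α) * (q : B) ^ (n / β) * ε) := by
    have ha : n - n / α + n / α = n := Nat.sub_add_cancel (Nat.div_le_self n α)
    have hb : n - n / β + n / β = n := Nat.sub_add_cancel (Nat.div_le_self n β)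
    calc cc 1 ^ n = (p : B) ^ n * ((q : B) ^ n * c' ^ n) := by rw [hc', mul_pow, mul_pow]
      _ = (p : B) ^ (n - n / α + n / α) * ((q : B) ^ (n - n / β + n / β) * c' ^ n) := by rw [ha, hb]
      _ = cc n * ((p : B) ^ (n / α) * (q : B) ^ (n / β) * ε) := by
        rw [hε, hz, pow_add, pow_add]
        ring
  have hcn0 : cc 1 ^ n ≠ 0 := pow_ne_zero n hc0
  have hconst : D (cc 1 ^ n) = 0 := by
    rw [Derivation.leibniz_pow, (h.hcc 1).const]
    simp
  have hεc : D ε = 0 := by
    have h3 := (const_dvd h.lnd (by rw [← e1]; exact hconst) (by rw [← e1]; exact hcn0)).2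
    refine (const_dvd h.lnd h3 ?_).2
    intro h0
    rw [h0, mul_zero] at e1
    exact hcn0 e1
  have hε0 : ε ≠ 0 := by
    rintro rfl
    rw [mul_zero, mul_zero] at e1
    exact hcn0 e1
  refine ⟨⟨ε, hεc⟩, ?_, e1⟩
  -- no prime factor of `ε` is in `m`
  have hpr : ∀ w : B, w ≠ 0 → w ∣ c' ^ n → ∀ hw : D w = 0, (⟨w, hw⟩ : kerAlg D) ∉ m := by
    intro w
    induction w using UniqueFactorizationMonoid.induction_on_prime with
    | h₁ => exact fun h0 => absurd rfl h0
    | h₂ x hx =>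
      intro _ _ hw hm
      obtain ⟨y, hy⟩ := hx.exists_right_inv
      have h3 : D (x * y) = 0 := by rw [hy]; exact D.map_one_eq_zero
      have h4 := (const_dvd h.lnd h3 (by rw [hy]; exact one_ne_zero)).2
      refine (Ideal.ne_top_iff_one m).1 (Ideal.IsPrime.ne_top inferInstance) ?_
      have h5 := m.mul_mem_right (⟨y, h4⟩ : kerAlg D) hm
      have h6 : (⟨x, hw⟩ : kerAlg D) * ⟨y, h4⟩ = 1 := Subtype.ext hy
      rwa [h6] at h5
    | h₃ a p' ha hp' ih =>
      intro h0 hd hw hm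
      have h3 := const_dvd h.lnd hw h0
      have h4 : (⟨p' * a, hw⟩ : kerAlg D) = ⟨p', h3.1⟩ * ⟨a, h3.2⟩ := rfl
      rw [h4] at hm
      rcases Ideal.IsPrime.mem_or_mem inferInstance hm with h5 | h5
      · have h6 : p' ∣ c' := hp'.dvd_of_dvd_pow ((dvd_mul_right p' a).trans hd)
        have h7 : p' ∣ cc 1 := by
          rw [hc']
          exact h6.trans ⟨(p : B) * q, by ring⟩
        rcases h.other ⟨p', h3.1⟩ hp' h5 h7 with h8 | h8
        · exact hpc (h8.symm.dvd.trans h6)
        · exact hqc (h8.symm.dvd.trans h6)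
      · exact ih ha ((dvd_mul_left a p').trans hd) h3.2 h5
  exact hpr ε hε0 ⟨z, by rw [hε]; ring⟩ hεc

variable {A F : Type} [CommRing A] [IsDomain A] [Field F] [Algebra A F]
  {cc : ℕ → B} {m : Ideal (kerAlg D)} {p q : kerAlg D} {α β : ℕ} {r : B}

/-- positive integers are units in the kernel -/
theorem isUnit_nat (D : Derivation k B B) {n : ℕ} (hn : n ≠ 0) : IsUnit (n : kerAlg D) := by
  have h1 : (n : kerAlg D) = algebraMap k (kerAlg D) (n : k) := by simp
  rw [h1]
  exact IsUnit.map _ (isUnit_iff_ne_zero.2 (by exact_mod_cast hn))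

/-- the leading coefficient of an element of degree `≤ n` -/
theorem Cross.key [m.IsPrime] [Algebra (kerAlg D) F] (h : Cross D cc m p q α β)
    (hinj : Function.Injective (algebraMap (kerAlg D) F)) (hr : D r = cc 1) {x : F[X]}
    (hx : InB r m x) {n : ℕ} (hn : x.natDegree ≤ n) : ∃ (s e ε : kerAlg D) (b : B), s ∉ m ∧
      ε ∉ m ∧ (⇑D)^[n + 1] b = 0 ∧ (⇑D)^[n] b = cc n * e ∧
      algebraMap (kerAlg D) F ((n.factorial : kerAlg D) * (p ^ (n / α) * q ^ (n / β)) * ε * s) *
        x.coeff n = algebraMap (kerAlg D) F e := by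
  have hchar : CharZero B := charZero_of_injective_algebraMap (algebraMap k B).injective
  obtain ⟨s, t, Q, b, hs, ht, e1, e2⟩ := hx
  have hs0 : s ≠ 0 := fun h0 => hs (h0 ▸ m.zero_mem)
  have hst : algebraMap (kerAlg D) F (s * t) ≠ 0 := fun h0 =>
    mul_ne_zero hs0 ht (hinj (by rw [h0, map_zero]))
  have hco : ∀ i, algebraMap (kerAlg D) F (s * t) * x.coeff i =
      algebraMap (kerAlg D) F (Q.coeff i) := by
    intro i
    rw [← coeff_C_mul, e1, coeff_map]
  have hQ : Q.natDegree ≤ n := by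
    rw [natDegree_le_iff_coeff_eq_zero]
    intro i hi
    have h1 := hco i
    rw [coeff_eq_zero_of_natDegree_lt (show x.natDegree < i by omega), mul_zero] at h1
    exact hinj (by rw [← h1, map_zero])
  have hdd : D (D r) = 0 := by rw [hr]; exact (h.hcc 1).const
  obtain ⟨h1, h2⟩ := top_aeval hdd Q hQ
  rw [e2, iter_const t.2] at h1 h2
  have ht0 : (t : B) ≠ 0 := fun h0 => ht (Subtype.ext h0)
  have h3 : (⇑D)^[n + 1] b = 0 := (mul_eq_zero.1 h2).resolve_left ht0
  obtain ⟨e, he⟩ := (h.hcc n).dvd b h3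
  have hDe : D e = 0 := by
    rcases eq_or_ne e 0 with h0 | h0
    · rw [h0, map_zero]
    · refine (const_dvd h.lnd (a := cc n) (b := e) ?_ (mul_ne_zero (h.hcc n).ne h0)).2
      rw [← he, ← Function.iterate_succ_apply' (⇑D) n b]
      exact h3
  obtain ⟨ε, hε, hce⟩ := h.cc_eq hr n
  refine ⟨s, ⟨e, hDe⟩, ε, b, hs, hε, h3, he, ?_⟩
  -- the identity in `B`
  have h4 : ((n.factorial : kerAlg D) * (p ^ (n / α) * q ^ (n / β)) * ε) * Q.coeff n =
      t * ⟨e, hDe⟩ := by
    refine Subtype.ext (mul_left_cancel₀ (h.hcc n).ne ?_)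
    rw [hr, hce, he] at h1
    push_cast
    linear_combination -h1
  have h5 := congrArg (algebraMap (kerAlg D) F) h4
  have ht' : algebraMap (kerAlg D) F t ≠ 0 := fun h0 => ht (hinj (by rw [h0, map_zero]))
  refine mul_left_cancel₀ ht' ?_
  have h6 := hco n
  simp only [map_mul] at h5 h6 ⊢
  linear_combination h5 + algebraMap (kerAlg D) F (n.factorial : kerAlg D) *
    (algebraMap (kerAlg D) F (p ^ (n / α)) * algebraMap (kerAlg D) F (q ^ (n / β))) *
    algebraMap (kerAlg D) F ε * h6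

/-- divisibility by a prime in `m` is the same in the kernel and in its localization -/
theorem loc_dvd [m.IsPrime] [Algebra (kerAlg D) A] [IsLocalization.AtPrime A m]
    (hln : ∀ x, ∃ n, (⇑D)^[n] x = 0) (hinjA : Function.Injective (algebraMap (kerAlg D) A))
    {p a : kerAlg D} (hp : Prime (p : B)) (hpm : p ∈ m)
    (hd : algebraMap (kerAlg D) A p ∣ algebraMap (kerAlg D) A a) : p ∣ a := by
  obtain ⟨w, hw⟩ := hd
  obtain ⟨⟨w0, s⟩, hs⟩ := IsLocalization.surj m.primeCompl w
  have h1 : a * s = p * w0 := by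
    apply hinjA
    rw [map_mul, map_mul, hw, mul_assoc, hs]
  have h2 := (ker_prime hln hp).dvd_or_dvd (⟨w0, h1⟩ : p ∣ a * s)
  refine h2.resolve_right fun h3 => s.2 ?_
  obtain ⟨y, hy⟩ := h3
  rw [hy]
  exact m.mul_mem_right y hpm

theorem loc_prime [m.IsPrime] [Algebra (kerAlg D) A] [IsLocalization.AtPrime A m]
    (hln : ∀ x, ∃ n, (⇑D)^[n] x = 0) (hinjA : Function.Injective (algebraMap (kerAlg D) A))
    {p : kerAlg D} (hp : Prime (p : B)) (hpm : p ∈ m) : Prime (algebraMap (kerAlg D) A p) := by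
  have hp' := ker_prime hln hp
  refine ⟨fun h0 => hp'.ne_zero (hinjA (by rw [h0, map_zero])), fun h0 => ?_, fun x y hd => ?_⟩
  · exact (IsLocalization.AtPrime.isUnit_to_map_iff A m p).1 h0 hpm
  · obtain ⟨⟨x0, s⟩, hs⟩ := IsLocalization.surj m.primeCompl x
    obtain ⟨⟨y0, t⟩, ht⟩ := IsLocalization.surj m.primeCompl y
    have h1 : algebraMap (kerAlg D) A p ∣ algebraMap (kerAlg D) A (x0 * y0) := by
      rw [map_mul, ← hs, ← ht]
      exact hd.trans ⟨algebraMap (kerAlg D) A s * algebraMap (kerAlg D) A t, by ring⟩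
    rcases hp'.dvd_or_dvd (loc_dvd hln hinjA hp hpm h1) with h2 | h2
    · left
      have h3 : algebraMap (kerAlg D) A p ∣ algebraMap (kerAlg D) A x0 := map_dvd _ h2
      have hs' : x * algebraMap (kerAlg D) A s = algebraMap (kerAlg D) A x0 := hs
      rw [← hs'] at h3
      exact (IsLocalization.map_units A s).dvd_mul_right.1 h3
    · right
      have h3 : algebraMap (kerAlg D) A p ∣ algebraMap (kerAlg D) A y0 := map_dvd _ h2
      have ht' : y * algebraMap (kerAlg D) A t = algebraMap (kerAlg D) A y0 := ht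
      rw [← ht'] at h3
      exact (IsLocalization.map_units A t).dvd_mul_right.1 h3

theorem injA [Algebra (kerAlg D) A] [Algebra (kerAlg D) F] [IsScalarTower (kerAlg D) A F]
    (hinj : Function.Injective (algebraMap (kerAlg D) F)) :
    Function.Injective (algebraMap (kerAlg D) A) := by
  intro x y hxy
  apply hinj
  rw [IsScalarTower.algebraMap_apply (kerAlg D) A F, hxy,
    ← IsScalarTower.algebraMap_apply (kerAlg D) A F]

/-- the local data. `lead`: for `x = Q / (s t)`, `Q(r) = t b`, `D^n b = n! c^n s x_n`. `sat`: `p` is prime in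
`B` and does not divide `q` nor elements outside of `m`. -/
theorem Cross.lpData [m.IsPrime] [Algebra (kerAlg D) A] [IsLocalization.AtPrime A m]
    [Algebra (kerAlg D) F] [IsScalarTower (kerAlg D) A F] (h : Cross D cc m p q α β)
    (hinj : Function.Injective (algebraMap (kerAlg D) F))
    (hinj' : Function.Injective (algebraMap A F)) (hr : D r = cc 1) {S : Subalgebra A F[X]}
    (hS : ∀ x, x ∈ S ↔ InB r m x) :
    LPData S (algebraMap (kerAlg D) A p) (algebraMap (kerAlg D) A q) α β := by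
  have hinjA : Function.Injective (algebraMap (kerAlg D) A) := injA (F := F) hinj
  have hnp : ¬ (p : B) ∣ (q : B) := fun hd => h.npq (h.pp.associated_of_dvd h.pq hd)
  have hnq : ¬ (q : B) ∣ (p : B) := fun hd => h.npq ((h.pq.associated_of_dvd h.pp hd).symm)
  have htow : ∀ a, algebraMap A F (algebraMap (kerAlg D) A a) = algebraMap (kerAlg D) F a :=
    fun a => (IsScalarTower.algebraMap_apply (kerAlg D) A F a).symm
  refine ⟨hinj', fun n hn => ?_, loc_prime h.lnd hinjA h.pp h.pm, loc_prime h.lnd hinjA h.pq h.qm,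
    fun hd => hnp ((ker_dvd h.lnd).2 (loc_dvd h.lnd hinjA h.pp h.pm hd)),
    fun hd => hnq ((ker_dvd h.lnd).2 (loc_dvd h.lnd hinjA h.pq h.qm hd)),
    by have := h.pα; omega, by have := h.pβ; omega, ?_, ?_, ?_⟩
  · have h1 : (n : A) = algebraMap (kerAlg D) A (n : kerAlg D) := by simp
    rw [h1]
    exact (isUnit_nat D hn).map _
  · rw [hS]
    refine ⟨1, 1, X, r, fun h1 => (Ideal.ne_top_iff_one m).1
      (Ideal.IsPrime.ne_top inferInstance) h1, one_ne_zero, ?_, ?_⟩
    · simp
    · rw [aeval_X]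
      show r = ((1 : kerAlg D) : B) * r
      simp
  · intro n x hx hdeg
    rw [hS] at hx
    obtain ⟨s, e, ε, b, hs, hε, h1, h2, h3⟩ := h.key hinj hr hx hdeg
    have u1 : IsUnit (algebraMap (kerAlg D) A (n.factorial : kerAlg D)) :=
      (isUnit_nat D n.factorial_ne_zero).map _
    have u2 : IsUnit (algebraMap (kerAlg D) A ε) := IsLocalization.map_units A (⟨ε, hε⟩ : m.primeCompl)
    have u3 : IsUnit (algebraMap (kerAlg D) A s) := IsLocalization.map_units A (⟨s, hs⟩ : m.primeCompl)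
    obtain ⟨w, hw⟩ := ((u1.mul u2).mul u3).exists_right_inv
    refine ⟨algebraMap (kerAlg D) A e * w, ?_⟩
    have hw' := congrArg (algebraMap A F) hw
    simp only [map_mul, map_one, htow, wt, map_pow] at hw' h3 ⊢
    rw [← h3]
    linear_combination -(algebraMap (kerAlg D) F p ^ (n / α) * algebraMap (kerAlg D) F q ^ (n / β) *
      x.coeff n) * hw'
  · intro x hx y hy i j hxy
    rw [hS] at hx hy
    obtain ⟨s1, t1, Q1, b1, hs1, ht1, e1, f1⟩ := hx
    obtain ⟨s2, t2, Q2, b2, hs2, ht2, e2, f2⟩ := hy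
    -- the identity of polynomials over the kernel
    have hpol : C (q ^ j * (s2 * t2)) * Q1 = C (p ^ i * (s1 * t1)) * Q2 := by
      apply map_injective _ hinj
      rw [Polynomial.map_mul, Polynomial.map_mul, map_C, map_C, ← e1, ← e2]
      have h1 : C (algebraMap (kerAlg D) F q ^ j) * x = C (algebraMap (kerAlg D) F p ^ i) * y := by
        have h2 := hxy
        rw [Algebra.smul_def, Algebra.smul_def, Polynomial.algebraMap_apply,
          Polynomial.algebraMap_apply] at h2
        simp only [map_pow, htow] at h2 ⊢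
        exact h2
      simp only [map_mul, map_pow] at h1 ⊢
      linear_combination C (algebraMap (kerAlg D) F s2) * C (algebraMap (kerAlg D) F t2) *
        C (algebraMap (kerAlg D) F s1) * C (algebraMap (kerAlg D) F t1) * h1
    have hB := congrArg (aeval r) hpol
    rw [map_mul (aeval r) (C (q ^ j * (s2 * t2))), map_mul (aeval r) (C (p ^ i * (s1 * t1))),
      aeval_C, aeval_C, f1, f2] at hB
    have hB2 : (q : B) ^ j * ((s2 : B) * t2) * (t1 * b1) = (p : B) ^ i * (s1 * t1) * (t2 * b2) := by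
      have h3 : algebraMap (kerAlg D) B (q ^ j * (s2 * t2)) = (q : B) ^ j * ((s2 : B) * t2) := rfl
      have h4 : algebraMap (kerAlg D) B (p ^ i * (s1 * t1)) = (p : B) ^ i * ((s1 : B) * t1) := rfl
      rw [h3, h4] at hB
      exact hB
    have ht1' : (t1 : B) ≠ 0 := fun h0 => ht1 (Subtype.ext h0)
    have ht2' : (t2 : B) ≠ 0 := fun h0 => ht2 (Subtype.ext h0)
    have hB3 : (q : B) ^ j * ((s2 : B) * b1) = (p : B) ^ i * (s1 * b2) := by
      refine mul_left_cancel₀ (mul_ne_zero ht1' ht2') ?_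
      linear_combination hB2
    have hps2 : ¬ (p : B) ∣ (s2 : B) := by
      intro hd
      obtain ⟨y, hy⟩ := (ker_dvd h.lnd).1 hd
      exact hs2 (by rw [hy]; exact m.mul_mem_right y h.pm)
    have hd1 : (p : B) ^ i ∣ (s2 : B) * b1 :=
      h.pp.pow_dvd_of_dvd_mul_left i (fun hd => hnp (h.pp.dvd_of_dvd_pow hd)) ⟨_, hB3⟩
    obtain ⟨b', hb'⟩ := h.pp.pow_dvd_of_dvd_mul_left i hps2 hd1
    have hpF : algebraMap (kerAlg D) F p ^ i ≠ 0 := pow_ne_zero i fun h0 =>
      (ker_prime h.lnd h.pp).ne_zero (hinj (by rw [h0, map_zero]))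
    refine ⟨C ((algebraMap (kerAlg D) F p ^ i)⁻¹) * x, ?_, ?_⟩
    · rw [hS]
      refine ⟨s1, t1 * p ^ i, Q1, b', hs1, mul_ne_zero ht1
        (pow_ne_zero i (ker_prime h.lnd h.pp).ne_zero), ?_, ?_⟩
      · rw [← e1]
        have h5 : C (algebraMap (kerAlg D) F p ^ i) * C ((algebraMap (kerAlg D) F p ^ i)⁻¹) =
            (1 : F[X]) := by
          rw [← C_mul, mul_inv_cancel₀ hpF, C_1]
        simp only [map_mul, map_pow] at h5 ⊢
        linear_combination C (algebraMap (kerAlg D) F s1) * C (algebraMap (kerAlg D) F t1) * x * h5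
      · rw [f1, hb']
        show (t1 : B) * ((p : B) ^ i * b') = ((t1 * p ^ i : kerAlg D) : B) * b'
        push_cast
        ring
    · rw [Algebra.smul_def, Polynomial.algebraMap_apply, map_pow, htow, ← mul_assoc, ← C_mul,
        mul_inv_cancel₀ hpF, C_1, one_mul]

/-- an adapted element gives an element of `B` -/
theorem Cross.out [m.IsPrime] [Algebra (kerAlg D) A] [IsLocalization.AtPrime A m]
    [Algebra (kerAlg D) F] [IsScalarTower (kerAlg D) A F] (h : Cross D cc m p q α β)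
    (hinj : Function.Injective (algebraMap (kerAlg D) F))
    (hinj' : Function.Injective (algebraMap A F)) (hr : D r = cc 1) {S : Subalgebra A F[X]}
    (hS : ∀ x, x ∈ S ↔ InB r m x) {n : ℕ}
    (hn : Adapted S (algebraMap (kerAlg D) A p) (algebraMap (kerAlg D) A q) α β n) :
    ∃ (a : kerAlg D) (x : B), a ∉ m ∧ (⇑D)^[n + 1] x = 0 ∧ (⇑D)^[n] x = a * cc n := by
  have htow : ∀ a, algebraMap A F (algebraMap (kerAlg D) A a) = algebraMap (kerAlg D) F a :=
    fun a => (IsScalarTower.algebraMap_apply (kerAlg D) A F a).symm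
  obtain ⟨x, hx, hdeg, hlead⟩ := hn
  rw [hS] at hx
  obtain ⟨s, e, ε, b, hs, hε, h1, h2, h3⟩ := h.key hinj hr hx hdeg
  have he : (n.factorial : kerAlg D) * ε * s = e := by
    apply hinj
    simp only [wt, map_mul, map_pow, htow] at hlead h3 ⊢
    rw [← h3]
    linear_combination -(algebraMap (kerAlg D) F (n.factorial : kerAlg D) *
      algebraMap (kerAlg D) F ε * algebraMap (kerAlg D) F s) * hlead
  refine ⟨e, b, ?_, h1, by rw [h2, mul_comm]⟩
  rw [← he]
  intro hm
  rcases Ideal.IsPrime.mem_or_mem inferInstance hm with h4 | h4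
  · rcases Ideal.IsPrime.mem_or_mem inferInstance h4 with h5 | h5
    · exact (Ideal.IsPrime.ne_top (I := m) inferInstance)
        (Ideal.eq_top_of_isUnit_mem m h5 (isUnit_nat D n.factorial_ne_zero))
    · exact hε h5
  · exact hs h4

/-- a polynomial over the kernel whose value at `r` is divisible by `p ^ i q ^ j` gives an element of `S` -/
theorem Cross.into [m.IsPrime] [Algebra (kerAlg D) A] [IsLocalization.AtPrime A m]
    [Algebra (kerAlg D) F] [IsScalarTower (kerAlg D) A F] (h : Cross D cc m p q α β)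
    (hinj : Function.Injective (algebraMap (kerAlg D) F)) {S : Subalgebra A F[X]}
    (hS : ∀ x, x ∈ S ↔ InB r m x) {Q : (kerAlg D)[X]} {i j : ℕ}
    (hQ : (p : B) ^ i * (q : B) ^ j ∣ aeval r Q) :
    ∃ x ∈ S, (algebraMap (kerAlg D) A p ^ i * algebraMap (kerAlg D) A q ^ j) • x =
      Q.map (algebraMap (kerAlg D) F) := by
  have htow : ∀ a, algebraMap A F (algebraMap (kerAlg D) A a) = algebraMap (kerAlg D) F a :=
    fun a => (IsScalarTower.algebraMap_apply (kerAlg D) A F a).symm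
  obtain ⟨b, hb⟩ := hQ
  have hp0 : p ^ i * q ^ j ≠ 0 := mul_ne_zero (pow_ne_zero i (ker_prime h.lnd h.pp).ne_zero)
    (pow_ne_zero j (ker_prime h.lnd h.pq).ne_zero)
  have hF : algebraMap (kerAlg D) F (p ^ i * q ^ j) ≠ 0 := fun h0 =>
    hp0 (hinj (by rw [h0, map_zero]))
  refine ⟨C ((algebraMap (kerAlg D) F (p ^ i * q ^ j))⁻¹) * Q.map (algebraMap (kerAlg D) F),
    ?_, ?_⟩
  · rw [hS]
    refine ⟨1, p ^ i * q ^ j, Q, b, fun h1 => (Ideal.ne_top_iff_one m).1
      (Ideal.IsPrime.ne_top inferInstance) h1, hp0, ?_, hb⟩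
    rw [one_mul, ← mul_assoc, ← C_mul, mul_inv_cancel₀ hF, C_1, one_mul]
  · rw [Algebra.smul_def, Polynomial.algebraMap_apply, map_mul (algebraMap A F), map_pow, map_pow,
      htow, htow, ← map_pow, ← map_pow, ← map_mul, ← mul_assoc, ← C_mul, mul_inv_cancel₀ hF, C_1,
      one_mul]

end Pool.Agent.LNDT
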