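import Mathlib
import Pool.Agent.LNDT.Defs

set_option autoImplicit false

open Polynomial

namespace Pool.Agent.LNDT

variable {A K : Type} [CommRing A] [IsDomain A] [Field K] [Algebra A K]
  {S : Subalgebra A K[X]} {u v : A} {α β : ℕ}

omit [IsDomain A] in
theorem wt_add (u v : A) (α β n m : ℕ) :
    wt u v α β (n + m) = wt u v α β n * wt u v α β m * (u ^ cy α n m * v ^ cy β n m) := by
  have e : ∀ a : ℕ, (n + m) / a = n / a + m / a + cy a n m := by
    intro a
    have h1 : n / a + m / a ≤ (n + m) / a := Nat.div_add_div_le_add_div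
    unfold cy
    omega
  unfold wt
  rw [e α, e β]
  simp only [pow_add]
  ring

omit [IsDomain A] in
theorem wt_add_of_dvd (u v : A) {α β : ℕ} (n : ℕ) {l : ℕ} (hα : α ∣ l) (hβ : β ∣ l) :
    wt u v α β (n + l) = wt u v α β n * wt u v α β l := by
  unfold wt
  rw [Nat.add_div_of_dvd_left hα, Nat.add_div_of_dvd_left hβ]
  simp only [pow_add]
  ring

theorem LPData.U_ne (h : LPData S u v α β) (i : ℕ) : algebraMap A K u ^ i ≠ 0 := by
  refine pow_ne_zero i fun h0 => h.pu.ne_zero ?_
  exact h.inj (by rw [h0, map_zero])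

theorem LPData.V_ne (h : LPData S u v α β) (j : ℕ) : algebraMap A K v ^ j ≠ 0 := by
  refine pow_ne_zero j fun h0 => h.pv.ne_zero ?_
  exact h.inj (by rw [h0, map_zero])

omit [IsDomain A] in
theorem cs (a : A) (p : K[X]) (t : ℕ) : (a • p).coeff t = algebraMap A K a * p.coeff t := by
  rw [coeff_smul, Algebra.smul_def]

omit [IsDomain A] in
/-- coefficients of the difference `v ^ j • y - u ^ i • z` -/
theorem coeff_diff (i j : ℕ) (y z : K[X]) (t : ℕ) :
    (v ^ j • y - u ^ i • z).coeff t =
      algebraMap A K v ^ j * y.coeff t - algebraMap A K u ^ i * z.coeff t := by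
  rw [coeff_sub, cs, cs, map_pow, map_pow]

theorem lemA_aux (h : LPData S u v α β) {r : ℕ} (hL : ∀ n, HasPair S u v α β n r) :
    ∀ (k s i j : ℕ) (y z : K[X]), y ∈ S → z ∈ S → y.natDegree ≤ s + k → z.natDegree ≤ s + k →
    (∀ t : ℕ, s < t → (v ^ j • y - u ^ i • z).coeff t = 0) → k < r →
    ∃ q ∈ Nu (K := K) u v, algebraMap A K (u ^ i * v ^ j) * q =
      algebraMap A K (wt u v α β s) * (v ^ j • y - u ^ i • z).coeff s := by
  intro k
  induction k with
  | zero =>
    intro s i j y z hy hz dy dz hag hr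
    obtain ⟨a, ha⟩ := h.lead s y hy dy
    obtain ⟨b, hb⟩ := h.lead s z hz dz
    have hU := h.U_ne i
    have hV := h.V_ne j
    refine ⟨(algebraMap A K v ^ j * algebraMap A K a - algebraMap A K u ^ i * algebraMap A K b) /
      (algebraMap A K u ^ i * algebraMap A K v ^ j), ⟨i, j, a, -b, ?_⟩, ?_⟩
    · simp only [map_mul, map_pow, map_add, map_neg]
      rw [mul_div_cancel₀ _ (mul_ne_zero hU hV)]
      ring
    · rw [coeff_diff]
      simp only [map_mul, map_pow]
      rw [mul_div_cancel₀ _ (mul_ne_zero hU hV), ← ha, ← hb]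
      ring
  | succ k ih =>
    intro s i j y z hy hz dy dz hag hr
    obtain ⟨a, ha⟩ := h.lead (s + (k + 1)) y hy dy
    obtain ⟨b, hb⟩ := h.lead (s + (k + 1)) z hz dz
    obtain ⟨i0, j0, y0, z0, hp⟩ := hL (s + (k + 1))
    have hU := h.U_ne
    have hV := h.V_ne
    have h0 := hag (s + (k + 1)) (by omega)
    rw [coeff_diff] at h0
    -- the leading coefficients
    have hab : v ^ j * a = u ^ i * b := by
      apply h.inj
      rw [map_mul, map_mul, map_pow, map_pow, ← ha, ← hb]
      linear_combination algebraMap A K (wt u v α β (s + (k + 1))) * h0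
    have hdvd : u ^ i ∣ a :=
      h.pu.pow_dvd_of_dvd_mul_left i (fun hd => h.huv (h.pu.dvd_of_dvd_pow hd)) ⟨b, hab⟩
    obtain ⟨κ, rfl⟩ := hdvd
    have hb' : b = v ^ j * κ := by
      have h1 : u ^ i * b = u ^ i * (v ^ j * κ) := by rw [← hab]; ring
      exact mul_left_cancel₀ (pow_ne_zero i h.pu.ne_zero) h1
    subst hb'
    have hy0 := hp.ly
    have hz0 := hp.lz
    have hWne : algebraMap A K (wt u v α β (s + (k + 1))) ≠ 0 := by
      unfold wt
      rw [map_mul, map_pow, map_pow]
      exact mul_ne_zero (hU _) (hV _)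
    simp only [map_mul, map_pow] at ha hb hy0 hz0
    have hkey : ∀ t, (v ^ (j + j0) • (u ^ i0 • y - (u ^ i * κ) • y0) -
        u ^ (i + i0) • (v ^ j0 • z - (v ^ j * κ) • z0)).coeff t =
        algebraMap A K u ^ i0 * algebraMap A K v ^ j0 * (v ^ j • y - u ^ i • z).coeff t -
        algebraMap A K κ * algebraMap A K u ^ i * algebraMap A K v ^ j *
          (v ^ j0 • y0 - u ^ i0 • z0).coeff t := by
      intro t
      rw [coeff_diff, coeff_diff, coeff_diff]
      simp only [coeff_sub, cs, map_mul, map_pow, pow_add]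
      ring
    obtain ⟨q, hq, hqe⟩ := ih s (i + i0) (j + j0) (u ^ i0 • y - (u ^ i * κ) • y0)
      (v ^ j0 • z - (v ^ j * κ) • z0)
      (S.sub_mem (S.smul_mem hy _) (S.smul_mem hp.memy _))
      (S.sub_mem (S.smul_mem hz _) (S.smul_mem hp.memz _))
      (by
        refine natDegree_le_pred (n := s + (k + 1)) ?_ ?_
        · exact (natDegree_sub_le _ _).trans (max_le ((natDegree_smul_le _ _).trans dy)
            ((natDegree_smul_le _ _).trans hp.degy))
        · simp only [coeff_sub, cs, map_mul, map_pow]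
          refine mul_left_cancel₀ hWne ?_
          linear_combination algebraMap A K u ^ i0 * ha -
            algebraMap A K u ^ i * algebraMap A K κ * hy0)
      (by
        refine natDegree_le_pred (n := s + (k + 1)) ?_ ?_
        · exact (natDegree_sub_le _ _).trans (max_le ((natDegree_smul_le _ _).trans dz)
            ((natDegree_smul_le _ _).trans hp.degz))
        · simp only [coeff_sub, cs, map_mul, map_pow]
          refine mul_left_cancel₀ hWne ?_
          linear_combination algebraMap A K v ^ j0 * hb -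
            algebraMap A K v ^ j * algebraMap A K κ * hz0)
      (by
        intro t ht
        rw [hkey, hag t ht, hp.agree t (by omega)]
        ring)
      (by omega)
    refine ⟨q, hq, ?_⟩
    rw [hkey, hp.agree s (by omega)] at hqe
    refine mul_left_cancel₀ (mul_ne_zero (hU i0) (hV j0)) ?_
    simp only [map_mul, map_pow, pow_add] at hqe ⊢
    linear_combination hqe

/-- LEMMA A. If all degrees have pairs of precision `r`, then for any two elements `y`, `z` of degree `≤ n`
such that `v ^ j • y - u ^ i • z` has degree `≤ s`, `n < s + r`, its coefficient of degree `s` gives the class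
zero. Induction on `n - s`: for `n = s` the leading coefficients of `y` and `z` are in `A / wt s`; for `n > s`
write the leading coefficients as `u ^ i κ / wt n`, `v ^ j κ / wt n` (`u`, `v` are non-associated primes) and
subtract `κ` times the pair in degree `n`. -/
theorem lemA (h : LPData S u v α β) {r : ℕ} (hL : ∀ n, HasPair S u v α β n r) {n s i j : ℕ}
    {y z : K[X]} (hy : y ∈ S) (hz : z ∈ S) (dy : y.natDegree ≤ n) (dz : z.natDegree ≤ n)
    (hag : ∀ t : ℕ, s < t → (v ^ j • y - u ^ i • z).coeff t = 0) (hs : s ≤ n) (hn : n < s + r) :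
    ∃ q ∈ Nu (K := K) u v, algebraMap A K (u ^ i * v ^ j) * q =
      algebraMap A K (wt u v α β s) * (v ^ j • y - u ^ i • z).coeff s := by
  obtain ⟨k, rfl⟩ := Nat.exists_eq_add_of_le hs
  exact lemA_aux h hL k s i j y z hy hz dy dz hag (by omega)

/-- the obstruction exists -/
theorem obs_exists (h : LPData S u v α β) {n r : ℕ} (hr : r ≤ n) (hL : HasPair S u v α β n r) :
    ∃ q, Obs S u v α β n r q := by
  obtain ⟨i, j, y, z, hp⟩ := hL
  refine ⟨algebraMap A K (wt u v α β (n - r)) * (v ^ j • y - u ^ i • z).coeff (n - r) /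
    (algebraMap A K u ^ i * algebraMap A K v ^ j), hr, i, j, y, z, hp, ?_⟩
  rw [map_mul, map_pow, map_pow, mul_div_cancel₀ _ (mul_ne_zero (h.U_ne i) (h.V_ne j))]

/-- the obstruction is well defined modulo `Nu`. For two pairs `(y, z)`, `(y', z')` use `lemA` in degree
`n - 1`, `s = n - r`, for `u ^ i' y - u ^ i y'` and `v ^ j' z - v ^ j z'`. -/
theorem obs_unique (h : LPData S u v α β) {n r : ℕ} (hr0 : 0 < r)
    (hL : ∀ n, HasPair S u v α β n r) {q q' : K}
    (hq : Obs S u v α β n r q) (hq' : Obs S u v α β n r q') : q - q' ∈ Nu (K := K) u v := by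
  obtain ⟨hrn, i, j, y, z, hp, he⟩ := hq
  obtain ⟨-, i', j', y', z', hp', he'⟩ := hq'
  have hU := h.U_ne
  have hV := h.V_ne
  have hWne : algebraMap A K (wt u v α β n) ≠ 0 := by
    unfold wt
    rw [map_mul, map_pow, map_pow]
    exact mul_ne_zero (hU _) (hV _)
  have hy := hp.ly
  have hz := hp.lz
  have hy' := hp'.ly
  have hz' := hp'.lz
  simp only [map_mul, map_pow] at hy hz hy' hz' he he'
  have hkey : ∀ t, (v ^ (j + j') • (u ^ i' • y - u ^ i • y') -
      u ^ (i + i') • (v ^ j' • z - v ^ j • z')).coeff t =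
      algebraMap A K u ^ i' * algebraMap A K v ^ j' * (v ^ j • y - u ^ i • z).coeff t -
      algebraMap A K u ^ i * algebraMap A K v ^ j * (v ^ j' • y' - u ^ i' • z').coeff t := by
    intro t
    rw [coeff_diff, coeff_diff, coeff_diff]
    simp only [coeff_sub, cs, map_pow, pow_add]
    ring
  obtain ⟨q'', hq'', hqe⟩ := lemA h hL (n := n - 1) (s := n - r) (i := i + i') (j := j + j')
    (y := u ^ i' • y - u ^ i • y') (z := v ^ j' • z - v ^ j • z')
    (S.sub_mem (S.smul_mem hp.memy _) (S.smul_mem hp'.memy _))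
    (S.sub_mem (S.smul_mem hp.memz _) (S.smul_mem hp'.memz _))
    (by
      refine natDegree_le_pred ?_ ?_
      · exact (natDegree_sub_le _ _).trans (max_le ((natDegree_smul_le _ _).trans hp.degy)
          ((natDegree_smul_le _ _).trans hp'.degy))
      · simp only [coeff_sub, cs, map_pow]
        refine mul_left_cancel₀ hWne ?_
        linear_combination algebraMap A K u ^ i' * hy - algebraMap A K u ^ i * hy')
    (by
      refine natDegree_le_pred ?_ ?_
      · exact (natDegree_sub_le _ _).trans (max_le ((natDegree_smul_le _ _).trans hp.degz)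
          ((natDegree_smul_le _ _).trans hp'.degz))
      · simp only [coeff_sub, cs, map_pow]
        refine mul_left_cancel₀ hWne ?_
        linear_combination algebraMap A K v ^ j' * hz - algebraMap A K v ^ j * hz')
    (by
      intro t ht
      rw [hkey, hp.agree t (by omega), hp'.agree t (by omega)]
      ring)
    (by omega) (by omega)
  rw [hkey] at hqe
  have e : q'' = q - q' := by
    refine mul_left_cancel₀ (mul_ne_zero (mul_ne_zero (hU i) (hU i')) (mul_ne_zero (hV j) (hV j'))) ?_
    simp only [map_mul, map_pow, pow_add] at hqe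
    linear_combination hqe - algebraMap A K u ^ i' * algebraMap A K v ^ j' * he +
      algebraMap A K u ^ i * algebraMap A K v ^ j * he'
  exact e ▸ hq''

/-- multiplicativity: compare `w` times the pair in degree `n + m` with the product of the pairs (`lemA`) -/
theorem obs_mul (h : LPData S u v α β) {n m r : ℕ} (hr0 : 0 < r)
    (hL : ∀ n, HasPair S u v α β n r) {q q' q'' : K}
    (hq : Obs S u v α β n r q) (hq' : Obs S u v α β m r q') (hq'' : Obs S u v α β (n + m) r q'') :
    (u ^ cy α n m * v ^ cy β n m) • q'' - (u ^ cy α (n - r) m * v ^ cy β (n - r) m) • q -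
      (u ^ cy α n (m - r) * v ^ cy β n (m - r)) • q' ∈ Nu (K := K) u v := by
  obtain ⟨hrn, i1, j1, y1, z1, hp1, he1⟩ := hq
  obtain ⟨hrm, i2, j2, y2, z2, hp2, he2⟩ := hq'
  obtain ⟨-, i3, j3, y3, z3, hp3, he3⟩ := hq''
  have hU := h.U_ne
  have hV := h.V_ne
  have hWne : ∀ n, algebraMap A K (wt u v α β n) ≠ 0 := by
    intro n
    unfold wt
    rw [map_mul, map_pow, map_pow]
    exact mul_ne_zero (hU _) (hV _)
  have w0 := congrArg (algebraMap A K) (wt_add u v α β n m)
  have w1 := congrArg (algebraMap A K) (wt_add u v α β (n - r) m)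
  have w2 := congrArg (algebraMap A K) (wt_add u v α β n (m - r))
  have hs1 : n - r + m = n + m - r := by omega
  have hs2 : n + (m - r) = n + m - r := by omega
  rw [hs1] at w1
  rw [hs2] at w2
  have ly1 := hp1.ly
  have lz1 := hp1.lz
  have ly2 := hp2.ly
  have lz2 := hp2.lz
  have ly3 := hp3.ly
  have lz3 := hp3.lz
  simp only [Algebra.smul_def]
  simp only [map_mul, map_pow] at ly1 lz1 ly2 lz2 ly3 lz3 he1 he2 he3 w0 w1 w2 ⊢
  set U := algebraMap A K u with hUdef
  set V := algebraMap A K v with hVdef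
  -- the two products
  have dyy : (y1 * y2).natDegree ≤ n + m := natDegree_mul_le_of_le hp1.degy hp2.degy
  have dzz : (z1 * z2).natDegree ≤ n + m := natDegree_mul_le_of_le hp1.degz hp2.degz
  have cyy : (y1 * y2).coeff (n + m) = y1.coeff n * y2.coeff m :=
    coeff_mul_add_eq_of_natDegree_le hp1.degy hp2.degy
  have czz : (z1 * z2).coeff (n + m) = z1.coeff n * z2.coeff m :=
    coeff_mul_add_eq_of_natDegree_le hp1.degz hp2.degz
  have dE1 : (v ^ j1 • y1 - u ^ i1 • z1).natDegree ≤ n - r := by
    rw [natDegree_le_iff_coeff_eq_zero]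
    intro t ht
    exact hp1.agree t (by omega)
  have dE2 : (v ^ j2 • y2 - u ^ i2 • z2).natDegree ≤ m - r := by
    rw [natDegree_le_iff_coeff_eq_zero]
    intro t ht
    exact hp2.agree t (by omega)
  have hprod : v ^ (j1 + j2) • (y1 * y2) - u ^ (i1 + i2) • (z1 * z2) =
      (v ^ j1 • y1 - u ^ i1 • z1) * (v ^ j2 • y2) +
        (u ^ i1 • z1) * (v ^ j2 • y2 - u ^ i2 • z2) := by
    simp only [Algebra.smul_def, map_mul, map_pow, pow_add]
    ring
  have hP0 : ∀ t, n + m - r < t →
      (v ^ (j1 + j2) • (y1 * y2) - u ^ (i1 + i2) • (z1 * z2)).coeff t = 0 := by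
    intro t ht
    rw [hprod, coeff_add]
    have a1 : ((v ^ j1 • y1 - u ^ i1 • z1) * (v ^ j2 • y2)).natDegree ≤ n - r + m :=
      natDegree_mul_le_of_le dE1 ((natDegree_smul_le _ _).trans hp2.degy)
    have a2 : ((u ^ i1 • z1) * (v ^ j2 • y2 - u ^ i2 • z2)).natDegree ≤ n + (m - r) :=
      natDegree_mul_le_of_le ((natDegree_smul_le _ _).trans hp1.degz) dE2
    rw [coeff_eq_zero_of_natDegree_lt (lt_of_le_of_lt a1 (by omega)),
      coeff_eq_zero_of_natDegree_lt (lt_of_le_of_lt a2 (by omega)), add_zero]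
  have hPs : (v ^ (j1 + j2) • (y1 * y2) - u ^ (i1 + i2) • (z1 * z2)).coeff (n + m - r) =
      (v ^ j1 • y1 - u ^ i1 • z1).coeff (n - r) * (V ^ j2 * y2.coeff m) +
        (U ^ i1 * z1.coeff n) * (v ^ j2 • y2 - u ^ i2 • z2).coeff (m - r) := by
    rw [hprod, coeff_add]
    have a1 := coeff_mul_add_eq_of_natDegree_le dE1 ((natDegree_smul_le (v ^ j2) y2).trans hp2.degy)
    have a2 := coeff_mul_add_eq_of_natDegree_le ((natDegree_smul_le (u ^ i1) z1).trans hp1.degz) dE2
    rw [hs1] at a1
    rw [hs2] at a2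
    rw [a1, a2, cs, cs, map_pow, map_pow]
  have hkey : ∀ t, (v ^ (j1 + j2 + j3) • ((u ^ (i1 + i2) * (u ^ cy α n m * v ^ cy β n m)) • y3 -
        u ^ i3 • (y1 * y2)) -
      u ^ (i1 + i2 + i3) • ((v ^ (j1 + j2) * (u ^ cy α n m * v ^ cy β n m)) • z3 -
        v ^ j3 • (z1 * z2))).coeff t =
      U ^ i1 * U ^ i2 * V ^ j1 * V ^ j2 * (U ^ cy α n m * V ^ cy β n m) *
        (v ^ j3 • y3 - u ^ i3 • z3).coeff t -
      U ^ i3 * V ^ j3 * (v ^ (j1 + j2) • (y1 * y2) - u ^ (i1 + i2) • (z1 * z2)).coeff t := by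
    intro t
    rw [coeff_diff, coeff_diff, coeff_diff]
    simp only [coeff_sub, cs, map_mul, map_pow, pow_add, ← hUdef, ← hVdef]
    ring
  obtain ⟨q0, hq0, hqe⟩ := lemA h hL (n := n + m - 1) (s := n + m - r)
    (i := i1 + i2 + i3) (j := j1 + j2 + j3)
    (y := (u ^ (i1 + i2) * (u ^ cy α n m * v ^ cy β n m)) • y3 - u ^ i3 • (y1 * y2))
    (z := (v ^ (j1 + j2) * (u ^ cy α n m * v ^ cy β n m)) • z3 - v ^ j3 • (z1 * z2))
    (S.sub_mem (S.smul_mem hp3.memy _) (S.smul_mem (S.mul_mem hp1.memy hp2.memy) _))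
    (S.sub_mem (S.smul_mem hp3.memz _) (S.smul_mem (S.mul_mem hp1.memz hp2.memz) _))
    (by
      refine natDegree_le_pred ?_ ?_
      · exact (natDegree_sub_le _ _).trans (max_le ((natDegree_smul_le _ _).trans hp3.degy)
          ((natDegree_smul_le _ _).trans dyy))
      · simp only [coeff_sub, cs, map_mul, map_pow, cyy, ← hUdef,
          ← hVdef, pow_add]
        refine mul_left_cancel₀ (hWne (n + m)) ?_
        have e1 : algebraMap A K (wt u v α β (n + m)) * (y1.coeff n * y2.coeff m) =
            U ^ i1 * U ^ i2 * (U ^ cy α n m * V ^ cy β n m) := by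
          rw [w0, ← ly1, ← ly2]
          ring
        linear_combination U ^ i1 * U ^ i2 * (U ^ cy α n m * V ^ cy β n m) * ly3 - U ^ i3 * e1)
    (by
      refine natDegree_le_pred ?_ ?_
      · exact (natDegree_sub_le _ _).trans (max_le ((natDegree_smul_le _ _).trans hp3.degz)
          ((natDegree_smul_le _ _).trans dzz))
      · simp only [coeff_sub, cs, map_mul, map_pow, czz, ← hUdef,
          ← hVdef, pow_add]
        refine mul_left_cancel₀ (hWne (n + m)) ?_
        have e1 : algebraMap A K (wt u v α β (n + m)) * (z1.coeff n * z2.coeff m) =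
            V ^ j1 * V ^ j2 * (U ^ cy α n m * V ^ cy β n m) := by
          rw [w0, ← lz1, ← lz2]
          ring
        linear_combination V ^ j1 * V ^ j2 * (U ^ cy α n m * V ^ cy β n m) * lz3 - V ^ j3 * e1)
    (by
      intro t ht
      rw [hkey, hP0 t ht, hp3.agree t (by omega)]
      ring)
    (by omega) (by omega)
  rw [hkey, hPs] at hqe
  have e : q0 = U ^ cy α n m * V ^ cy β n m * q'' -
      U ^ cy α (n - r) m * V ^ cy β (n - r) m * q -
      U ^ cy α n (m - r) * V ^ cy β n (m - r) * q' := by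
    refine mul_left_cancel₀ (mul_ne_zero (hU (i1 + i2 + i3)) (hV (j1 + j2 + j3))) ?_
    simp only [map_mul, map_pow, pow_add, ← hUdef, ← hVdef] at hqe ⊢
    -- the two parts of the product
    have p1 : algebraMap A K (wt u v α β (n + m - r)) *
        ((v ^ j1 • y1 - u ^ i1 • z1).coeff (n - r) * (V ^ j2 * y2.coeff m)) =
        U ^ cy α (n - r) m * V ^ cy β (n - r) m * (U ^ i1 * V ^ j1 * q) * (V ^ j2 * U ^ i2) := by
      rw [w1, he1, ← ly2]
      ring
    have p2 : algebraMap A K (wt u v α β (n + m - r)) *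
        ((U ^ i1 * z1.coeff n) * (v ^ j2 • y2 - u ^ i2 • z2).coeff (m - r)) =
        U ^ cy α n (m - r) * V ^ cy β n (m - r) * (U ^ i2 * V ^ j2 * q') * (U ^ i1 * V ^ j1) := by
      rw [w2, he2, ← lz1]
      ring
    linear_combination hqe - U ^ i1 * U ^ i2 * V ^ j1 * V ^ j2 * (U ^ cy α n m * V ^ cy β n m) * he3
      - U ^ i3 * V ^ j3 * p1 - U ^ i3 * V ^ j3 * p2
  exact e ▸ hq0

/-- an adapted element gives the pair `(x, x)`, `i = j = 0` -/
theorem obs_adapted (h : LPData S u v α β) {m r : ℕ} (hr0 : 0 < r)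
    (hL : ∀ n, HasPair S u v α β n r) (hm : Adapted S u v α β m) {q : K}
    (hq : Obs S u v α β m r q) : q ∈ Nu (K := K) u v := by
  obtain ⟨x, hx, dx, lx⟩ := hm
  have h0 : Obs S u v α β m r 0 := by
    refine ⟨hq.1, 0, 0, x, x, ⟨hx, hx, dx, dx, ?_, ?_, ?_⟩, ?_⟩
    · rw [lx, pow_zero, map_one]
    · rw [lx, pow_zero, map_one]
    · intro t _
      simp
    · simp
  have h1 := obs_unique h hr0 hL hq h0
  rwa [sub_zero] at h1

/-- multiply the pair in degree `n` by the adapted element of degree `l` -/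
theorem obs_shift (h : LPData S u v α β) {n l r : ℕ} (hα : α ∣ l) (hβ : β ∣ l)
    (hl : Adapted S u v α β l) {q : K} (hq : Obs S u v α β n r q) :
    Obs S u v α β (n + l) r q := by
  obtain ⟨x, hx, dx, lx⟩ := hl
  obtain ⟨hrn, i, j, y, z, hp, he⟩ := hq
  have hE : v ^ j • (y * x) - u ^ i • (z * x) = (v ^ j • y - u ^ i • z) * x := by
    rw [sub_mul, smul_mul_assoc, smul_mul_assoc]
  have dE : (v ^ j • y - u ^ i • z).natDegree ≤ n - r := by
    rw [natDegree_le_iff_coeff_eq_zero]
    intro t ht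
    exact hp.agree t (by omega)
  have hs : n - r + l = n + l - r := by omega
  refine ⟨by omega, i, j, y * x, z * x, ⟨S.mul_mem hp.memy hx, S.mul_mem hp.memz hx,
    natDegree_mul_le_of_le hp.degy dx, natDegree_mul_le_of_le hp.degz dx, ?_, ?_, ?_⟩, ?_⟩
  · rw [coeff_mul_add_eq_of_natDegree_le hp.degy dx, wt_add_of_dvd u v n hα hβ, map_mul]
    linear_combination hp.ly * (algebraMap A K (wt u v α β l) * x.coeff l) +
      algebraMap A K (u ^ i) * lx
  · rw [coeff_mul_add_eq_of_natDegree_le hp.degz dx, wt_add_of_dvd u v n hα hβ, map_mul]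
    linear_combination hp.lz * (algebraMap A K (wt u v α β l) * x.coeff l) +
      algebraMap A K (v ^ j) * lx
  · intro t ht
    rw [hE]
    exact coeff_eq_zero_of_natDegree_lt (lt_of_le_of_lt (natDegree_mul_le_of_le dE dx) (by omega))
  · have a1 := coeff_mul_add_eq_of_natDegree_le dE dx
    rw [hs] at a1
    have a2 := wt_add_of_dvd u v (n - r) hα hβ
    rw [hs] at a2
    rw [hE, a1, a2, map_mul (algebraMap A K) (wt u v α β (n - r))]
    linear_combination he * (algebraMap A K (wt u v α β l) * x.coeff l) -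
      algebraMap A K (u ^ i * v ^ j) * q * lx

end Pool.Agent.LNDT
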