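import Mathlib
import Pool.Agent.LNDT.Defs

set_option autoImplicit false

open Polynomial

namespace Pool.Agent.LNDT

variable {A K : Type} [CommRing A] [IsDomain A] [Field K] [Algebra A K]
  {S : Subalgebra A K[X]} {u v : A} {α β : ℕ}

private lemma lpb_map_ne (h : LPData S u v α β) {a : A} (ha : a ≠ 0) : algebraMap A K a ≠ 0 := by
  intro h0
  exact ha (h.inj (by rw [h0, map_zero]))

private lemma lpb_wt_ne (h : LPData S u v α β) (n : ℕ) : algebraMap A K (wt u v α β n) ≠ 0 := by
  apply lpb_map_ne h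
  exact mul_ne_zero (pow_ne_zero _ h.pu.ne_zero) (pow_ne_zero _ h.pv.ne_zero)

private lemma lpb_smul_coeff (a : A) (p : K[X]) (t : ℕ) :
    (a • p).coeff t = algebraMap A K a * p.coeff t := by
  rw [coeff_smul, Algebra.smul_def]

private lemma lpb_natDegree_smul (a : A) (p : K[X]) : (a • p).natDegree ≤ p.natDegree := by
  rw [natDegree_le_iff_coeff_eq_zero]
  intro t ht
  rw [lpb_smul_coeff, coeff_eq_zero_of_natDegree_lt ht, mul_zero]

private lemma lpb_map_mem (h : LPData S u v α β) (Q : A[X]) : Q.map (algebraMap A K) ∈ S := by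
  have e : Q.map (algebraMap A K) = aeval (X : K[X]) Q := by
    rw [aeval_def, eval₂_eq_sum_range, Polynomial.map, eval₂_eq_sum_range]
    rfl
  rw [e]
  exact aeval_mem_adjoin_singleton A _ |> fun hm =>
    (Algebra.adjoin_le (by simpa using h.X_mem) : Algebra.adjoin A {(X : K[X])} ≤ S) hm

/-- pairs of precision one: `y = X ^ l F ^ j`, `F = f / v`, and `z = X ^ l' Φ ^ i`, `Φ = φ / u` -/
theorem pair_one (h : LPData S u v α β) {F Φ : K[X]} (hF : F ∈ S) (hΦ : Φ ∈ S)
    (dF : F.natDegree ≤ β) (dΦ : Φ.natDegree ≤ α)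
    (lF : algebraMap A K v * F.coeff β = 1) (lΦ : algebraMap A K u * Φ.coeff α = 1) (n : ℕ) :
    HasPair S u v α β n 1 := by
  have key : ∀ (G : K[X]) (γ : ℕ), G.natDegree ≤ γ →
      (X ^ (n % γ) * G ^ (n / γ)).natDegree ≤ n ∧
      (X ^ (n % γ) * G ^ (n / γ)).coeff n = G.coeff γ ^ (n / γ) := by
    intro G γ hG
    have e1 : n % γ + n / γ * γ = n := by
      rw [mul_comm]
      exact Nat.mod_add_div n γ
    have d1 : (X ^ (n % γ) : K[X]).natDegree ≤ n % γ := by simp
    have d2 : (G ^ (n / γ)).natDegree ≤ n / γ * γ :=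
      natDegree_pow_le_of_le (n / γ) hG
    constructor
    · calc (X ^ (n % γ) * G ^ (n / γ)).natDegree ≤ n % γ + n / γ * γ :=
            natDegree_mul_le_of_le d1 d2
        _ = n := e1
    · have e2 : (X ^ (n % γ) * G ^ (n / γ)).coeff n =
          (X ^ (n % γ) * G ^ (n / γ)).coeff (n % γ + n / γ * γ) := by rw [e1]
      rw [e2, coeff_mul_add_eq_of_natDegree_le d1 d2, coeff_pow_of_natDegree_le hG,
        coeff_X_pow_self, one_mul]
  obtain ⟨dy, cyy⟩ := key F β dF
  obtain ⟨dz, cz⟩ := key Φ α dΦ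
  have ly : algebraMap A K (wt u v α β n) * (X ^ (n % β) * F ^ (n / β)).coeff n =
      algebraMap A K (u ^ (n / α)) := by
    rw [cyy, wt, map_mul, map_pow (algebraMap A K) v, mul_assoc, ← mul_pow, lF, one_pow, mul_one]
  have lz : algebraMap A K (wt u v α β n) * (X ^ (n % α) * Φ ^ (n / α)).coeff n =
      algebraMap A K (v ^ (n / β)) := by
    rw [cz, wt, map_mul, map_pow (algebraMap A K) u, mul_right_comm, ← mul_pow, lΦ, one_pow, one_mul]
  refine ⟨n / α, n / β, _, _, ⟨S.mul_mem (S.pow_mem h.X_mem _) (S.pow_mem hF _),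
    S.mul_mem (S.pow_mem h.X_mem _) (S.pow_mem hΦ _), dy, dz, ly, lz, ?_⟩⟩
  intro t ht
  rcases Nat.lt_or_ge n t with h1 | h1
  · rw [coeff_sub, lpb_smul_coeff, lpb_smul_coeff, coeff_eq_zero_of_natDegree_lt (dy.trans_lt h1),
      coeff_eq_zero_of_natDegree_lt (dz.trans_lt h1)]
    simp
  · have ht' : t = n := by omega
    subst ht'
    apply mul_left_cancel₀ (lpb_wt_ne h t)
    rw [coeff_sub, lpb_smul_coeff, lpb_smul_coeff, mul_zero, mul_sub, mul_left_comm, ly,
      mul_left_comm, lz]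
    ring

/-- a pair of precision `r > n` has every precision -/
theorem pair_big {n r : ℕ} (hn : n < r) (hL : HasPair S u v α β n r) (s : ℕ) :
    HasPair S u v α β n s := by
  obtain ⟨i, j, y, z, hp⟩ := hL
  exact ⟨i, j, y, z, hp.memy, hp.memz, hp.degy, hp.degz, hp.ly, hp.lz,
    fun t _ => hp.agree t (by omega)⟩

/-- if the obstruction is zero, the pair can be improved by elements of degree `n - r`: by `q ∈ Nu` the
coefficient is `(a v ^ j' + b u ^ i')`-divisible after multiplying `y` by a power of `u` and `z` by a power of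
`v`; subtract multiples of the pair in degree `n - r` -/
theorem pair_succ (h : LPData S u v α β) {n r : ℕ} (hr0 : 0 < r)
    (hL : ∀ n, HasPair S u v α β n r) {q : K}
    (hq : Obs S u v α β n r q) (hN : q ∈ Nu (K := K) u v) : HasPair S u v α β n (r + 1) := by
  obtain ⟨hrn, i, j, y, z, hp, e⟩ := hq
  obtain ⟨i', j', a, b, e'⟩ := hN
  obtain ⟨i2, j2, y2, z2, hp2⟩ := hL (n - r)
  have hlt : n - r < n := by omega
  refine ⟨i + i' + i2, j + j' + j2, u ^ (i' + i2) • y - (u ^ i * a) • y2,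
    v ^ (j' + j2) • z + (v ^ j * b) • z2,
    ⟨S.sub_mem (S.smul_mem hp.memy _) (S.smul_mem hp2.memy _),
    S.add_mem (S.smul_mem hp.memz _) (S.smul_mem hp2.memz _), ?_, ?_, ?_, ?_, ?_⟩⟩
  · exact (natDegree_sub_le_of_le ((lpb_natDegree_smul _ _).trans hp.degy)
      ((lpb_natDegree_smul _ _).trans (hp2.degy.trans hlt.le))).trans (max_self n).le
  · exact natDegree_add_le_of_degree_le ((lpb_natDegree_smul _ _).trans hp.degz)
      ((lpb_natDegree_smul _ _).trans (hp2.degz.trans hlt.le))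
  · rw [coeff_sub, lpb_smul_coeff, lpb_smul_coeff,
      coeff_eq_zero_of_natDegree_lt (hp2.degy.trans_lt hlt), mul_zero, sub_zero, mul_left_comm, hp.ly,
      ← map_mul]
    congr 1
    ring
  · rw [coeff_add, lpb_smul_coeff, lpb_smul_coeff,
      coeff_eq_zero_of_natDegree_lt (hp2.degz.trans_lt hlt), mul_zero, add_zero, mul_left_comm, hp.lz,
      ← map_mul]
    congr 1
    ring
  · intro t ht
    rcases Nat.lt_or_ge (n - r) t with h1 | h1
    · have h2 := hp.agree t (by omega)
      rw [coeff_sub, lpb_smul_coeff, lpb_smul_coeff] at h2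
      rw [coeff_sub, lpb_smul_coeff, lpb_smul_coeff, coeff_sub, coeff_add, lpb_smul_coeff,
        lpb_smul_coeff, lpb_smul_coeff, lpb_smul_coeff,
        coeff_eq_zero_of_natDegree_lt (hp2.degy.trans_lt h1),
        coeff_eq_zero_of_natDegree_lt (hp2.degz.trans_lt h1)]
      simp only [map_mul, map_pow, mul_zero, sub_zero, add_zero, pow_add] at h2 ⊢
      linear_combination (algebraMap A K u ^ i' * algebraMap A K u ^ i2 *
        (algebraMap A K v ^ j' * algebraMap A K v ^ j2)) * h2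
    · have ht' : t = n - r := by omega
      subst ht'
      apply mul_left_cancel₀ (lpb_wt_ne h (n - r))
      have ly2 := hp2.ly
      have lz2 := hp2.lz
      rw [coeff_sub, lpb_smul_coeff, lpb_smul_coeff] at e
      rw [coeff_sub, lpb_smul_coeff, lpb_smul_coeff, coeff_sub, coeff_add, lpb_smul_coeff,
        lpb_smul_coeff, lpb_smul_coeff, lpb_smul_coeff]
      simp only [map_mul, map_pow, map_add, pow_add] at e e' ly2 lz2 ⊢
      linear_combination (- (algebraMap A K u ^ i' * algebraMap A K u ^ i2 *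
        (algebraMap A K v ^ j' * algebraMap A K v ^ j2))) * e +
        (algebraMap A K u ^ i2 * algebraMap A K v ^ j2 * algebraMap A K u ^ i *
          algebraMap A K v ^ j) * e' -
        (algebraMap A K v ^ j * algebraMap A K v ^ j' * algebraMap A K v ^ j2 *
          algebraMap A K u ^ i * algebraMap A K a) * ly2 -
        (algebraMap A K u ^ i * algebraMap A K u ^ i' * algebraMap A K u ^ i2 *
          algebraMap A K v ^ j * algebraMap A K b) * lz2

/-- a pair of precision `r + 1` has obstruction zero of precision `r` -/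
theorem obs_zero_of_pair (h : LPData S u v α β) {n r : ℕ} (hr : r ≤ n)
    (hL : HasPair S u v α β n (r + 1)) : Obs S u v α β n r 0 := by
  obtain ⟨i, j, y, z, hp⟩ := hL
  refine ⟨hr, i, j, y, z, ⟨hp.memy, hp.memz, hp.degy, hp.degz, hp.ly, hp.lz,
    fun t ht => hp.agree t (by omega)⟩, ?_⟩
  rw [hp.agree (n - r) (by omega), mul_zero, mul_zero]

/-- the last step: for a pair of precision `n + 1` the elements `v ^ j • y` and `u ^ i • z` are equal, so `y`
is divisible by `u ^ i` in `S` -/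
theorem adapted_of_pair (h : LPData S u v α β) {n : ℕ} (hL : HasPair S u v α β n (n + 1)) :
    Adapted S u v α β n := by
  obtain ⟨i, j, y, z, hp⟩ := hL
  have e : v ^ j • y = u ^ i • z := by
    rw [← sub_eq_zero]
    ext t
    rw [hp.agree t (by omega), coeff_zero]
  obtain ⟨w, hw, e2⟩ := h.sat y hp.memy z hp.memz i j e
  have hu : algebraMap A K (u ^ i) ≠ 0 := lpb_map_ne h (pow_ne_zero _ h.pu.ne_zero)
  refine ⟨w, hw, ?_, ?_⟩
  · rw [natDegree_le_iff_coeff_eq_zero]
    intro t ht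
    have h1 : y.coeff t = 0 := coeff_eq_zero_of_natDegree_lt (hp.degy.trans_lt ht)
    rw [e2, lpb_smul_coeff] at h1
    exact (mul_eq_zero.1 h1).resolve_left hu
  · have h1 := hp.ly
    rw [e2, lpb_smul_coeff, mul_left_comm] at h1
    exact mul_left_cancel₀ hu (by rw [h1, mul_one])

/-- THE SEED. `F = f / v`, `Φ = φ / u` with monic `f`, `φ` over `A` of degrees `β`, `α`, and
`f ^ k - ĝ φ ^ k' = u S1 + v S2`, where `β k = α k' + g`. Then degree `β k` has a pair of precision `r + 1`,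
for `r ≤ α`, `r ≤ β`: start with `y = F ^ k`, `z = ĝ Φ ^ k'` (`i = k'`, `j = k`) and subtract
`F ^ (k-1) Q`, `Φ ^ (k'-1) Q'`, the quotients of `S2` by `f ^ (k-1)` and of `S1` by `φ ^ (k'-1)`. -/
theorem pair_seed (h : LPData S u v α β) {F Φ : K[X]} (hF : F ∈ S) (hΦ : Φ ∈ S)
    {f φ ĝ S1 S2 : A[X]} (mf : f.Monic) (mφ : φ.Monic) (mg : ĝ.Monic) (df : f.natDegree = β)
    (dφ : φ.natDegree = α) (eF : v • F = f.map (algebraMap A K))
    (eΦ : u • Φ = φ.map (algebraMap A K)) {k k' g : ℕ} (hk : 0 < k) (hk' : 0 < k')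
    (dg : ĝ.natDegree = g) (hgα : g < α) (hkk : β * k = α * k' + g)
    (hS : f ^ k = ĝ * φ ^ k' + C u * S1 + C v * S2)
    (d1 : S1.natDegree < β * k) (d2 : S2.natDegree < β * k) {r : ℕ} (hrα : r ≤ α) (hrβ : r ≤ β) :
    HasPair S u v α β (β * k) (r + 1) := by
  have hα := h.pα
  have hβ := h.pβ
  obtain ⟨k, rfl⟩ : ∃ k0, k = k0 + 1 := ⟨k - 1, by omega⟩
  obtain ⟨k', rfl⟩ : ∃ k0, k' = k0 + 1 := ⟨k' - 1, by omega⟩
  have hv : algebraMap A K v ≠ 0 := lpb_map_ne h h.pv.ne_zero
  have hu : algebraMap A K u ≠ 0 := lpb_map_ne h h.pu.ne_zero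
  -- degrees and leading coefficients of `F`, `Φ`
  have key : ∀ (a : A) (G : K[X]) (p : A[X]) (γ : ℕ), algebraMap A K a ≠ 0 → p.Monic →
      p.natDegree = γ → a • G = p.map (algebraMap A K) →
      G.natDegree ≤ γ ∧ algebraMap A K a * G.coeff γ = 1 := by
    intro a G p γ ha hp hd he
    constructor
    · rw [natDegree_le_iff_coeff_eq_zero]
      intro t ht
      have h1 : (a • G).coeff t = 0 := by
        rw [he, coeff_map, coeff_eq_zero_of_natDegree_lt (by omega), map_zero]
      rw [lpb_smul_coeff] at h1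
      exact (mul_eq_zero.1 h1).resolve_left ha
    · rw [← lpb_smul_coeff, he, coeff_map, ← hd, hp.coeff_natDegree, map_one]
  obtain ⟨dF, lF⟩ := key v F f β hv mf df eF
  obtain ⟨dΦ, lΦ⟩ := key u Φ φ α hu mφ dφ eΦ
  -- the quotients
  set Q := S2 /ₘ f ^ k with hQ
  set R2 := S2 %ₘ f ^ k with hR2
  set Q' := S1 /ₘ φ ^ k' with hQ'
  set R1 := S1 %ₘ φ ^ k' with hR1
  have eQ : R2 + f ^ k * Q = S2 := modByMonic_add_div S2 (f ^ k)
  have eQ' : R1 + φ ^ k' * Q' = S1 := modByMonic_add_div S1 (φ ^ k')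
  have dfk : (f ^ k).natDegree = k * β := by rw [mf.natDegree_pow, df]
  have dφk : (φ ^ k').natDegree = k' * α := by rw [mφ.natDegree_pow, dφ]
  have dQ : Q.natDegree = S2.natDegree - k * β := by
    rw [hQ, natDegree_divByMonic _ (mf.pow k), dfk]
  have dQ' : Q'.natDegree = S1.natDegree - k' * α := by
    rw [hQ', natDegree_divByMonic _ (mφ.pow k'), dφk]
  have hβk : β * (k + 1) = k * β + β := by ring
  have hαk : α * (k' + 1) = k' * α + α := by ring
  have cR2 : ∀ t, k * β ≤ t → R2.coeff t = 0 := by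
    intro t ht
    apply coeff_eq_zero_of_degree_lt
    refine (degree_modByMonic_lt S2 (mf.pow k)).trans_le ?_
    rw [degree_eq_natDegree (mf.pow k).ne_zero, dfk]
    exact_mod_cast ht
  have cR1 : ∀ t, k' * α ≤ t → R1.coeff t = 0 := by
    intro t ht
    apply coeff_eq_zero_of_degree_lt
    refine (degree_modByMonic_lt S1 (mφ.pow k')).trans_le ?_
    rw [degree_eq_natDegree (mφ.pow k').ne_zero, dφk]
    exact_mod_cast ht
  have dQm : (Q.map (algebraMap A K)).natDegree ≤ Q.natDegree := natDegree_map_le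
  have dQm' : (Q'.map (algebraMap A K)).natDegree ≤ Q'.natDegree := natDegree_map_le
  have dgm : (ĝ.map (algebraMap A K)).natDegree ≤ g := natDegree_map_le.trans dg.le
  have dFk : (F ^ k).natDegree ≤ k * β := natDegree_pow_le_of_le k dF
  have dFk1 : (F ^ (k + 1)).natDegree ≤ (k + 1) * β := natDegree_pow_le_of_le (k + 1) dF
  have dΦk : (Φ ^ k').natDegree ≤ k' * α := natDegree_pow_le_of_le k' dΦ
  have dΦk1 : (Φ ^ (k' + 1)).natDegree ≤ (k' + 1) * α := natDegree_pow_le_of_le (k' + 1) dΦ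
  have n1 : (k + 1) * β = β * (k + 1) := mul_comm _ _
  have n2 : g + (k' + 1) * α = β * (k + 1) := by rw [hkk]; ring
  have dy2 : (F ^ k * Q.map (algebraMap A K)).natDegree < β * (k + 1) :=
    (natDegree_mul_le_of_le dFk dQm).trans_lt (by omega)
  have dz2 : (Φ ^ k' * Q'.map (algebraMap A K)).natDegree < β * (k + 1) :=
    (natDegree_mul_le_of_le dΦk dQm').trans_lt (by omega)
  have dz1 : (ĝ.map (algebraMap A K) * Φ ^ (k' + 1)).natDegree ≤ β * (k + 1) :=
    (natDegree_mul_le_of_le dgm dΦk1).trans n2.le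
  have ew : wt u v α β (β * (k + 1)) = u ^ (k' + 1) * v ^ (k + 1) := by
    rw [wt]
    congr 2
    · rw [hkk, Nat.mul_add_div hα, Nat.div_eq_of_lt hgα, add_zero]
    · exact Nat.mul_div_cancel_left _ hβ
  have cy1 : (F ^ (k + 1)).coeff (β * (k + 1)) = F.coeff β ^ (k + 1) := by
    rw [← n1, coeff_pow_of_natDegree_le dF]
  have cz1 : (ĝ.map (algebraMap A K) * Φ ^ (k' + 1)).coeff (β * (k + 1)) =
      Φ.coeff α ^ (k' + 1) := by
    rw [← n2, coeff_mul_add_eq_of_natDegree_le dgm dΦk1, coeff_pow_of_natDegree_le dΦ, coeff_map, ← dg,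
      mg.coeff_natDegree, map_one, one_mul]
  refine ⟨k' + 1, k + 1, F ^ (k + 1) - F ^ k * Q.map (algebraMap A K),
    ĝ.map (algebraMap A K) * Φ ^ (k' + 1) + Φ ^ k' * Q'.map (algebraMap A K),
    ⟨S.sub_mem (S.pow_mem hF _) (S.mul_mem (S.pow_mem hF _) (lpb_map_mem h _)),
    S.add_mem (S.mul_mem (lpb_map_mem h _) (S.pow_mem hΦ _))
      (S.mul_mem (S.pow_mem hΦ _) (lpb_map_mem h _)), ?_, ?_, ?_, ?_, ?_⟩⟩
  · exact (natDegree_sub_le_of_le (dFk1.trans n1.le) dy2.le).trans (max_self _).le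
  · exact natDegree_add_le_of_degree_le dz1 dz2.le
  · rw [coeff_sub, coeff_eq_zero_of_natDegree_lt dy2, sub_zero, cy1, ew, map_mul,
      map_pow (algebraMap A K) v, mul_assoc, ← mul_pow, lF, one_pow, mul_one]
  · rw [coeff_add, coeff_eq_zero_of_natDegree_lt dz2, add_zero, cz1, ew, map_mul,
      map_pow (algebraMap A K) u, mul_right_comm, ← mul_pow, lΦ, one_pow, one_mul]
  · have e1 : v ^ (k + 1) • (F ^ (k + 1) - F ^ k * Q.map (algebraMap A K)) =
        (f ^ (k + 1) - C v * (f ^ k * Q)).map (algebraMap A K) := by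
      have a1 : v ^ (k + 1) • (F ^ (k + 1) - F ^ k * Q.map (algebraMap A K)) =
          (v • F) ^ (k + 1) - C (algebraMap A K v) * ((v • F) ^ k * Q.map (algebraMap A K)) := by
        simp only [Algebra.smul_def, Polynomial.algebraMap_apply, map_pow]
        ring
      rw [a1, eF]
      simp only [Polynomial.map_sub, Polynomial.map_mul, Polynomial.map_pow, map_C]
    have e2 : u ^ (k' + 1) • (ĝ.map (algebraMap A K) * Φ ^ (k' + 1) +
        Φ ^ k' * Q'.map (algebraMap A K)) =
        (ĝ * φ ^ (k' + 1) + C u * (φ ^ k' * Q')).map (algebraMap A K) := by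
      have a1 : u ^ (k' + 1) • (ĝ.map (algebraMap A K) * Φ ^ (k' + 1) +
          Φ ^ k' * Q'.map (algebraMap A K)) =
          ĝ.map (algebraMap A K) * (u • Φ) ^ (k' + 1) +
            C (algebraMap A K u) * ((u • Φ) ^ k' * Q'.map (algebraMap A K)) := by
        simp only [Algebra.smul_def, Polynomial.algebraMap_apply, map_pow]
        ring
      rw [a1, eΦ]
      simp only [Polynomial.map_add, Polynomial.map_mul, Polynomial.map_pow, map_C]
    have e3 : f ^ (k + 1) - C v * (f ^ k * Q) - (ĝ * φ ^ (k' + 1) + C u * (φ ^ k' * Q')) =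
        C v * R2 + C u * R1 := by
      linear_combination hS - C v * eQ - C u * eQ'
    intro t ht
    rw [e1, e2, ← Polynomial.map_sub, e3, coeff_map, coeff_add, coeff_C_mul, coeff_C_mul,
      cR2 t (by omega), cR1 t (by omega), mul_zero, mul_zero, add_zero, map_zero]

end Pool.Agent.LNDT
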