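import Mathlib
import Pool.Agent.LNDT.Defs

set_option autoImplicit false

namespace Pool.Agent.LNDT

namespace LpCaux

theorem cy_eq (a n m : ℕ) (ha : 0 < a) : cy a n m = if a ≤ n % a + m % a then 1 else 0 := by
  unfold cy
  rw [Nat.add_div ha]
  split_ifs <;> omega

theorem sub_mod (a r n : ℕ) (ha : 0 < a) (hr : 0 < r) (h : r ≤ n) :
    (n - r) % a = if (r - 1) % a + 1 ≤ n % a then n % a - ((r - 1) % a + 1)
      else n % a + a - ((r - 1) % a + 1) := by
  have h1 : r - 1 = a * ((r - 1) / a) + (r - 1) % a := (Nat.div_add_mod _ _).symm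
  have h2 : n = a * (n / a) + n % a := (Nat.div_add_mod _ _).symm
  have hx : (r - 1) % a < a := Nat.mod_lt _ ha
  have hi : n % a < a := Nat.mod_lt _ ha
  generalize (r - 1) / a = q at *
  generalize (r - 1) % a = z at *
  generalize hp : n / a = p at *
  generalize hii : n % a = i at *
  split_ifs with hc
  · have hqp : q ≤ p := by
      by_contra hlt
      push Not at hlt
      have : a * (p + 1) ≤ a * q := Nat.mul_le_mul_left _ hlt
      rw [Nat.mul_add] at this
      omega
    have h3 : n - r = (i - (z + 1)) + a * (p - q) := by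
      have h4 : a * q ≤ a * p := Nat.mul_le_mul_left _ hqp
      rw [Nat.mul_sub]
      omega
    rw [h3, Nat.add_mul_mod_self_left, Nat.mod_eq_of_lt (by omega)]
  · have hqp : q + 1 ≤ p := by
      by_contra hlt
      push Not at hlt
      have : a * p ≤ a * q := Nat.mul_le_mul_left _ (by omega)
      omega
    have h3 : n - r = (i + a - (z + 1)) + a * (p - (q + 1)) := by
      have h4 : a * (q + 1) ≤ a * p := Nat.mul_le_mul_left _ hqp
      rw [Nat.mul_sub]
      rw [Nat.mul_add] at *
      omega
    rw [h3, Nat.add_mul_mod_self_left, Nat.mod_eq_of_lt (by omega)]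

/-- the carry of the residues `i`, `i'` -/
def W (a i j : ℕ) : ℕ := if a ≤ i + j then 1 else 0

/-- the carry of the residues `i - x`, `i'` -/
def R (a x i j : ℕ) : ℕ :=
  if x ≤ i then (if a + x ≤ i + j then 1 else 0) else (if x ≤ i + j then 1 else 0)

theorem cy_sub (a r n m : ℕ) (ha : 0 < a) (hr : 0 < r) (h : r ≤ n) :
    cy a (n - r) m = R a ((r - 1) % a + 1) (n % a) (m % a) := by
  rw [cy_eq a _ _ ha, sub_mod a r n ha hr h]
  have hx : (r - 1) % a < a := Nat.mod_lt _ ha
  have hi : n % a < a := Nat.mod_lt _ ha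
  have hj : m % a < a := Nat.mod_lt _ ha
  unfold R
  split_ifs <;> omega

theorem R_zero_right {a x i : ℕ} (hx : 0 < x) (hi : i < a) : R a x i 0 = 0 := by
  unfold R
  split_ifs <;> omega

theorem R_zero_left {a x j : ℕ} (hx : 0 < x) : R a x 0 j = if x ≤ j then 1 else 0 := by
  unfold R
  split_ifs <;> omega

theorem R_lt {a x i j : ℕ} (hij : i + j < a) :
    R a x i j = if i < x ∧ x ≤ i + j then 1 else 0 := by
  unfold R
  split_ifs <;> omega

theorem R_eq {a x i j : ℕ} (hx : 0 < x) (hxa : x ≤ a) (hij : i + j = a) :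
    R a x i j = if i < x then 1 else 0 := by
  unfold R
  split_ifs <;> omega

theorem W_lt {a i j : ℕ} (hij : i + j < a) : W a i j = 0 := if_neg (by omega)

theorem W_eq {a i j : ℕ} (hij : i + j = a) : W a i j = 1 := if_pos (by omega)

theorem cy_comm (a n m : ℕ) : cy a n m = cy a m n := by
  unfold cy
  rw [Nat.add_comm n m]
  omega

theorem per_mul {H : Type} (ω : ℕ → H) (L : ℕ) (hper : ∀ n, ω (n + L) = ω n) (n k : ℕ) :
    ω (n + L * k) = ω n := by
  induction k with
  | zero => simp
  | succ k ih => rw [Nat.mul_succ, ← Nat.add_assoc, hper, ih]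

theorem class_eq {H : Type} (ω : ℕ → H) (α β : ℕ)
    (hper : ∀ n, ω (n + Nat.lcm α β) = ω n) (n m : ℕ) (h1 : n % α = m % α) (h2 : n % β = m % β) :
    ω n = ω m := by
  wlog hnm : n ≤ m generalizing n m
  · exact (this m n h1.symm h2.symm (by omega)).symm
  have d1 : α ∣ m - n := (Nat.modEq_iff_dvd' hnm).mp h1
  have d2 : β ∣ m - n := (Nat.modEq_iff_dvd' hnm).mp h2
  obtain ⟨k, hk⟩ := Nat.lcm_dvd d1 d2
  have : m = n + Nat.lcm α β * k := by omega
  rw [this, per_mul ω _ hper]

theorem bezout (α β g : ℕ) (hg : g = Nat.gcd α β) (ha : 0 < α) (hb : 0 < β) :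
    ∃ k k' : ℕ, 0 < k ∧ 0 < k' ∧ β * k = α * k' + g := by
  have h := Nat.gcd_eq_gcd_ab α β
  rw [← hg] at h
  set s := Nat.gcdA α β
  set t := Nat.gcdB α β
  set M : ℤ := |s| + |t| + 1
  have hM : 0 < M := by positivity
  have ha' : (1 : ℤ) ≤ α := by exact_mod_cast ha
  have hb' : (1 : ℤ) ≤ β := by exact_mod_cast hb
  have h1 : 0 < t + α * M := by
    have : M ≤ α * M := by nlinarith
    have h2 : -|t| ≤ t := neg_abs_le t
    have h3 : 0 ≤ |s| := abs_nonneg s
    omega
  have h2 : 0 < -s + β * M := by
    have : M ≤ β * M := by nlinarith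
    have h2 : s ≤ |s| := le_abs_self s
    have h3 : 0 ≤ |t| := abs_nonneg t
    omega
  refine ⟨(t + α * M).toNat, (-s + β * M).toNat, by omega, by omega, ?_⟩
  zify
  rw [Int.toNat_of_nonneg h1.le, Int.toNat_of_nonneg h2.le, h]
  ring

theorem onevar {A H : Type} [CommRing A] [AddCommGroup H] [Module A H] (u : A)
    (hunit : ∀ n : ℕ, n ≠ 0 → IsUnit (n : A)) (g x q : ℕ) (h2 : 2 ≤ q) (a : ℕ → H)
    (ha0 : a 0 = 0)
    (h1 : ∀ k, k + 1 < q → 0 < k → a (k + 1) =
      u ^ (if g * k < x ∧ x ≤ g * (k + 1) then 1 else 0) • a k +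
      u ^ (if g < x ∧ x ≤ g * (k + 1) then 1 else 0) • a 1)
    (hq : (0 : H) = u ^ (if g * (q - 1) < x then 1 else 0) • a (q - 1) +
      u ^ (if g < x then 1 else 0) • a 1) :
    (x ≤ g → ∀ k < q, a k = 0) ∧
    (g < x → u • a 1 = 0 ∧ ∀ k < q, a k = if g * k < x then (k : A) • a 1 else 0) := by
  constructor
  · intro hx
    have hk : ∀ k, 0 < k → k < q → a k = (k : A) • a 1 := by
      intro k
      induction k with
      | zero => intro h; omega
      | succ k ih =>
        intro _ hkq
        rcases Nat.eq_zero_or_pos k with h0 | h0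
        · subst h0; simp
        · have hgk : g ≤ g * k := Nat.le_mul_of_pos_right _ h0
          rw [h1 k hkq h0, ih h0 (by omega), if_neg (by omega), if_neg (by omega)]
          simp only [pow_zero, one_smul, Nat.cast_add, Nat.cast_one, add_smul]
    have hgk : g ≤ g * (q - 1) := Nat.le_mul_of_pos_right _ (by omega)
    rw [if_neg (by omega), if_neg (by omega), hk (q - 1) (by omega) (by omega)] at hq
    simp only [pow_zero, one_smul] at hq
    have h3 : ((q : ℕ) : A) • a 1 = 0 := by
      have : (q : A) = ((q - 1 : ℕ) : A) + 1 := by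
        obtain ⟨q', rfl⟩ : ∃ q', q = q' + 1 := ⟨q - 1, by omega⟩
        simp
      rw [this, add_smul, one_smul, ← hq]
    have h4 : a 1 = 0 := (hunit q (by omega)).smul_eq_zero.mp h3
    intro k hkq
    rcases Nat.eq_zero_or_pos k with h0 | h0
    · subst h0; exact ha0
    · rw [hk k h0 hkq, h4, smul_zero]
  · intro hx
    have hk : ∀ k, 0 < k → k < q → a k = if g * k < x then (k : A) • a 1
        else (k : A) • (u • a 1) := by
      intro k
      induction k with
      | zero => intro h; omega
      | succ k ih =>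
        intro _ hkq
        rcases Nat.eq_zero_or_pos k with h0 | h0
        · subst h0; simp [hx]
        · rw [h1 k hkq h0, ih h0 (by omega)]
          have hgk : g * k ≤ g * (k + 1) := Nat.mul_le_mul_left _ (by omega)
          by_cases c1 : g * (k + 1) < x
          · rw [if_neg (show ¬ (g * k < x ∧ x ≤ g * (k + 1)) by omega),
              if_neg (show ¬ (g < x ∧ x ≤ g * (k + 1)) by omega),
              if_pos (show g * k < x by omega), if_pos c1]
            simp only [pow_zero, one_smul, Nat.cast_add, Nat.cast_one, add_smul]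
          · by_cases c2 : g * k < x
            · rw [if_pos (show (g * k < x ∧ x ≤ g * (k + 1)) by omega),
                if_pos (show (g < x ∧ x ≤ g * (k + 1)) by omega), if_pos c2, if_neg c1]
              simp only [pow_one, Nat.cast_add, Nat.cast_one, add_smul, one_smul]
              rw [smul_comm u]
            · rw [if_neg (show ¬ (g * k < x ∧ x ≤ g * (k + 1)) by omega),
                if_pos (show (g < x ∧ x ≤ g * (k + 1)) by omega), if_neg c2, if_neg c1]
              simp only [pow_zero, pow_one, Nat.cast_add, Nat.cast_one, add_smul, one_smul]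
    rw [if_pos hx, hk (q - 1) (by omega) (by omega), pow_one] at hq
    have h3 : ((q : ℕ) : A) • (u • a 1) = 0 := by
      have : (q : A) = ((q - 1 : ℕ) : A) + 1 := by
        obtain ⟨q', rfl⟩ : ∃ q', q = q' + 1 := ⟨q - 1, by omega⟩
        simp
      rw [this, add_smul, one_smul]
      by_cases c1 : g * (q - 1) < x
      · rw [if_pos c1, if_pos c1, pow_one, smul_comm u] at hq
        exact hq.symm
      · rw [if_neg c1, if_neg c1, pow_zero, one_smul] at hq
        exact hq.symm
    have h4 : u • a 1 = 0 := (hunit q (by omega)).smul_eq_zero.mp h3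
    refine ⟨h4, fun k hkq => ?_⟩
    rcases Nat.eq_zero_or_pos k with h0 | h0
    · subst h0; simp [ha0]
    · rw [hk k h0 hkq, h4, smul_zero]

end LpCaux

open LpCaux

/-- COMBINATORICS. See doc H/821812_TSTAR, section 3. Let `g = gcd(α, β)`, `x = ((r-1) mod α) + 1`,
`y = ((r-1) mod β) + 1`, `a_k` the value at the class `(k, 0)` modulo `(α, β)`, `b_l` at `(0, l)`. One finds
`ω(n) = ((n mod α) - (n mod β))/g • a_g` if `n mod α < x` and `n mod β < y`, and `0` otherwise, with
`u a_g = v a_g = 0`, `a_g = 0` if `x ≤ g`; then `a_g = 0` from `ω(r - y) = 0` (`x > y`), `ω(r - x) = 0`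
(`x < y`), and for `x = y` either `r > lcm` (all classes vanish) or `r ≤ α, β` (the seed). -/
theorem comb {A H : Type} [CommRing A] [AddCommGroup H] [Module A H] (u v : A)
    (hunit : ∀ n : ℕ, n ≠ 0 → IsUnit (n : A)) (α β g r : ℕ) (hg : g = Nat.gcd α β) (hgα : g < α)
    (hgβ : g < β) (hr : 0 < r) (ω : ℕ → H) (h0 : ∀ n, n < r → ω n = 0)
    (hper : ∀ n, ω (n + Nat.lcm α β) = ω n) (hsmall : ∀ n, n < α → n < β → ω n = 0)
    (hmul : ∀ n m, r ≤ n → r ≤ m → (u ^ cy α n m * v ^ cy β n m) • ω (n + m) =
      (u ^ cy α (n - r) m * v ^ cy β (n - r) m) • ω n +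
      (u ^ cy α n (m - r) * v ^ cy β n (m - r)) • ω m)
    (hseed : r ≤ α → r ≤ β → ∀ k k' : ℕ, 0 < k → 0 < k' → β * k = α * k' + g → ω (β * k) = 0)
    (n : ℕ) : ω n = 0 := by
  -- basic facts
  have hα : 0 < α := by omega
  have hβ : 0 < β := by omega
  have hg0 : 0 < g := by rw [hg]; exact Nat.gcd_pos_of_pos_left _ hα
  have hL : 0 < Nat.lcm α β := Nat.lcm_pos hα hβ
  have hcl := class_eq ω α β hper
  obtain ⟨p, hp⟩ : g ∣ α := hg ▸ Nat.gcd_dvd_left α β
  obtain ⟨q, hq⟩ : g ∣ β := hg ▸ Nat.gcd_dvd_right α β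
  have hp2 : 2 ≤ p := by
    by_contra h
    have : p = 0 ∨ p = 1 := by omega
    rcases this with h | h <;> subst h <;> omega
  have hq2 : 2 ≤ q := by
    by_contra h
    have : q = 0 ∨ q = 1 := by omega
    rcases this with h | h <;> subst h <;> omega
  obtain ⟨x, hx⟩ : ∃ x, x = (r - 1) % α + 1 := ⟨_, rfl⟩
  obtain ⟨y, hy⟩ : ∃ y, y = (r - 1) % β + 1 := ⟨_, rfl⟩
  have hxα : x ≤ α := by have := Nat.mod_lt (r - 1) hα; omega
  have hyβ : y ≤ β := by have := Nat.mod_lt (r - 1) hβ; omega
  -- the relation in terms of classes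
  have hK : ∀ n m, (u ^ W α (n % α) (m % α) * v ^ W β (n % β) (m % β)) • ω (n + m) =
      (u ^ R α x (n % α) (m % α) * v ^ R β y (n % β) (m % β)) • ω n +
      (u ^ R α x (m % α) (n % α) * v ^ R β y (m % β) (n % β)) • ω m := by
    intro n m
    have hLr : r ≤ Nat.lcm α β * r := Nat.le_mul_of_pos_left _ hL
    have e1 : ∀ n, (n + Nat.lcm α β * r) % α = n % α := fun n => by
      obtain ⟨c, hc⟩ := Nat.dvd_lcm_left α β
      rw [hc, Nat.mul_assoc, Nat.add_mul_mod_self_left]
    have e2 : ∀ n, (n + Nat.lcm α β * r) % β = n % β := fun n => by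
      obtain ⟨c, hc⟩ := Nat.dvd_lcm_right α β
      rw [hc, Nat.mul_assoc, Nat.add_mul_mod_self_left]
    have h := hmul (n + Nat.lcm α β * r) (m + Nat.lcm α β * r) (by omega) (by omega)
    rw [cy_comm α (n + Nat.lcm α β * r) (m + Nat.lcm α β * r - r),
      cy_comm β (n + Nat.lcm α β * r) (m + Nat.lcm α β * r - r),
      cy_sub α r _ _ hα hr (by omega), cy_sub β r _ _ hβ hr (by omega),
      cy_sub α r _ _ hα hr (by omega), cy_sub β r _ _ hβ hr (by omega),
      cy_eq _ _ _ hα, cy_eq _ _ _ hβ, e1, e1, e2, e2, per_mul ω _ hper, per_mul ω _ hper,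
      ← hx, ← hy] at h
    have e3 : ω (n + Nat.lcm α β * r + (m + Nat.lcm α β * r)) = ω (n + m) := by
      rw [show n + Nat.lcm α β * r + (m + Nat.lcm α β * r) = n + m + Nat.lcm α β * (r + r) by ring]
      exact per_mul ω _ hper _ _
    rw [e3] at h
    exact h
  have hx0 : 0 < x := by omega
  have hy0 : 0 < y := by omega
  -- the classes
  obtain ⟨k1, k1', hk1, hk1', hbz1⟩ := bezout α β g hg hα hβ
  obtain ⟨l1, l1', hl1, hl1', hbz2⟩ := bezout β α g (by rw [hg, Nat.gcd_comm]) hβ hα
  obtain ⟨e, he⟩ : ∃ e, e = β * k1 := ⟨_, rfl⟩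
  obtain ⟨f, hf⟩ : ∃ f, f = α * l1 := ⟨_, rfl⟩
  have gp : ∀ k, k < p → g * k + g ≤ α := fun k hk => by
    have h := Nat.mul_le_mul_left g (show k + 1 ≤ p by omega)
    rw [Nat.mul_add] at h
    omega
  have gq : ∀ l, l < q → g * l + g ≤ β := fun l hl => by
    have h := Nat.mul_le_mul_left g (show l + 1 ≤ q by omega)
    rw [Nat.mul_add] at h
    omega
  have clα : ∀ k l c, k < p → c < g → (k * e + l * f + c) % α = g * k + c := by
    intro k l c hk hc
    have := gp k hk
    rw [he, hbz1, hf, show k * (α * k1' + g) + l * (α * l1) + c =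
      (g * k + c) + α * (k * k1' + l * l1) by ring, Nat.add_mul_mod_self_left,
      Nat.mod_eq_of_lt (by omega)]
  have clβ : ∀ k l c, l < q → c < g → (k * e + l * f + c) % β = g * l + c := by
    intro k l c hl hc
    have := gq l hl
    rw [hf, hbz2, he, show k * (β * k1) + l * (β * l1' + g) + c =
      (g * l + c) + β * (l * l1' + k * k1) by ring, Nat.add_mul_mod_self_left,
      Nat.mod_eq_of_lt (by omega)]
  have eα : ∀ k, k < p → (k * e) % α = g * k := fun k hk => by
    have h := clα k 0 0 hk hg0
    simpa using h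
  have eβ : ∀ k, (k * e) % β = 0 := fun k => by
    have h := clβ k 0 0 (by omega) hg0
    simpa using h
  have fβ : ∀ l, l < q → (l * f) % β = g * l := fun l hl => by
    have h := clβ 0 l 0 hl hg0
    simpa using h
  have fα : ∀ l, (l * f) % α = 0 := fun l => by
    have h := clα 0 l 0 (by omega) hg0
    simpa using h
  have hω0 : ω 0 = 0 := h0 0 hr
  -- one variable
  obtain ⟨hAle, hAgt⟩ := onevar u hunit g x p hp2 (fun k => ω (k * e)) (by simpa using hω0)
    (by
      intro k hk hk0
      show ω ((k + 1) * e) = _ • ω (k * e) + _ • ω (1 * e)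
      have h := hK (k * e) (1 * e)
      have h1 := gp (k + 1) hk
      have h2 : g * (k + 1) = g * k + g := by ring
      rw [eα k (by omega), eα 1 (by omega), eβ, eβ, W_lt (by omega), W_lt (by omega),
        R_lt (by omega), R_lt (by omega), R_lt (by omega), Nat.mul_one,
        if_neg (show ¬ (0 < y ∧ y ≤ 0 + 0) by omega)] at h
      simp only [pow_zero, mul_one, one_smul] at h
      rw [show k * e + 1 * e = (k + 1) * e by ring] at h
      rw [h, h2, Nat.add_comm g (g * k)])
    (by
      show (0 : H) = _ • ω ((p - 1) * e) + _ • ω (1 * e)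
      have h := hK ((p - 1) * e) (1 * e)
      have h1 : g * (p - 1) + g = α := by
        rw [hp, Nat.mul_sub, Nat.mul_one]
        have := Nat.le_mul_of_pos_right g (show 0 < p by omega)
        omega
      have h3 : ω ((p - 1) * e + 1 * e) = 0 := by
        rw [← hω0]
        apply hcl
        · rw [show (p - 1) * e + 1 * e = p * e by
            rw [← Nat.add_mul]; congr 1; omega]
          rw [he, hbz1, show p * (α * k1' + g) = α * (p * k1') + g * p by ring, ← hp,
            Nat.mul_add_mod, Nat.mod_self, Nat.zero_mod]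
        · rw [Nat.add_mod, eβ, eβ]
      rw [h3, smul_zero, eα (p - 1) (by omega), eα 1 (by omega), eβ, eβ,
        R_eq hx0 hxα (by omega), R_eq hx0 hxα (by omega),
        R_lt (by omega), Nat.mul_one, if_neg (show ¬ (0 < y ∧ y ≤ 0 + 0) by omega)] at h
      simpa only [pow_zero, mul_one] using h)
  obtain ⟨hBle, hBgt⟩ := onevar v hunit g y q hq2 (fun k => ω (k * f)) (by simpa using hω0)
    (by
      intro k hk hk0
      show ω ((k + 1) * f) = _ • ω (k * f) + _ • ω (1 * f)
      have h := hK (k * f) (1 * f)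
      have h1 := gq (k + 1) hk
      have h2 : g * (k + 1) = g * k + g := by ring
      rw [fβ k (by omega), fβ 1 (by omega), fα, fα, W_lt (by omega), W_lt (by omega),
        R_lt (by omega), R_lt (by omega), R_lt (by omega), Nat.mul_one,
        if_neg (show ¬ (0 < x ∧ x ≤ 0 + 0) by omega)] at h
      simp only [pow_zero, one_mul, one_smul] at h
      rw [show k * f + f = (k + 1) * f by ring] at h
      rw [h, h2, Nat.add_comm g (g * k), Nat.one_mul])
    (by
      show (0 : H) = _ • ω ((q - 1) * f) + _ • ω (1 * f)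
      have h := hK ((q - 1) * f) (1 * f)
      have h1 : g * (q - 1) + g = β := by
        rw [hq, Nat.mul_sub, Nat.mul_one]
        have := Nat.le_mul_of_pos_right g (show 0 < q by omega)
        omega
      have h3 : ω ((q - 1) * f + 1 * f) = 0 := by
        rw [← hω0]
        apply hcl
        · rw [Nat.add_mod, fα, fα]
        · rw [show (q - 1) * f + 1 * f = q * f by
            rw [← Nat.add_mul]; congr 1; omega]
          rw [hf, hbz2, show q * (β * l1' + g) = β * (q * l1') + g * q by ring, ← hq,
            Nat.mul_add_mod, Nat.mod_self, Nat.zero_mod]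
      rw [h3, smul_zero, fβ (q - 1) (by omega), fβ 1 (by omega), fα, fα,
        R_eq hy0 hyβ (by omega), R_eq hy0 hyβ (by omega),
        R_lt (by omega), Nat.mul_one, if_neg (show ¬ (0 < x ∧ x ≤ 0 + 0) by omega)] at h
      simpa only [pow_zero, one_mul] using h)
  -- two variables
  have hC : ∀ k l, k < p → l < q → ω (k * e + l * f) =
      v ^ (if y ≤ g * l then 1 else 0) • ω (k * e) +
      u ^ (if x ≤ g * k then 1 else 0) • ω (l * f) := by
    intro k l hk hl
    have h := hK (k * e) (l * f)
    have h1 := gp k hk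
    have h2 := gq l hl
    rw [eα k hk, eβ, fα, fβ l hl, W_lt (by omega), W_lt (by omega),
      R_zero_right hx0 (by omega), R_zero_right hy0 (by omega), R_zero_left hx0,
      R_zero_left hy0] at h
    simpa only [pow_zero, mul_one, one_mul, one_smul] using h
  have hD : ∀ k l c, k < p → l < q → c < g → ω (k * e + l * f + c) =
      (u ^ (if g * k < x ∧ x ≤ g * k + c then 1 else 0) *
        v ^ (if g * l < y ∧ y ≤ g * l + c then 1 else 0)) • ω (k * e + l * f) := by
    intro k l c hk hl hc
    have h := hK (k * e + l * f) c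
    have h1 := gp k hk
    have h2 := gq l hl
    have h3 := clα k l 0 hk hg0
    have h4 := clβ k l 0 hl hg0
    rw [Nat.add_zero, Nat.add_zero] at h3 h4
    rw [h3, h4, Nat.mod_eq_of_lt (show c < α by omega), Nat.mod_eq_of_lt (show c < β by omega),
      W_lt (by omega), W_lt (by omega), R_lt (by omega), R_lt (by omega),
      hsmall c (by omega) (by omega), smul_zero, add_zero] at h
    simpa only [pow_zero, mul_one, one_smul] using h
  have hb : (0 : H) = v ^ (if y ≤ g then 1 else 0) • ω (1 * e) +
      u ^ (if x ≤ g then 1 else 0) • ω (1 * f) := by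
    have h := hC 1 1 (by omega) (by omega)
    rw [Nat.mul_one] at h
    rw [← h, ← hsmall g hgα hgβ]
    symm
    have h3 := clα 1 1 0 (by omega) hg0
    have h4 := clβ 1 1 0 (by omega) hg0
    rw [Nat.add_zero, Nat.add_zero] at h3 h4
    apply hcl
    · rw [h3, Nat.mul_one, Nat.mod_eq_of_lt hgα]
    · rw [h4, Nat.mul_one, Nat.mod_eq_of_lt hgβ]
  -- the value at every class
  have hF : ∃ a : H, u • a = 0 ∧ v • a = 0 ∧ (x ≤ g → y ≤ g → a = 0) ∧
      ∀ k l, k < p → l < q → ω (k * e + l * f) =
        if g * k < x ∧ g * l < y then ((k : A) - (l : A)) • a else 0 := by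
    have small : ∀ k, g * k < g → k = 0 := fun k hk => by
      by_contra h
      have := Nat.le_mul_of_pos_right g (show 0 < k by omega)
      omega
    rcases le_or_gt x g with hxg | hxg <;> rcases le_or_gt y g with hyg | hyg
    · refine ⟨0, smul_zero _, smul_zero _, fun _ _ => rfl, fun k l hk hl => ?_⟩
      rw [hC k l hk hl, hAle hxg k hk, hBle hyg l hl]
      simp
    · obtain ⟨hv, hB⟩ := hBgt hyg
      rw [hAle hxg 1 (by omega), if_pos hxg, smul_zero, zero_add, pow_one] at hb
      refine ⟨-ω (1 * f), by rw [smul_neg, ← hb, neg_zero], by rw [smul_neg, hv, neg_zero],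
        fun _ h => by omega, fun k l hk hl => ?_⟩
      rw [hC k l hk hl, hAle hxg k hk, hB l hl, smul_zero, zero_add]
      by_cases c1 : g * k < x
      · have hk0 : k = 0 := small k (by omega)
        subst hk0
        rw [if_neg (show ¬ x ≤ g * 0 by omega), pow_zero, one_smul]
        by_cases c2 : g * l < y
        · rw [if_pos c2, if_pos (show g * 0 < x ∧ g * l < y from ⟨c1, c2⟩), Nat.cast_zero,
            zero_sub, smul_neg, neg_smul, neg_neg]
        · rw [if_neg c2, if_neg (show ¬ (g * 0 < x ∧ g * l < y) by omega)]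
      · rw [if_pos (show x ≤ g * k by omega), if_neg (show ¬ (g * k < x ∧ g * l < y) by omega), pow_one]
        by_cases c2 : g * l < y
        · rw [if_pos c2, smul_comm, ← hb, smul_zero]
        · rw [if_neg c2, smul_zero]
    · obtain ⟨hu, hA⟩ := hAgt hxg
      rw [hBle hyg 1 (by omega), if_pos hyg, smul_zero, add_zero, pow_one] at hb
      refine ⟨ω (1 * e), hu, hb.symm, fun h _ => by omega, fun k l hk hl => ?_⟩
      rw [hC k l hk hl, hBle hyg l hl, hA k hk, smul_zero, add_zero]
      by_cases c1 : g * l < y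
      · have hl0 : l = 0 := small l (by omega)
        subst hl0
        rw [if_neg (show ¬ y ≤ g * 0 by omega), pow_zero, one_smul]
        by_cases c2 : g * k < x
        · rw [if_pos c2, if_pos (show g * k < x ∧ g * 0 < y from ⟨c2, c1⟩), Nat.cast_zero,
            sub_zero]
        · rw [if_neg c2, if_neg (show ¬ (g * k < x ∧ g * 0 < y) by omega)]
      · rw [if_pos (show y ≤ g * l by omega), if_neg (show ¬ (g * k < x ∧ g * l < y) by omega), pow_one]
        by_cases c2 : g * k < x
        · rw [if_pos c2, smul_comm, ← hb, smul_zero]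
        · rw [if_neg c2, smul_zero]
    · obtain ⟨hu, hA⟩ := hAgt hxg
      obtain ⟨hv, hB⟩ := hBgt hyg
      rw [if_neg (show ¬ x ≤ g by omega), if_neg (show ¬ y ≤ g by omega), pow_zero, pow_zero,
        one_smul, one_smul] at hb
      have hba : ω (1 * f) = -ω (1 * e) := by
        rw [eq_neg_iff_add_eq_zero, add_comm]
        exact hb.symm
      have hva : v • ω (1 * e) = 0 := by
        rw [hba, smul_neg, neg_eq_zero] at hv
        exact hv
      refine ⟨ω (1 * e), hu, hva, fun h _ => by omega, fun k l hk hl => ?_⟩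
      rw [hC k l hk hl, hA k hk, hB l hl, hba]
      by_cases c1 : g * k < x
      · rw [if_pos c1, if_neg (show ¬ x ≤ g * k by omega), pow_zero, one_smul]
        by_cases c2 : g * l < y
        · rw [if_pos c2, if_pos (show g * k < x ∧ g * l < y from ⟨c1, c2⟩), if_neg (show ¬ y ≤ g * l by omega), pow_zero, one_smul,
            sub_smul, smul_neg, sub_eq_add_neg]
        · rw [if_neg c2, if_neg (show ¬ (g * k < x ∧ g * l < y) by omega), if_pos (show y ≤ g * l by omega), pow_one,
            smul_comm, hva, smul_zero, add_zero]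
      · rw [if_neg c1, if_neg (show ¬ (g * k < x ∧ g * l < y) by omega), if_pos (show x ≤ g * k by omega), pow_one,
          smul_zero, zero_add]
        by_cases c2 : g * l < y
        · rw [if_pos c2, smul_neg, smul_neg, smul_comm, hu, smul_zero, neg_zero]
        · rw [if_neg c2, smul_zero]
  obtain ⟨a, hua, hva, hale, hF⟩ := hF
  have hG : ∀ k l c, k < p → l < q → c < g → ω (k * e + l * f + c) =
      if g * k + c < x ∧ g * l + c < y then ((k : A) - (l : A)) • a else 0 := by
    intro k l c hk hl hc
    rw [hD k l c hk hl hc, hF k l hk hl]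
    by_cases c0 : g * k < x ∧ g * l < y
    · rw [if_pos c0]
      by_cases c1 : g * k + c < x
      · rw [if_neg (show ¬ (g * k < x ∧ x ≤ g * k + c) by omega), pow_zero, one_mul]
        by_cases c2 : g * l + c < y
        · rw [if_neg (show ¬ (g * l < y ∧ y ≤ g * l + c) by omega), pow_zero, one_smul,
            if_pos (show g * k + c < x ∧ g * l + c < y from ⟨c1, c2⟩)]
        · rw [if_pos (show (g * l < y ∧ y ≤ g * l + c) by omega), pow_one,
            if_neg (show ¬ (g * k + c < x ∧ g * l + c < y) by omega), smul_comm, hva, smul_zero]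
      · rw [if_pos (show (g * k < x ∧ x ≤ g * k + c) by omega), pow_one,
          if_neg (show ¬ (g * k + c < x ∧ g * l + c < y) by omega), mul_comm, mul_smul, smul_comm u, hua, smul_zero, smul_zero]
    · rw [if_neg c0, smul_zero, if_neg (by omega)]
  have hH : ∀ n, ω n = if n % α < x ∧ n % β < y then
      (((n % α / g : ℕ) : A) - ((n % β / g : ℕ) : A)) • a else 0 := by
    intro n
    have c1 : n % α < α := Nat.mod_lt _ hα
    have c2 : n % β < β := Nat.mod_lt _ hβ
    have c3 : n % g < g := Nat.mod_lt _ hg0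
    have d1 : n % α % g = n % g := Nat.mod_mod_of_dvd n ⟨p, hp⟩
    have d2 : n % β % g = n % g := Nat.mod_mod_of_dvd n ⟨q, hq⟩
    have e1 : g * (n % α / g) + n % g = n % α := by rw [← d1]; exact Nat.div_add_mod _ _
    have e2 : g * (n % β / g) + n % g = n % β := by rw [← d2]; exact Nat.div_add_mod _ _
    have b1 : n % α / g < p := Nat.div_lt_of_lt_mul (by rw [← hp]; exact c1)
    have b2 : n % β / g < q := Nat.div_lt_of_lt_mul (by rw [← hq]; exact c2)
    have h := hG _ _ _ b1 b2 c3
    rw [e1, e2] at h
    rw [← h]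
    apply hcl
    · rw [clα _ _ _ b1 c3, e1]
    · rw [clβ _ _ _ b2 c3, e2]
  -- the multiple vanishes
  have hr1 : r - 1 = α * ((r - 1) / α) + (r - 1) % α := (Nat.div_add_mod _ _).symm
  have hr2 : r - 1 = β * ((r - 1) / β) + (r - 1) % β := (Nat.div_add_mod _ _).symm
  have hrα : r = α * ((r - 1) / α) + x := by omega
  have hrβ : r = β * ((r - 1) / β) + y := by omega
  have hdvd : ∀ s t : ℕ, r = α * s + x → r = β * t + y → ∃ c : ℤ, (x : ℤ) - y = g * c := by
    intro s t h1 h2
    refine ⟨q * t - p * s, ?_⟩
    have h1' : (r : ℤ) = g * p * s + x := by rw [h1, hp]; push_cast; ring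
    have h2' : (r : ℤ) = g * q * t + y := by rw [h2, hq]; push_cast; ring
    linarith
  obtain ⟨c, hc⟩ := hdvd _ _ hrα hrβ
  have hg0' : (0 : ℤ) < g := by exact_mod_cast hg0
  have ha : a = 0 ∨ ω n = 0 := by
    rcases Nat.lt_trichotomy x y with hxy | hxy | hxy
    · left
      have h := hH (r - x)
      have m1 : (r - x) % α = 0 := by
        rw [show r - x = α * ((r - 1) / α) by omega]
        exact Nat.mul_mod_right _ _
      have m2 : (r - x) % β = y - x := by
        rw [show r - x = (y - x) + β * ((r - 1) / β) by omega, Nat.add_mul_mod_self_left]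
        exact Nat.mod_eq_of_lt (by omega)
      rw [h0 (r - x) (by omega), m1, m2, if_pos (by omega)] at h
      have hd : (y - x) / g ≠ 0 := by
        have : g ≤ y - x := by
          have hc' : c < 0 := by
            by_contra hcn
            push Not at hcn
            have := mul_nonneg hg0'.le hcn
            omega
          have : (g : ℤ) * c ≤ g * (-1) := mul_le_mul_of_nonneg_left (by omega) hg0'.le
          omega
        have := Nat.div_pos this hg0
        omega
      rw [Nat.zero_div, Nat.cast_zero, zero_sub, neg_smul] at h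
      exact (hunit _ hd).smul_eq_zero.mp (neg_eq_zero.mp h.symm)
    · right
      have hL1 : ∀ s : ℕ, r = α * s + x → ∀ t : ℕ, r = β * t + y → Nat.lcm α β ∣ r - x := by
        intro s h1 t h2
        exact Nat.lcm_dvd ⟨s, by omega⟩ ⟨t, by omega⟩
      obtain ⟨z, hz⟩ := hL1 _ hrα _ hrβ
      rcases Nat.eq_zero_or_pos z with hz0 | hz0
      · subst hz0
        have hrx : r = x := by
          have : x ≤ r := by omega
          omega
        rcases le_or_gt x g with hxg | hxg
        · rw [hH n, hale hxg (by omega), smul_zero, ite_self]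
        · have h1 := hseed (by omega) (by omega) k1 k1' hk1 hk1' hbz1
          have h2 := hH (β * k1)
          rw [h1, Nat.mul_mod_right, hbz1, Nat.mul_add_mod, Nat.mod_eq_of_lt hgα,
            if_pos (by omega), Nat.div_self hg0, Nat.zero_div, Nat.cast_one, Nat.cast_zero,
            sub_zero, one_smul] at h2
          rw [hH n, ← h2, smul_zero, ite_self]
      · have hLr : Nat.lcm α β ≤ r - x := by
          rw [hz]
          exact Nat.le_mul_of_pos_right _ hz0
        have h1 : ω n = ω (n % Nat.lcm α β) := by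
          apply hcl
          · exact (Nat.mod_mod_of_dvd n (Nat.dvd_lcm_left α β)).symm
          · exact (Nat.mod_mod_of_dvd n (Nat.dvd_lcm_right α β)).symm
        rw [h1]
        apply h0
        have := Nat.mod_lt n hL
        omega
    · left
      have h := hH (r - y)
      have m1 : (r - y) % β = 0 := by
        rw [show r - y = β * ((r - 1) / β) by omega]
        exact Nat.mul_mod_right _ _
      have m2 : (r - y) % α = x - y := by
        rw [show r - y = (x - y) + α * ((r - 1) / α) by omega, Nat.add_mul_mod_self_left]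
        exact Nat.mod_eq_of_lt (by omega)
      rw [h0 (r - y) (by omega), m1, m2, if_pos (by omega)] at h
      have hd : (x - y) / g ≠ 0 := by
        have : g ≤ x - y := by
          have hc' : 0 < c := by
            by_contra hcn
            push Not at hcn
            have := mul_nonpos_of_nonneg_of_nonpos hg0'.le hcn
            omega
          have : (g : ℤ) * 1 ≤ g * c := mul_le_mul_of_nonneg_left (by omega) hg0'.le
          omega
        have := Nat.div_pos this hg0
        omega
      rw [Nat.zero_div, Nat.cast_zero, sub_zero] at h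
      exact (hunit _ hd).smul_eq_zero.mp h.symm
  rcases ha with ha | ha
  · rw [hH n, ha, smul_zero, ite_self]
  · exact ha

end Pool.Agent.LNDT
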