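import Mathlib
import Pool.Agent.LNDT.LpA
import Pool.Agent.LNDT.LpB
import Pool.Agent.LNDT.LpC

set_option autoImplicit false

open Polynomial

namespace Pool.Agent.LNDT

variable {A K : Type} [CommRing A] [IsDomain A] [Field K] [Algebra A K]
  {S : Subalgebra A K[X]} {u v : A} {α β : ℕ}

theorem adapted_mul {a b : ℕ} (ha : Adapted S u v α β a) (hb : Adapted S u v α β b)
    (hw : wt u v α β (a + b) = wt u v α β a * wt u v α β b) : Adapted S u v α β (a + b) := by
  obtain ⟨x, hx, dx, lx⟩ := ha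
  obtain ⟨y, hy, dy, ly⟩ := hb
  refine ⟨x * y, S.mul_mem hx hy, natDegree_mul_le_of_le dx dy, ?_⟩
  rw [coeff_mul_add_eq_of_natDegree_le dx dy, hw, map_mul]
  linear_combination algebraMap A K (wt u v α β b) * y.coeff b * lx + ly

theorem adapted_small (h : LPData S u v α β) {n : ℕ} (h1 : n < α) (h2 : n < β) :
    Adapted S u v α β n := by
  refine ⟨X ^ n, S.pow_mem h.X_mem n, natDegree_X_pow_le n, ?_⟩
  rw [coeff_X_pow, if_pos rfl]
  unfold wt
  rw [Nat.div_eq_of_lt h1, Nat.div_eq_of_lt h2, pow_zero, pow_zero]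
  simp

omit [IsDomain A] in
/-- leading coefficients from monic polynomials over `A` -/
theorem lead_of_monic (hinj : Function.Injective (algebraMap A K)) {w : A} (hw : w ≠ 0)
    {F : K[X]} {f : A[X]} (mf : f.Monic) {b : ℕ} (df : f.natDegree = b)
    (eF : w • F = f.map (algebraMap A K)) :
    F.natDegree ≤ b ∧ algebraMap A K w * F.coeff b = 1 := by
  have hw' : algebraMap A K w ≠ 0 := fun h0 => hw (hinj (by rw [h0, map_zero]))
  have hc : ∀ t, algebraMap A K w * F.coeff t = algebraMap A K (f.coeff t) := by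
    intro t
    rw [← coeff_map, ← eF, cs]
  constructor
  · rw [natDegree_le_iff_coeff_eq_zero]
    intro t ht
    have h1 := hc t
    rw [coeff_eq_zero_of_natDegree_lt (show f.natDegree < t by omega), map_zero] at h1
    exact (mul_eq_zero.1 h1).resolve_left hw'
  · rw [hc, ← df, mf.coeff_natDegree, map_one]

/-- the induction step: if all degrees have pairs of precision `r`, then of precision `r + 1` -/
theorem lp_step (h : LPData S u v α β) {F Φ : K[X]} (hF : F ∈ S) (hΦ : Φ ∈ S)
    {f φ : A[X]} (mf : f.Monic) (mφ : φ.Monic) (df : f.natDegree = β)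
    (dφ : φ.natDegree = α) (eF : v • F = f.map (algebraMap A K))
    (eΦ : u • Φ = φ.map (algebraMap A K)) {g : ℕ} (hg : g = Nat.gcd α β) (hgα : g < α)
    (hgβ : g < β) (hℓ : Adapted S u v α β (Nat.lcm α β))
    (hS : ∀ k k' : ℕ, 0 < k → 0 < k' → β * k = α * k' + g → ∃ ĝ S1 S2 : A[X], ĝ.Monic ∧
      ĝ.natDegree = g ∧ f ^ k = ĝ * φ ^ k' + C u * S1 + C v * S2 ∧ S1.natDegree < β * k ∧
      S2.natDegree < β * k) {r : ℕ} (hr0 : 0 < r) (hL : ∀ n, HasPair S u v α β n r) (n : ℕ) :
    HasPair S u v α β n (r + 1) := by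
  rcases lt_or_ge n r with hn | hn
  · exact pair_big hn (hL n) _
  have hex : ∀ n, ∃ q : K, (r ≤ n → Obs S u v α β n r q) ∧ (n < r → q = 0) := by
    intro n
    rcases lt_or_ge n r with hn | hn
    · exact ⟨0, fun h1 => absurd h1 (by omega), fun _ => rfl⟩
    · obtain ⟨q, hq⟩ := obs_exists h hn (hL n)
      exact ⟨q, fun _ => hq, fun h1 => absurd h1 (by omega)⟩
  choose q hq hq0 using hex
  have hdα : α ∣ Nat.lcm α β := Nat.dvd_lcm_left α β
  have hdβ : β ∣ Nat.lcm α β := Nat.dvd_lcm_right α β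
  have hadp : ∀ m, Adapted S u v α β m → q m ∈ Nu (K := K) u v := by
    intro m hm
    rcases lt_or_ge m r with h1 | h1
    · rw [hq0 m h1]
      exact (Nu (K := K) u v).zero_mem
    · exact obs_adapted h hr0 hL hm (hq m h1)
  have hω : ∀ m, (Submodule.Quotient.mk (q m) : K ⧸ Nu (K := K) u v) = 0 ↔
      q m ∈ Nu (K := K) u v := fun m => Submodule.Quotient.mk_eq_zero _
  have hcomb := comb (H := K ⧸ Nu (K := K) u v) u v h.unit α β g r hg hgα hgβ hr0
    (fun m => Submodule.Quotient.mk (q m))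
    (fun m hm => by
      show (Submodule.Quotient.mk (q m) : K ⧸ Nu (K := K) u v) = 0
      rw [hq0 m hm, Submodule.Quotient.mk_zero])
    (fun m => by
      show (Submodule.Quotient.mk (q (m + Nat.lcm α β)) : K ⧸ Nu (K := K) u v) =
        Submodule.Quotient.mk (q m)
      rw [Submodule.Quotient.eq]
      rcases lt_or_ge m r with h1 | h1
      · rw [hq0 m h1, sub_zero]
        refine hadp _ ?_
        have hm : Adapted S u v α β m := adapted_of_pair h (pair_big h1 (hL m) _)
        exact adapted_mul hm hℓ (wt_add_of_dvd u v m hdα hdβ)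
      · exact obs_unique h hr0 hL (hq _ (by omega)) (obs_shift h hdα hdβ hℓ (hq m h1)))
    (fun m h1 h2 => (hω m).2 (hadp m (adapted_small h h1 h2)))
    (fun n m hn hm => by
      show (u ^ cy α n m * v ^ cy β n m) •
          (Submodule.Quotient.mk (q (n + m)) : K ⧸ Nu (K := K) u v) =
        (u ^ cy α (n - r) m * v ^ cy β (n - r) m) • Submodule.Quotient.mk (q n) +
        (u ^ cy α n (m - r) * v ^ cy β n (m - r)) • Submodule.Quotient.mk (q m)
      rw [← Submodule.Quotient.mk_smul, ← Submodule.Quotient.mk_smul,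
        ← Submodule.Quotient.mk_smul, ← Submodule.Quotient.mk_add, Submodule.Quotient.eq]
      have h1 := obs_mul h hr0 hL (hq n hn) (hq m hm) (hq (n + m) (by omega))
      rwa [sub_sub] at h1)
    (fun hrα hrβ k k' hk hk' hkk => by
      show (Submodule.Quotient.mk (q (β * k)) : K ⧸ Nu (K := K) u v) = 0
      rw [hω]
      obtain ⟨ĝ, S1, S2, mg, dg, e, d1, d2⟩ := hS k k' hk hk' hkk
      have hp := pair_seed h hF hΦ mf mφ mg df dφ eF eΦ hk hk' dg hgα hkk e d1 d2 hrα hrβ
      have hb : r ≤ β * k := hrβ.trans (Nat.le_mul_of_pos_right β hk)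
      have h1 := obs_unique h hr0 hL (hq _ hb) (obs_zero_of_pair h hb hp)
      rwa [sub_zero] at h1)
    n
  exact pair_succ h hr0 hL (hq n hn) ((hω n).1 hcomb)

/-- THE LOCAL THEOREM, incompatible case -/
theorem lp_main (h : LPData S u v α β) {F Φ : K[X]} (hF : F ∈ S) (hΦ : Φ ∈ S)
    {f φ : A[X]} (mf : f.Monic) (mφ : φ.Monic) (df : f.natDegree = β)
    (dφ : φ.natDegree = α) (eF : v • F = f.map (algebraMap A K))
    (eΦ : u • Φ = φ.map (algebraMap A K)) {g : ℕ} (hg : g = Nat.gcd α β) (hgα : g < α)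
    (hgβ : g < β) (hℓ : Adapted S u v α β (Nat.lcm α β))
    (hS : ∀ k k' : ℕ, 0 < k → 0 < k' → β * k = α * k' + g → ∃ ĝ S1 S2 : A[X], ĝ.Monic ∧
      ĝ.natDegree = g ∧ f ^ k = ĝ * φ ^ k' + C u * S1 + C v * S2 ∧ S1.natDegree < β * k ∧
      S2.natDegree < β * k) (n : ℕ) :
    Adapted S u v α β n := by
  obtain ⟨dF, lF⟩ := lead_of_monic h.inj h.pv.ne_zero mf df eF
  obtain ⟨dΦ, lΦ⟩ := lead_of_monic h.inj h.pu.ne_zero mφ dφ eΦ
  have hall : ∀ r, 0 < r → ∀ n, HasPair S u v α β n r := by
    intro r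
    induction r with
    | zero => intro h0; omega
    | succ r ih =>
      intro _ n
      rcases Nat.eq_zero_or_pos r with h0 | h0
      · subst h0
        exact pair_one h hF hΦ dF dΦ lF lΦ n
      · exact lp_step h hF hΦ mf mφ df dφ eF eΦ hg hgα hgβ hℓ hS h0 (ih h0) n
  exact adapted_of_pair h (hall (n + 1) (by omega) n)

/-- THE LOCAL THEOREM, compatible case: with adapted elements of degree `α` and `β` (`α ∣ β`) the products
`G ^ j Φ ^ l X ^ i` are adapted -/
theorem lp_dvd (h : LPData S u v α β) (hαβ : α ∣ β) (hα : Adapted S u v α β α)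
    (hβ : Adapted S u v α β β) (n : ℕ) : Adapted S u v α β n := by
  have hle : α ≤ β := Nat.le_of_dvd h.pβ hαβ
  have h0 := h.pα
  induction n using Nat.strong_induction_on with
  | _ n ih =>
    rcases lt_or_ge n β with h1 | h1
    · rcases lt_or_ge n α with h2 | h2
      · exact adapted_small h h2 h1
      · obtain ⟨m, rfl⟩ := Nat.exists_eq_add_of_le' h2
        refine adapted_mul (ih m (by omega)) hα ?_
        unfold wt
        rw [Nat.div_eq_of_lt h1, Nat.div_eq_of_lt (show m < β by omega),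
          Nat.div_eq_of_lt (show α < β by omega), Nat.add_div_right m h0, Nat.div_self h0]
        simp only [pow_succ, pow_zero, one_mul, mul_one]
    · obtain ⟨m, rfl⟩ := Nat.exists_eq_add_of_le' h1
      exact adapted_mul (ih m (by have := h.pβ; omega)) hβ (wt_add_of_dvd u v m hαβ dvd_rfl)

end Pool.Agent.LNDT
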