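import Mathlib
import Pool.Agent.LNDT.Defs

set_option autoImplicit false

open Polynomial

namespace Pool.Agent.LNDT

namespace PolyAux

/-- a polynomial with coefficients in `(u, v)` -/
theorem split_uv {A : Type} [CommRing A] {u v : A} (D : A[X]) {n : ℕ} (hn : 0 < n) (hD : D.natDegree < n)
    (hc : ∀ i, D.coeff i ∈ Ideal.span {u, v}) :
    ∃ S1 S2 : A[X], D = C u * S1 + C v * S2 ∧ S1.natDegree < n ∧ S2.natDegree < n := by
  have h1 : ∀ i, ∃ a b : A, a * u + b * v = D.coeff i := fun i => Ideal.mem_span_pair.1 (hc i)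
  choose a b hab using h1
  have hdeg : ∀ c : ℕ → A, (∑ i ∈ Finset.range n, monomial i (c i)).natDegree < n := by
    intro c
    have h2 : (∑ i ∈ Finset.range n, monomial i (c i)).natDegree ≤ n - 1 := by
      refine natDegree_sum_le_of_forall_le _ _ fun i hi => ?_
      rw [Finset.mem_range] at hi
      exact (natDegree_monomial_le _).trans (by omega)
    omega
  refine ⟨∑ i ∈ Finset.range n, monomial i (a i), ∑ i ∈ Finset.range n, monomial i (b i), ?_, hdeg a, hdeg b⟩
  conv_lhs => rw [D.as_sum_range' n hD]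
  rw [Finset.mul_sum, Finset.mul_sum, ← Finset.sum_add_distrib]
  refine Finset.sum_congr rfl fun i _ => ?_
  rw [C_mul_monomial, C_mul_monomial, ← map_add, ← hab i]
  congr 1
  ring

end PolyAux

/-- `A` local with maximal ideal `(u, v)`. `P` is congruent to a power of `f` modulo `v` and to a power of `φ`
modulo `u`. Modulo the maximal ideal `f ^ (N / β) = P = φ ^ (N / α)`, so `φ ^ k'` divides `f ^ k` there as soon as
`α k' ≤ β k` (compare `N / α`-th powers). Lift the quotient to a monic `ĝ`; the coefficients of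
`f ^ k - ĝ φ ^ k'` (of degree `< β k`) are in `(u, v)`. -/
theorem poly_div {A : Type} [CommRing A] [IsDomain A] [IsLocalRing A] {u v : A}
    (hm : IsLocalRing.maximalIdeal A = Ideal.span {u, v})
    {P f φ : A[X]} (mP : P.Monic) (mf : f.Monic) (mφ : φ.Monic) {α β N g : ℕ}
    (dP : P.natDegree = N) (df : f.natDegree = β) (dφ : φ.natDegree = α) (hα : 0 < α) (hβ : 0 < β)
    (hN : 0 < N) (hβN : β ∣ N) (hαN : α ∣ N) (hf : C v ∣ P - f ^ (N / β))
    (hφ : C u ∣ P - φ ^ (N / α)) {k k' : ℕ} (hkk : β * k = α * k' + g) (hk : 0 < k) :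
    ∃ ĝ S1 S2 : A[X], ĝ.Monic ∧ ĝ.natDegree = g ∧ f ^ k = ĝ * φ ^ k' + C u * S1 + C v * S2 ∧
      S1.natDegree < β * k ∧ S2.natDegree < β * k := by
  obtain ⟨ρ, hρ⟩ : ∃ ρ, ρ = IsLocalRing.residue A := ⟨_, rfl⟩
  have hsurj : Function.Surjective ρ := by
    rw [hρ]
    exact IsLocalRing.residue_surjective
  have hker : ∀ c : A, ρ c = 0 ↔ c ∈ Ideal.span {u, v} := by
    intro c
    rw [hρ, IsLocalRing.residue_eq_zero_iff, hm]
  have hu : ρ u = 0 := (hker u).2 (Ideal.subset_span (by simp))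
  have hv : ρ v = 0 := (hker v).2 (Ideal.subset_span (by simp))
  have e1 : P.map ρ = (f.map ρ) ^ (N / β) := by
    obtain ⟨Q, hQ⟩ := hf
    have := congrArg (Polynomial.map ρ) hQ
    rw [Polynomial.map_sub, Polynomial.map_mul, map_C, hv, C_0, zero_mul, Polynomial.map_pow] at this
    exact sub_eq_zero.1 this
  have e2 : P.map ρ = (φ.map ρ) ^ (N / α) := by
    obtain ⟨Q, hQ⟩ := hφ
    have := congrArg (Polynomial.map ρ) hQ
    rw [Polynomial.map_sub, Polynomial.map_mul, map_C, hu, C_0, zero_mul, Polynomial.map_pow] at this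
    exact sub_eq_zero.1 this
  have mf' : (f.map ρ).Monic := mf.map ρ
  have mφ' : (φ.map ρ).Monic := mφ.map ρ
  have hM : N / α ≠ 0 := (Nat.div_pos (Nat.le_of_dvd hN hαN) hα).ne'
  have hdiv : (φ.map ρ) ^ k' ∣ (f.map ρ) ^ k := by
    have h1 : ((φ.map ρ) ^ k') ^ (N / α) ∣ ((f.map ρ) ^ k) ^ (N / α) := by
      rw [← pow_mul, ← pow_mul, mul_comm k', pow_mul, ← e2, e1, ← pow_mul]
      refine pow_dvd_pow _ ?_
      obtain ⟨a, ha⟩ := hαN
      obtain ⟨b, hb⟩ := hβN
      have h2 : N / α = a := by rw [ha, Nat.mul_div_cancel_left _ hα]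
      have h3 : N / β = b := by rw [hb, Nat.mul_div_cancel_left _ hβ]
      rw [h2, h3]
      have h4 : α * a = β * b := ha.symm.trans hb
      have h5 : α * β * (b * k') ≤ α * β * (k * a) := by
        have h6 : α * k' ≤ β * k := by omega
        calc α * β * (b * k') = (β * b) * (α * k') := by ring
          _ ≤ (β * b) * (β * k) := Nat.mul_le_mul_left _ h6
          _ = (α * a) * (β * k) := by rw [h4]
          _ = α * β * (k * a) := by ring
      exact Nat.le_of_mul_le_mul_left h5 (Nat.mul_pos hα hβ)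
    exact (IsIntegrallyClosed.pow_dvd_pow_iff hM).1 h1
  obtain ⟨q, hq⟩ := hdiv
  have mq : q.Monic := (mφ'.pow k').of_mul_monic_left (by rw [← hq]; exact mf'.pow k)
  have dq : q.natDegree = g := by
    have h1 := congrArg natDegree hq
    rw [(mφ'.pow k').natDegree_mul mq, mf'.natDegree_pow, mφ'.natDegree_pow, mf.natDegree_map, mφ.natDegree_map,
      df, dφ, mul_comm k, mul_comm k'] at h1
    omega
  obtain ⟨G, hG, hGd, hGm⟩ := lifts_and_natDegree_eq_and_monic (f := ρ)
    ((Polynomial.mem_lifts q).2 (Polynomial.map_surjective ρ hsurj q)) mq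
  have dG : G.natDegree = g := hGd.trans dq
  have hpos : 0 < β * k := Nat.mul_pos hβ hk
  have d1 : (f ^ k).natDegree = β * k := by rw [mf.natDegree_pow, df, mul_comm]
  have d2 : (G * φ ^ k').natDegree = β * k := by
    rw [hGm.natDegree_mul (mφ.pow k'), mφ.natDegree_pow, dG, dφ]
    rw [hkk]
    ring
  have hDd : (f ^ k - G * φ ^ k').natDegree < β * k := by
    have h1 : degree (f ^ k - G * φ ^ k') < degree (f ^ k) := by
      refine degree_sub_lt ?_ (mf.pow k).ne_zero ?_
      · rw [degree_eq_natDegree (mf.pow k).ne_zero, degree_eq_natDegree (hGm.mul (mφ.pow k')).ne_zero, d1, d2]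
      · rw [(mf.pow k).leadingCoeff, (hGm.mul (mφ.pow k')).leadingCoeff]
    by_cases h2 : f ^ k - G * φ ^ k' = 0
    · rw [h2, natDegree_zero]
      exact hpos
    · rw [← d1]
      exact natDegree_lt_natDegree h2 h1
  have hDc : ∀ i, (f ^ k - G * φ ^ k').coeff i ∈ Ideal.span {u, v} := by
    intro i
    rw [← hker, ← coeff_map, Polynomial.map_sub, Polynomial.map_mul, Polynomial.map_pow, Polynomial.map_pow, hG, hq,
      mul_comm q, sub_self, coeff_zero]
  obtain ⟨S1, S2, hS, hS1, hS2⟩ := PolyAux.split_uv _ hpos hDd hDc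
  refine ⟨G, S1, S2, hGm, dG, ?_, hS1, hS2⟩
  rw [add_assoc, ← hS]
  ring

end Pool.Agent.LNDT
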