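import Mathlib
import Pool.Agent.LNDT.GDefs
import Pool.Agent.LNDF.ChE1
import Pool.Agent.LNDF.ChE2
import Pool.Agent.LNDF.ChA1
import Pool.Agent.LNDF.Ar3
import Pool.Agent.LNDF.NpB

set_option autoImplicit false

open Polynomial

namespace Pool.Agent.LNDT

open Pool.Agent.LNDHom Pool.Agent.LNDF

section Abstract

private theorem sim_gen {κ R : Type*} [Field κ] [CharZero κ] [CommRing R] [IsDomain R] [Algebra κ R]
    {x : R} {Y P : κ[X]} (hY : Y.Monic) (hYx : aeval x Y = 0)
    (hmin : ∀ T : κ[X], T ≠ 0 → aeval x T = 0 → Y.natDegree ≤ T.natDegree) (hP : P.Monic) {e : ℕ}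
    (hPd : P.natDegree = Y.natDegree * e)
    (hroot : ∀ j < e, aeval x (derivative^[j] P) = 0) : P = Y ^ e := by
  have hR : CharZero R := charZero_of_injective_algebraMap (algebraMap κ R).injective
  have hint : IsIntegral κ x := ⟨Y, hY, by rw [← aeval_def]; exact hYx⟩
  have hYm : Y = minpoly κ x := by
    apply minpoly.unique κ x hY hYx
    intro q hq hqx
    rw [degree_eq_natDegree hY.ne_zero, degree_eq_natDegree hq.ne_zero]
    exact_mod_cast hmin q hq.ne_zero hqx
  have hirr : Irreducible Y := by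
    rw [hYm]
    exact minpoly.irreducible hint
  have hsep : (Y.map (algebraMap κ R)).Separable := hirr.separable.map
  have h1 := rootMultiplicity_le_one_of_separable hsep x
  have hdvd : ∀ j ≤ e, Y ^ j ∣ P := by
    intro j
    induction j with
    | zero => intro _; rw [pow_zero]; exact one_dvd _
    | succ j ih =>
      intro hj
      obtain ⟨Q, hQ⟩ := ih (by omega)
      by_cases hQx : aeval x Q = 0
      · have h2 : Y ∣ Q := by
          rw [hYm]
          exact minpoly.dvd κ x hQx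
        obtain ⟨Q', hQ'⟩ := h2
        exact ⟨Q', by rw [hQ, hQ']; ring⟩
      · exfalso
        have hne : P.map (algebraMap κ R) ≠ 0 := (hP.map _).ne_zero
        have h2 : e - 1 < (P.map (algebraMap κ R)).rootMultiplicity x := by
          apply lt_rootMultiplicity_of_isRoot_iterate_derivative_of_mem_nonZeroDivisors' hne
          · intro m hm
            rw [IsRoot.def, iterate_derivative_map, eval_map, ← aeval_def]
            exact hroot m (by omega)
          · intro m _ hm
            exact mem_nonZeroDivisors_of_ne_zero (by exact_mod_cast hm)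
        have h3 : P.map (algebraMap κ R) =
            (Y.map (algebraMap κ R)) ^ j * Q.map (algebraMap κ R) := by
          rw [hQ, Polynomial.map_mul, Polynomial.map_pow]
        have h4 : (Q.map (algebraMap κ R)).rootMultiplicity x = 0 := by
          apply rootMultiplicity_eq_zero
          rw [IsRoot.def, eval_map, ← aeval_def]
          exact hQx
        have h5 : ∀ i, ((Y.map (algebraMap κ R)) ^ i).rootMultiplicity x =
            i * (Y.map (algebraMap κ R)).rootMultiplicity x := by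
          intro i
          induction i with
          | zero => simp
          | succ i ihi =>
            rw [pow_succ, rootMultiplicity_mul (mul_ne_zero (pow_ne_zero _ (hY.map _).ne_zero)
              (hY.map _).ne_zero), ihi]
            ring
        rw [h3, rootMultiplicity_mul (by rw [← h3]; exact hne), h4, h5, add_zero] at h2
        have h6 : j * (Y.map (algebraMap κ R)).rootMultiplicity x ≤ j * 1 :=
          Nat.mul_le_mul_left j h1
        omega
  have h7 := hdvd e le_rfl
  symm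
  apply eq_of_dvd_of_natDegree_le_of_leadingCoeff h7
  · rw [hPd, hY.natDegree_pow, mul_comm]
  · rw [(hY.pow e).leadingCoeff, hP.leadingCoeff]

end Abstract

section Local

open Pool.Agent.LNDHom.LocData

variable {V Λ : Type*} [CommRing V] [IsDomain V] [CommRing Λ] [IsDomain Λ] [Algebra V Λ]
  {D : Derivation V Λ Λ} {p : V}

/-- at a simple prime the exponents below `n_p` are `e n = n` -/
private theorem sim_e_low (h : LocData V Λ D p) (h1 : h.e 1 = 1) :
    ∀ n, n < np h → h.e n = n := by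
  intro n
  induction n with
  | zero => intro _; exact e_zero h
  | succ n ih =>
    intro hn
    have hle := ChE2.e_le_mul h (n + 1)
    rw [h1, mul_one] at hle
    have ihn := ih (by omega)
    obtain ⟨y, hy⟩ := np_min h hn
    have hp0 : algebraMap V Λ p ≠ 0 := h.prime.ne_zero
    -- `D^n (D q) = p^e`
    have e1 : (⇑D)^[n] (D (h.q (n + 1))) = algebraMap V Λ (p ^ h.e (n + 1)) := by
      rw [← Function.iterate_succ_apply]
      exact h.iter_q (n + 1)
    have e2 : (⇑D)^[n + 1] (D (h.q (n + 1))) = 0 := by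
      rw [← Function.iterate_succ_apply]
      exact h.iter_succ_q (n + 1)
    rw [hy, ← Algebra.smul_def, smul_iter, Algebra.smul_def] at e1 e2
    have e3 : D ((⇑D)^[n] y) = 0 := by
      rw [← Function.iterate_succ_apply' (⇑D) n y]
      exact (mul_eq_zero.1 e2).resolve_left hp0
    obtain ⟨v, hv⟩ := h.ker _ e3
    rw [← hv, ← map_mul] at e1
    have e4 : p * v = p ^ h.e (n + 1) := h.inj e1
    have e5 := h.e_dvd n y v hv.symm
    rw [ihn] at e5
    have e6 : p ^ (n + 1) ∣ p ^ h.e (n + 1) := by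
      rw [← e4, pow_succ, mul_comm]
      exact mul_dvd_mul_left p e5
    have e7 := (pow_dvd_pow_iff h.ne h.nu).mp e6
    omega

private theorem sim_e (h : LocData V Λ D p) (h1 : h.e 1 = 1) (n : ℕ) :
    h.e n = n - n / np h := by
  have hn := np_pos h
  have e1 : n = n / np h * np h + n % np h := by
    rw [mul_comm]
    exact (Nat.div_add_mod n (np h)).symm
  have e2 := e_np_mul h (n / np h) (n % np h) (Nat.mod_lt _ hn)
  have e3 := e_np h
  have e4 := sim_e_low h h1 (np h - 1) (by omega)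
  have e5 := sim_e_low h h1 (n % np h) (Nat.mod_lt _ hn)
  rw [← e1, ← e3, e4, e5] at e2
  rw [e2, Nat.mul_sub, mul_one]
  have e6 : n / np h * 1 ≤ n / np h * np h := Nat.mul_le_mul_left _ hn
  omega

/-- derivatives of polynomials in a local slice -/
private theorem sim_iter (D : Derivation V Λ Λ) {ρ : Λ} (hρ : D (D ρ) = 0) (T : V[X]) (j : ℕ) :
    (⇑D)^[j] (aeval ρ T) = (D ρ) ^ j * aeval ρ (derivative^[j] T) := by
  induction j with
  | zero => simp
  | succ j ih =>
    rw [Function.iterate_succ_apply', ih, Derivation.leibniz, Derivation.leibniz_pow, hρ,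
      Derivation.map_aeval, Function.iterate_succ_apply']
    simp only [smul_eq_mul, mul_zero, smul_zero, add_zero]
    ring

/-- a polynomial of degree `< n_p` whose value at `ρ` is divisible by `p` is divisible by `p` -/
private theorem sim_indep (h : LocData V Λ D p) (h1 : h.e 1 = 1) {ρ : Λ} {u : V} (hu : IsUnit u)
    (hρ : D ρ = algebraMap V Λ (p * u)) (T : V[X]) (hT : T.natDegree < np h)
    (hd : algebraMap V Λ p ∣ aeval ρ T) : C p ∣ T := by
  classical
  by_contra hcon
  rw [C_dvd_iff_dvd_coeff] at hcon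
  push Not at hcon
  have hρ2 : D (D ρ) = 0 := by rw [hρ, Derivation.map_algebraMap]
  have hp0 : algebraMap V Λ p ≠ 0 := h.prime.ne_zero
  -- the last coefficient which is not divisible by `p`
  obtain ⟨i0, hi0⟩ := hcon
  have hfin : ∀ i, ¬ p ∣ T.coeff i → i ≤ T.natDegree := by
    intro i hi
    by_contra hlt
    apply hi
    rw [coeff_eq_zero_of_natDegree_lt (by omega)]
    exact dvd_zero _
  obtain ⟨i, hi1, hi2, hi3⟩ : ∃ i, ¬ p ∣ T.coeff i ∧ i ≤ T.natDegree ∧
      ∀ l, i < l → p ∣ T.coeff l := by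
    refine ⟨Nat.findGreatest (fun i => ¬ p ∣ T.coeff i) T.natDegree,
      Nat.findGreatest_spec (P := fun i => ¬ p ∣ T.coeff i) (hfin i0 hi0) hi0,
      Nat.findGreatest_le _, ?_⟩
    intro l hl
    by_contra hc
    exact Nat.findGreatest_is_greatest hl (hfin l hc) hc
  -- the part of degree `≤ i`
  set T' : V[X] := ∑ l ∈ Finset.range (i + 1), monomial l (T.coeff l) with hT'
  have hco : ∀ l, T'.coeff l = if l < i + 1 then T.coeff l else 0 := by
    intro l
    rw [hT', finsetSum_coeff]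
    simp only [coeff_monomial]
    rw [Finset.sum_ite_eq' (Finset.range (i + 1)) l (fun l => T.coeff l)]
    simp only [Finset.mem_range]
  obtain ⟨S, hS⟩ : C p ∣ T - T' := by
    rw [C_dvd_iff_dvd_coeff]
    intro l
    rw [coeff_sub, hco]
    split_ifs with hl
    · rw [sub_self]
      exact dvd_zero _
    · rw [sub_zero]
      exact hi3 l (by omega)
  have hd' : algebraMap V Λ p ∣ aeval ρ T' := by
    have e : aeval ρ T' = aeval ρ T - algebraMap V Λ p * aeval ρ S := by
      have e0 : T' = T - C p * S := by rw [← hS]; ring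
      rw [e0, map_sub, map_mul, aeval_C]
    rw [e]
    exact dvd_sub hd (dvd_mul_right _ _)
  obtain ⟨y, hy⟩ := hd'
  have hder : derivative^[i] T' = C ((i.factorial : V) * T.coeff i) := by
    ext l
    rw [coeff_iterate_derivative, coeff_C, hco]
    rcases Nat.eq_zero_or_pos l with h0 | h0
    · subst h0
      rw [if_pos rfl, zero_add, Nat.descFactorial_self, nsmul_eq_mul, if_pos (by omega)]
    · rw [if_neg (by omega), if_neg (by omega), smul_zero]
  have e1 := sim_iter D hρ2 T' i
  rw [hder, hy, ← Algebra.smul_def, smul_iter, Algebra.smul_def, hρ, aeval_C, ← map_pow,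
    ← map_mul] at e1
  have e2 : D ((⇑D)^[i] y) = 0 := by
    have e3 := congrArg D e1
    rw [← Algebra.smul_def, Derivation.map_smul, Derivation.map_algebraMap, Algebra.smul_def] at e3
    exact (mul_eq_zero.1 e3).resolve_left hp0
  obtain ⟨v, hv⟩ := h.ker _ e2
  rw [← hv, ← map_mul] at e1
  have e4 := h.inj e1
  have e5 := h.e_dvd i y v hv.symm
  rw [sim_e_low h h1 i (by omega)] at e5
  obtain ⟨v', rfl⟩ := e5
  have e6 : p ^ i * (p * v') = p ^ i * (u ^ i * ((i.factorial : V) * T.coeff i)) := by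
    linear_combination e4
  have e7 := mul_left_cancel₀ (pow_ne_zero i h.ne) e6
  apply hi1
  have e8 : p ∣ u ^ i * ((i.factorial : V) * T.coeff i) := ⟨v', e7.symm⟩
  rw [(hu.pow i).dvd_mul_left, (h.unit _ i.factorial_ne_zero).dvd_mul_left] at e8
  exact e8

/-- modulo `p` the polynomial `P` is the power of the minimal polynomial of `ρ` -/
private theorem sim_pow (h : LocData V Λ D p) (h1 : h.e 1 = 1) {ρ : Λ} {u : V} (hu : IsUnit u)
    (hρ : D ρ = algebraMap V Λ (p * u)) {P Y : V[X]} (hP : P.Monic) (hY : Y.Monic)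
    (hYd : Y.natDegree = np h) {e : ℕ} (hPd : P.natDegree = np h * e)
    (hYρ : algebraMap V Λ p ∣ aeval ρ Y) (hPρ : algebraMap V Λ (p ^ e) ∣ aeval ρ P) :
    C p ∣ P - Y ^ e := by
  have hmax := h.isMax
  have hpr := h.isPrime
  have hc := h.kap_charZero
  let _ : Field h.kap := h.kapField
  have _ : IsDomain h.res := Ideal.Quotient.isDomain _
  have hρ2 : D (D ρ) = 0 := by rw [hρ, Derivation.map_algebraMap]
  have hp0 : algebraMap V Λ p ≠ 0 := h.prime.ne_zero
  set mk : V →+* h.kap := Ideal.Quotient.mk (Ideal.span {p}) with hmk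
  set x : h.res := Ideal.Quotient.mk _ ρ with hx
  have hev : ∀ T : V[X], aeval x (T.map mk) = (Ideal.Quotient.mk _ (aeval ρ T) : h.res) := by
    intro T
    rw [aeval_def, aeval_def, eval₂_map, hom_eval₂]
    rfl
  have hz : ∀ b : Λ, (Ideal.Quotient.mk _ b : h.res) = 0 ↔ algebraMap V Λ p ∣ b := by
    intro b
    rw [Ideal.Quotient.eq_zero_iff_mem, mem_map_iff]
  have hCz : ∀ T : V[X], T.map mk = 0 → C p ∣ T := by
    intro T hT
    rw [C_dvd_iff_dvd_coeff]
    intro i
    have e1 : mk (T.coeff i) = 0 := by rw [← coeff_map, hT, coeff_zero]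
    rwa [hmk, Ideal.Quotient.eq_zero_iff_mem, Ideal.mem_span_singleton] at e1
  -- derivatives of `P`
  have hder : ∀ j < e, algebraMap V Λ p ∣ aeval ρ (derivative^[j] P) := by
    intro j hj
    obtain ⟨y, hy⟩ := hPρ
    have e1 := sim_iter D hρ2 P j
    rw [hy, ← Algebra.smul_def, smul_iter, Algebra.smul_def, hρ] at e1
    have e2 : algebraMap V Λ p ^ j * (algebraMap V Λ p ^ (e - j) * (⇑D)^[j] y) =
        algebraMap V Λ p ^ j * (algebraMap V Λ u ^ j * aeval ρ (derivative^[j] P)) := by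
      have e3 : algebraMap V Λ (p ^ e) = algebraMap V Λ p ^ j * algebraMap V Λ p ^ (e - j) := by
        rw [map_pow, ← pow_add]
        congr 1
        omega
      rw [e3, map_mul, mul_pow] at e1
      linear_combination e1
    have e3 := mul_left_cancel₀ (pow_ne_zero j hp0) e2
    have e4 : algebraMap V Λ p ∣ algebraMap V Λ u ^ j * aeval ρ (derivative^[j] P) := by
      rw [← e3]
      exact Dvd.dvd.mul_right (dvd_pow_self _ (by omega)) _
    rwa [((hu.map (algebraMap V Λ)).pow j).dvd_mul_left] at e4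
  have key : P.map mk = (Y.map mk) ^ e := by
    apply sim_gen (x := x) (hY.map mk)
    · rw [hev, hz]
      exact hYρ
    · intro T hT0 hTx
      rw [hY.natDegree_map, hYd]
      by_contra hlt
      push Not at hlt
      obtain ⟨T0, hT0m, hT0d⟩ := exists_natDegree_eq_of_mem_lifts
        (mem_lifts_of_surjective (f := mk) Ideal.Quotient.mk_surjective T)
      have e1 : C p ∣ T0 := by
        apply sim_indep h h1 hu hρ T0 (by rw [hT0d]; exact hlt)
        rw [← hz, ← hev, hT0m]
        exact hTx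
      obtain ⟨S, hS⟩ := e1
      apply hT0
      rw [← hT0m, hS, Polynomial.map_mul, map_C]
      have e2 : mk p = 0 := by
        rw [hmk, Ideal.Quotient.eq_zero_iff_mem, Ideal.mem_span_singleton]
      rw [e2, C_0, zero_mul]
    · exact hP.map mk
    · rw [hP.natDegree_map, hPd, hY.natDegree_map, hYd]
    · intro j hj
      rw [iterate_derivative_map, hev, hz]
      exact hder j hj
  apply hCz
  rw [Polynomial.map_sub, Polynomial.map_pow, key, sub_self]

end Local

variable {k B : Type} [Field k] [CharZero k] [CommRing B] [IsDomain B] [Algebra k B]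
  [UniqueFactorizationMonoid B] {D : Derivation k B B}

/-- a prime constant with `n_p > 1` divides the gcd of the plinth ideal (`LNDF.e_np`, `np_eq`, `loc_e`;
if `e 1 = 0` then `e` is zero everywhere (subadditive) and `n_p = 1`) -/
theorem dvd_of_np (hln : ∀ x, ∃ n, (⇑D)^[n] x = 0) {p c : B} (hp : Prime p) (hDp : D p = 0)
    (hnd : ∃ x, ¬ p ∣ D x) (hc : IsCC D 1 c) (h : 1 < npB D p) : p ∣ c := by
  by_contra hpc
  obtain ⟨x, hx, hx'⟩ := hc.sharp p hp
  have hx1 : D (D x) = 0 := hx
  have hx2 : ¬ c * p ∣ D x := hx'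
  obtain ⟨y, hy⟩ := hc.dvd x hx
  have hy' : D x = c * y := hy
  have hpx : ¬ p ∣ D x := by
    intro h1
    rw [hy'] at h1
    rcases hp.dvd_or_dvd h1 with h2 | h2
    · exact hpc h2
    · apply hx2
      rw [hy']
      exact mul_dvd_mul_left c h2
  have h1 := npB_one D hx1 hpx
  omega

/-- and conversely (`e_np`: `e (n_p - 1) = e n_p`) -/
theorem np_of_dvd (hln : ∀ x, ∃ n, (⇑D)^[n] x = 0) {p c : B} (hp : Prime p) (hDp : D p = 0)
    (hnd : ∃ x, ¬ p ∣ D x) (hc : IsCC D 1 c) (h : p ∣ c) : 1 < npB D p := by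
  have h0 : 0 < npB D p := by
    rw [← np_eq D hp hDp hln hnd]
    exact np_pos _
  by_contra hcon
  have h1 : npB D p = 1 := by omega
  have hne : {n : ℕ | ∃ x, (⇑D)^[n + 1] x = 0 ∧ ¬ p ∣ D x}.Nonempty := by
    obtain ⟨x, hx⟩ := hnd
    obtain ⟨n, hn⟩ := hln x
    exact ⟨n, x, iter_zero_of_le D hn (by omega), hx⟩
  have h2 := Nat.sInf_mem hne
  obtain ⟨x, hx, hpx⟩ := h2
  have h3 : sInf {n : ℕ | ∃ x, (⇑D)^[n + 1] x = 0 ∧ ¬ p ∣ D x} = 1 := h1
  rw [h3] at hx
  apply hpx
  exact h.trans (hc.dvd x hx)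

/-- such a prime is special: `e n < n e 1` for `n = n_p` -/
theorem special_of_np (hln : ∀ x, ∃ n, (⇑D)^[n] x = 0) {p c : B} (hp : Prime p) (hDp : D p = 0)
    (hnd : ∃ x, ¬ p ∣ D x) (hc : IsCC D 1 c) (h : 1 < npB D p) : Special D c p := by
  have hpc := dvd_of_np hln hp hDp hnd hc h
  have hD : ∃ x, D x ≠ 0 := by
    obtain ⟨x, hx⟩ := hnd
    exact ⟨x, fun h0 => hx (by rw [h0]; exact dvd_zero _)⟩
  set hL := locData D p hp hDp hln hnd with hhL
  have hnp : np hL = npB D p := np_eq D hp hDp hln hnd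
  have he1 : 1 ≤ hL.e 1 := (loc_e D hp hDp hln hnd hc 1).1 (by rw [pow_one]; exact hpc)
  have h1 := e_np hL
  have h2 := ChE2.e_le_mul hL (np hL - 1)
  obtain ⟨cn, hcn⟩ := exists_cc D hD hln (np hL)
  obtain ⟨x, hx, hx'⟩ := hcn.sharp p hp
  have ht : ¬ p ^ (hL.e (np hL) + 1) ∣ cn := by
    intro h3
    have := (loc_e D hp hDp hln hnd hcn _).1 h3
    omega
  refine ⟨np hL, x, hL.e (np hL) + 1, hx, ?_, ?_⟩
  · have h3 : p ^ (np hL * hL.e 1) ∣ c ^ np hL := by
      rw [mul_comm, pow_mul]
      exact pow_dvd_pow_of_dvd ((loc_e D hp hDp hln hnd hc _).2 le_rfl) _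
    refine (pow_dvd_pow p ?_).trans h3
    have h4 : np hL * hL.e 1 = (np hL - 1) * hL.e 1 + hL.e 1 := by
      obtain ⟨m, hm⟩ : ∃ m, np hL = m + 1 := ⟨np hL - 1, by omega⟩
      rw [hm, Nat.add_sub_cancel]
      ring
    omega
  · intro h3
    obtain ⟨y, hy⟩ := hcn.dvd x hx
    obtain ⟨a, ha⟩ := (loc_e D hp hDp hln hnd hcn _).2 (le_refl (hL.e (np hL)))
    have hpa : ¬ p ∣ a := by
      rintro ⟨b, rfl⟩
      apply ht
      rw [ha]
      exact ⟨b, by ring⟩
    have hpy : ¬ p ∣ y := by
      rintro ⟨b, rfl⟩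
      apply hx'
      rw [hy]
      exact ⟨b, by ring⟩
    rw [hy, ha, pow_succ, mul_assoc] at h3
    have h4 := (mul_dvd_mul_iff_left (pow_ne_zero _ hp.ne_zero)).1 h3
    rcases hp.dvd_or_dvd h4 with h5 | h5
    · exact hpa h5
    · exact hpy h5

private theorem sim_e1 (hln : ∀ x, ∃ n, (⇑D)^[n] x = 0) {p c : B} (hp : Prime p) (hDp : D p = 0)
    (hnd : ∃ x, ¬ p ∣ D x) (hc : IsCC D 1 c) (h1 : p ∣ c) (h2 : ¬ p ^ 2 ∣ c) :
    (locData D p hp hDp hln hnd).e 1 = 1 := by
  have h3 := (loc_e D hp hDp hln hnd hc 1).1 (by rw [pow_one]; exact h1)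
  by_contra h4
  exact h2 ((loc_e D hp hDp hln hnd hc 2).2 (by omega))

/-- multiplicities at a simple prime: `e 1 = 1` gives `e n = n - [n / n_p]`. (`e n = n` for `n < n_p`: for
`n ≤ n_p` every element of degree `< n` has image divisible by `p` (`np_min'`), so `e n ≥ e (n-1) + 1`;
`e n_p = e (n_p - 1)`; then `e_np_mul`.) -/
theorem simple_e (hln : ∀ x, ∃ n, (⇑D)^[n] x = 0) {p c : B} (hp : Prime p) (hDp : D p = 0)
    (hnd : ∃ x, ¬ p ∣ D x) (hc : IsCC D 1 c) (h1 : p ∣ c) (h2 : ¬ p ^ 2 ∣ c) {n : ℕ} {cn : B}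
    (hcn : IsCC D n cn) (s : ℕ) : p ^ s ∣ cn ↔ s ≤ n - n / npB D p := by
  rw [loc_e D hp hDp hln hnd hcn s, sim_e _ (sim_e1 hln hp hDp hnd hc h1 h2),
    np_eq D hp hDp hln hnd]

/-- approximate roots `Y` of degree `l`, `n_p ∣ l`, are divisible by `p ^ (l / n_p)` at `r` (`root_dvd` with
the block `n_p`) -/
theorem simple_root_dvd (hln : ∀ x, ∃ n, (⇑D)^[n] x = 0) {p r c : B} (hp : Prime p)
    (hDp : D p = 0) (hnd : ∃ x, ¬ p ∣ D x) (hr : D r = c) (hc : IsCC D 1 c) (h1 : p ∣ c)
    (h2 : ¬ p ^ 2 ∣ c) {N l e : ℕ} (hl : 0 < l) (he : 0 < e) (hN : N = l * e)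
    (hpl : npB D p ∣ l) {cN G : B} (hcN : IsCC D N cN) (hG : (⇑D)^[N] G = cN)
    {P : (kerAlg D)[X]} (hP : P.Monic) (hPN : P.natDegree = N)
    (hPG : (N.factorial : B) * c ^ N * G = cN * aeval r P)
    {Y : (kerAlg D)[X]} (hY : Y.Monic) (hYl : Y.natDegree = l)
    (hPY : (P - Y ^ e).degree < (l * e - l : ℕ)) : p ^ (l / npB D p) ∣ aeval r Y := by
  have hnp := np_eq D hp hDp hln hnd
  have he1 := sim_e1 hln hp hDp hnd hc h1 h2
  have hpos := np_pos (locData D p hp hDp hln hnd)
  have h3 := root_dvd hln hp hDp hnd hr hc hl he hN hcN hG hP hPN hPG hY hYl hPY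
    (np (locData D p hp hDp hln hnd)) (blk_np _) (by rw [hnp]; exact hpl)
  have h4 : (locData D p hp hDp hln hnd).e (np (locData D p hp hDp hln hnd)) =
      np (locData D p hp hDp hln hnd) - 1 := by
    rw [← e_np, sim_e_low _ he1 _ (by omega)]
  rw [he1, h4, mul_one, show np (locData D p hp hDp hln hnd) -
    (np (locData D p hp hDp hln hnd) - 1) = 1 by omega, mul_one, hnp] at h3
  exact h3

/-- modulo a simple prime `p` the polynomial `P` is the power of its approximate root `Y` of degree `n_p`: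
`Y` is the minimal polynomial of `r` modulo `p`, and the derivatives of `P` of order `< N / n_p` vanish at `r`
modulo `p` (`D^j (P(r)) = c^j P^(j)(r)` and `p ^ (N / n_p) ∣ P(r)`, also `∣ D^j (P(r))`). Or: expand `P` in powers
of `Y`; the elements `r^i (Y(r)/p)^j`, `i < n_p`, are adapted at `p`. -/
theorem simple_root_pow (hln : ∀ x, ∃ n, (⇑D)^[n] x = 0) {r c : B} {p : kerAlg D}
    (hp : Prime (p : B)) (hnd : ∃ x, ¬ (p : B) ∣ D x) (hr : D r = c) (hc : IsCC D 1 c)
    (h1 : (p : B) ∣ c) (h2 : ¬ (p : B) ^ 2 ∣ c) {N e : ℕ} (he : 0 < e)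
    (hN : N = npB D (p : B) * e) {cN G : B} (hcN : IsCC D N cN) (hG : (⇑D)^[N] G = cN)
    {P : (kerAlg D)[X]} (hP : P.Monic) (hPN : P.natDegree = N)
    (hPG : (N.factorial : B) * c ^ N * G = cN * aeval r P)
    {Y : (kerAlg D)[X]} (hY : Y.Monic) (hYl : Y.natDegree = npB D (p : B))
    (hYr : (p : B) ∣ aeval r Y) : C p ∣ P - Y ^ e := by
  have hDp : D (p : B) = 0 := p.2
  have hnp := np_eq D hp hDp hln hnd
  have he1 := sim_e1 hln hp hDp hnd hc h1 h2
  have hpos := np_pos (locData D (p : B) hp hDp hln hnd)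
  rw [hnp] at hpos
  -- `p^e` divides `P(r)`
  have hPe : (p : B) ^ e ∣ aeval r P := by
    have hNd : N / npB D (p : B) = e := by rw [hN, Nat.mul_div_cancel_left e hpos]
    have heN : e ≤ N := by
      rw [hN]
      exact Nat.le_mul_of_pos_left e hpos
    have hs := simple_e hln hp hDp hnd hc h1 h2 hcN
    rw [hNd] at hs
    obtain ⟨a, ha⟩ := (hs (N - e)).2 le_rfl
    have hpa : ¬ (p : B) ∣ a := by
      rintro ⟨b, rfl⟩
      have h3 := (hs (N - e + 1)).1 ⟨b, by rw [ha]; ring⟩
      omega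
    have h3 : (p : B) ^ N ∣ cN * aeval r P := by
      rw [← hPG]
      exact Dvd.dvd.mul_right (Dvd.dvd.mul_left (pow_dvd_pow_of_dvd h1 N) _) _
    have h4 : (p : B) ^ (N - e) * (p : B) ^ e ∣ (p : B) ^ (N - e) * (a * aeval r P) := by
      rw [← pow_add, Nat.sub_add_cancel heN, ← mul_assoc, ← ha]
      exact h3
    have h5 := (mul_dvd_mul_iff_left (pow_ne_zero _ hp.ne_zero)).1 h4
    exact hp.pow_dvd_of_dvd_mul_left _ hpa h5
  -- to the localization
  let φ : kerAlg D →+* VL D (p : B) hp :=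
    { toFun := fun a => ⟨algebraMap B (Loc D (p : B) hp) (a : B), by
        rw [mem_kerAlg, derL_alg, show D (a : B) = 0 from a.2, map_zero]⟩
      map_one' := Subtype.ext (map_one _)
      map_mul' := fun a b => Subtype.ext (map_mul _ _ _)
      map_zero' := Subtype.ext (map_zero _)
      map_add' := fun a b => Subtype.ext (map_add _ _ _) }
  have hR : ∀ T : (kerAlg D)[X], algebraMap B (Loc D (p : B) hp) (aeval r T) =
      aeval (algebraMap B (Loc D (p : B) hp) r) (T.map φ) := by
    intro T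
    rw [aeval_def, aeval_def, eval₂_map, hom_eval₂]
    rfl
  obtain ⟨u, hu, hcu⟩ := ChE2.const_eq D hp hDp (hc.const) 1 (by rw [pow_one]; exact h1)
    (by exact h2)
  rw [pow_one] at hcu
  have hρ : derV D (p : B) hp (algebraMap B (Loc D (p : B) hp) r) =
      algebraMap (VL D (p : B) hp) (Loc D (p : B) hp)
        ((⟨algebraMap B (Loc D (p : B) hp) (p : B), by
          rw [mem_kerAlg, derL_alg, hDp, map_zero]⟩ : VL D (p : B) hp) * u) := by
    rw [← hcu, derV_apply, derL_alg, hr]
  have key := sim_pow (locData D (p : B) hp hDp hln hnd) he1 hu hρ (hP.map φ) (hY.map φ)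
    (by rw [hY.natDegree_map, hYl, hnp]) (e := e) (by rw [hP.natDegree_map, hPN, hN, hnp])
    (by
      rw [← hR]
      exact map_dvd (algebraMap B (Loc D (p : B) hp)) hYr)
    (by
      have h3 := map_dvd (algebraMap B (Loc D (p : B) hp)) hPe
      rw [map_pow] at h3
      rw [← hR, map_pow]
      exact h3)
  rw [← Polynomial.map_pow, ← Polynomial.map_sub, C_dvd_iff_dvd_coeff] at key
  rw [C_dvd_iff_dvd_coeff]
  intro i
  have h3 := map_dvd (algebraMap (VL D (p : B) hp) (Loc D (p : B) hp)) (key i)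
  rw [coeff_map] at h3
  have h4 : algebraMap B (Loc D (p : B) hp) (p : B) ^ 1 ∣
      algebraMap B (Loc D (p : B) hp) (((P - Y ^ e).coeff i : kerAlg D) : B) := by
    rw [pow_one]
    exact h3
  have h5 := ChE2.pow_dvd_of_loc D hp 1 _ h4
  rw [pow_one] at h5
  obtain ⟨s, hs⟩ := h5
  have hDs : D s = 0 := by
    have h6 : D (((P - Y ^ e).coeff i : kerAlg D) : B) = 0 := ((P - Y ^ e).coeff i).2
    rw [hs, Derivation.leibniz, hDp, smul_zero, add_zero, smul_eq_mul] at h6
    exact (mul_eq_zero.mp h6).resolve_left hp.ne_zero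
  exact ⟨⟨s, hDs⟩, Subtype.ext hs⟩

end Pool.Agent.LNDT
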