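import Mathlib
import Pool.Agent.LNDT.LpD
import Pool.Agent.LNDT.Poly
import Pool.Agent.LNDT.Frac
import Pool.Agent.LNDT.Simple
import Pool.Agent.LNDF.ChD

set_option autoImplicit false
set_option linter.unusedSectionVars false
set_option linter.unusedVariables false

open Polynomial

namespace Pool.Agent.LNDT

open Pool.Agent.LNDHom Pool.Agent.LNDF

variable {k B : Type} [Field k] [CharZero k] [CommRing B] [IsDomain B] [Algebra k B]
  [UniqueFactorizationMonoid B] {D : Derivation k B B}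
  {cc : ℕ → B} {m : Ideal (kerAlg D)} {p q : kerAlg D} {r : B}

theorem Cross.symm' {α β : ℕ} (h : Cross D cc m p q α β) : Cross D cc m q p β α where
  hcc := h.hcc
  lnd := h.lnd
  pp := h.pq
  pq := h.pp
  npq := fun e => h.npq e.symm
  pm := h.qm
  qm := h.pm
  pα := h.pβ
  pβ := h.pα
  ep := h.eq
  eq := h.ep
  other := fun p' h1 h2 h3 => (h.other p' h1 h2 h3).symm
  gen := fun a ha => by
    obtain ⟨s, hs, x, y, e⟩ := h.gen a ha
    exact ⟨s, hs, y, x, by rw [e]; ring⟩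

/-- an element of `S` which is `Y / wt l`, `Y` monic of degree `l`, is adapted -/
theorem adapted_of_smul {A K : Type} [CommRing A] [IsDomain A] [Field K] [Algebra A K]
    {S : Subalgebra A K[X]} {u v : A} {α β : ℕ} (h : LPData S u v α β) {l : ℕ} {x : K[X]}
    (hx : x ∈ S) {Y : K[X]} (hY : Y.Monic) (hYl : Y.natDegree = l)
    (hw : (u ^ (l / α) * v ^ (l / β)) • x = Y) : Adapted S u v α β l := by
  have hw0 : algebraMap A K (u ^ (l / α) * v ^ (l / β)) ≠ 0 := by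
    rw [Ne, map_eq_zero_iff _ h.inj]
    exact mul_ne_zero (pow_ne_zero _ h.pu.ne_zero) (pow_ne_zero _ h.pv.ne_zero)
  have hc : ∀ n, algebraMap A K (u ^ (l / α) * v ^ (l / β)) * x.coeff n = Y.coeff n := by
    intro n
    rw [← hw, coeff_smul, Algebra.smul_def]
  refine ⟨x, hx, ?_, ?_⟩
  · rw [natDegree_le_iff_coeff_eq_zero]
    intro n hn
    have h1 := hc n
    rw [coeff_eq_zero_of_natDegree_lt (p := Y) (by rw [hYl]; exact hn)] at h1
    exact (mul_eq_zero.mp h1).resolve_left hw0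
  · have h1 := hc l
    rw [wt, h1, ← hYl]
    exact hY

/-- THE LOCAL THEOREM at a crossing, when `n_p` divides `n_q` or `n_q` does not divide `n_p` -/
theorem cross_main_aux {A F : Type} [CommRing A] [IsDomain A] [Field F] [Algebra A F]
    [m.IsPrime] [Algebra (kerAlg D) A] [IsLocalization.AtPrime A m] [IsLocalRing A]
    [Algebra (kerAlg D) F] [IsScalarTower (kerAlg D) A F] [IsFractionRing A F]
    (hirr : ∀ p : B, Prime p → D p = 0 → ∃ x, ¬ p ∣ D x)
    (hmax0 : IsLocalRing.maximalIdeal A = m.map (algebraMap (kerAlg D) A))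
    (h : Cross D cc m p q (npB D (p : B)) (npB D (q : B)))
    (hp1 : (p : B) ∣ cc 1) (hp2 : ¬ (p : B) ^ 2 ∣ cc 1) (hq1 : (q : B) ∣ cc 1)
    (hq2 : ¬ (q : B) ^ 2 ∣ cc 1) (hr : D r = cc 1) {N : ℕ} (hN : 0 < N)
    (hnp : ∀ p : B, Prime p → D p = 0 → npB D p ∣ N) {G : B} (hG : (⇑D)^[N] G = cc N)
    (hcase : npB D (p : B) ∣ npB D (q : B) ∨ ¬ npB D (q : B) ∣ npB D (p : B)) (n : ℕ) :
    ∃ (a : kerAlg D) (x : B), a ∉ m ∧ (⇑D)^[n + 1] x = 0 ∧ (⇑D)^[n] x = a * cc n := by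
  classical
  have hln := h.lnd
  have hDp : D (p : B) = 0 := p.2
  have hDq : D (q : B) = 0 := q.2
  have hαN : npB D (p : B) ∣ N := hnp _ h.pp hDp
  have hβN : npB D (q : B) ∣ N := hnp _ h.pq hDq
  have hα0 : 0 < npB D (p : B) := by have := h.pα; omega
  have hβ0 : 0 < npB D (q : B) := by have := h.pβ; omega
  have hndp := hirr _ h.pp hDp
  have hndq := hirr _ h.pq hDq
  -- the local ring and its field of fractions
  have hle : m.primeCompl ≤ nonZeroDivisors (kerAlg D) := m.primeCompl_le_nonZeroDivisors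
  have hinj1 : Function.Injective (algebraMap (kerAlg D) A) := IsLocalization.injective A hle
  have hinj' : Function.Injective (algebraMap A F) := IsFractionRing.injective A F
  have hinj : Function.Injective (algebraMap (kerAlg D) F) := by
    rw [IsScalarTower.algebraMap_eq (kerAlg D) A F]
    exact hinj'.comp hinj1
  obtain ⟨S, hS⟩ := exists_SB (D := D) r m (A := A) (F := F) hinj
  have LP := h.lpData hinj hinj' hr hS
  set u : A := algebraMap (kerAlg D) A p with hu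
  set v : A := algebraMap (kerAlg D) A q with hv
  have hmax : IsLocalRing.maximalIdeal A = Ideal.span {u, v} := by
    rw [hmax0]
    refine le_antisymm ?_ ?_
    · rw [Ideal.map_le_iff_le_comap]
      intro a ha
      rw [Ideal.mem_comap]
      obtain ⟨s, hs, x, y, e⟩ := h.gen a ha
      have h1 : algebraMap (kerAlg D) A s * algebraMap (kerAlg D) A a ∈ Ideal.span {u, v} := by
        rw [← map_mul, e, map_add, map_mul, map_mul]
        exact Ideal.add_mem _ (Ideal.mul_mem_left _ _ (Ideal.subset_span (Or.inl rfl)))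
          (Ideal.mul_mem_left _ _ (Ideal.subset_span (Or.inr rfl)))
      have h2 : IsUnit (algebraMap (kerAlg D) A s) :=
        IsLocalization.map_units A (⟨s, hs⟩ : m.primeCompl)
      obtain ⟨w, hw⟩ := h2.exists_left_inv
      have h3 := Ideal.mul_mem_left (Ideal.span {u, v}) w h1
      rwa [← mul_assoc, hw, one_mul] at h3
    · rw [Ideal.span_le]
      intro x hx
      rcases hx with rfl | hx
      · exact Ideal.mem_map_of_mem _ h.pm
      · rw [Set.mem_singleton_iff] at hx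
        subst hx
        exact Ideal.mem_map_of_mem _ h.qm
  -- the polynomials
  obtain ⟨P, hP, hPN, hPG⟩ := int_poly hln hirr hr (h.hcc 1) (h.hcc N) hG
  let _ : Algebra ℚ (kerAlg D) := ((algebraMap k (kerAlg D)).comp (algebraMap ℚ k)).toAlgebra
  have happ : ∀ l : ℕ, 0 < l → l ∣ N → ∃ Y : (kerAlg D)[X], Y.Monic ∧ Y.natDegree = l ∧
      (P - Y ^ (N / l)).degree < (l * (N / l) - l : ℕ) := by
    intro l hl hlN
    refine approx_root P hP l (N / l) hl (Nat.div_pos (Nat.le_of_dvd hN hlN) hl) ?_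
    rw [hPN, Nat.mul_div_cancel' hlN]
  have hdvp : ∀ (l : ℕ) (Y : (kerAlg D)[X]), 0 < l → l ∣ N → npB D (p : B) ∣ l → Y.Monic →
      Y.natDegree = l → (P - Y ^ (N / l)).degree < (l * (N / l) - l : ℕ) →
      (p : B) ^ (l / npB D (p : B)) ∣ aeval r Y := by
    intro l Y hl hlN hpl hY hYl hPY
    exact simple_root_dvd hln h.pp hDp hndp hr (h.hcc 1) hp1 hp2 hl
      (Nat.div_pos (Nat.le_of_dvd hN hlN) hl) (Nat.mul_div_cancel' hlN).symm hpl (h.hcc N) hG hP hPN
      hPG hY hYl hPY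
  have hdvq : ∀ (l : ℕ) (Y : (kerAlg D)[X]), 0 < l → l ∣ N → npB D (q : B) ∣ l → Y.Monic →
      Y.natDegree = l → (P - Y ^ (N / l)).degree < (l * (N / l) - l : ℕ) →
      (q : B) ^ (l / npB D (q : B)) ∣ aeval r Y := by
    intro l Y hl hlN hpl hY hYl hPY
    exact simple_root_dvd hln h.pq hDq hndq hr (h.hcc 1) hq1 hq2 hl
      (Nat.div_pos (Nat.le_of_dvd hN hlN) hl) (Nat.mul_div_cancel' hlN).symm hpl (h.hcc N) hG hP hPN
      hPG hY hYl hPY
  obtain ⟨Φ0, mΦ, dΦ, eΦ⟩ := happ _ hα0 hαN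
  obtain ⟨F0, mF, dF, eF⟩ := happ _ hβ0 hβN
  have dvΦ : (p : B) ∣ aeval r Φ0 := by
    have := hdvp _ Φ0 hα0 hαN dvd_rfl mΦ dΦ eΦ
    rwa [Nat.div_self hα0, pow_one] at this
  have dvF : (q : B) ∣ aeval r F0 := by
    have := hdvq _ F0 hβ0 hβN dvd_rfl mF dF eF
    rwa [Nat.div_self hβ0, pow_one] at this
  have cΦ : C p ∣ P - Φ0 ^ (N / npB D (p : B)) :=
    simple_root_pow hln h.pp hndp hr (h.hcc 1) hp1 hp2
      (Nat.div_pos (Nat.le_of_dvd hN hαN) hα0) (Nat.mul_div_cancel' hαN).symm (h.hcc N) hG hP hPN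
      hPG mΦ dΦ dvΦ
  have cF : C q ∣ P - F0 ^ (N / npB D (q : B)) :=
    simple_root_pow hln h.pq hndq hr (h.hcc 1) hq1 hq2
      (Nat.div_pos (Nat.le_of_dvd hN hβN) hβ0) (Nat.mul_div_cancel' hβN).symm (h.hcc N) hG hP hPN
      hPG mF dF dvF
  -- elements of `S`
  have hmap : ∀ Q : (kerAlg D)[X], Q.map (algebraMap (kerAlg D) F) =
      (Q.map (algebraMap (kerAlg D) A)).map (algebraMap A F) := by
    intro Q
    rw [Polynomial.map_map, IsScalarTower.algebraMap_eq (kerAlg D) A F]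
  obtain ⟨Φ, hΦS, hΦ⟩ := h.into hinj hS (Q := Φ0) (i := 1) (j := 0) (by simpa using dvΦ)
  obtain ⟨Fq, hFS, hF⟩ := h.into hinj hS (Q := F0) (i := 0) (j := 1) (by simpa using dvF)
  rw [pow_one, pow_zero, mul_one, hmap] at hΦ
  rw [pow_one, pow_zero, one_mul, hmap] at hF
  -- the least common multiple
  have hl0 : 0 < Nat.lcm (npB D (p : B)) (npB D (q : B)) := Nat.lcm_pos hα0 hβ0
  have hlN : Nat.lcm (npB D (p : B)) (npB D (q : B)) ∣ N := Nat.lcm_dvd hαN hβN
  have hcopr : ∀ i j : ℕ, ∀ b : B, (p : B) ^ i ∣ b → (q : B) ^ j ∣ b →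
      (p : B) ^ i * (q : B) ^ j ∣ b := by
    intro i j b h1 h2
    obtain ⟨w, rfl⟩ := h1
    refine mul_dvd_mul_left _ ?_
    refine h.pq.pow_dvd_of_dvd_mul_left _ ?_ h2
    intro hd
    exact h.npq ((h.pq.associated_of_dvd h.pp (h.pq.dvd_of_dvd_pow hd)).symm)
  have hadl : Adapted S u v (npB D (p : B)) (npB D (q : B))
      (Nat.lcm (npB D (p : B)) (npB D (q : B))) := by
    obtain ⟨Y, mY, dY, eY⟩ := happ _ hl0 hlN
    obtain ⟨x, hxS, hx⟩ := h.into hinj hS (Q := Y)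
      (i := Nat.lcm (npB D (p : B)) (npB D (q : B)) / npB D (p : B))
      (j := Nat.lcm (npB D (p : B)) (npB D (q : B)) / npB D (q : B))
      (hcopr _ _ _ (hdvp _ Y hl0 hlN (Nat.dvd_lcm_left _ _) mY dY eY)
        (hdvq _ Y hl0 hlN (Nat.dvd_lcm_right _ _) mY dY eY))
    refine adapted_of_smul LP hxS (mY.map _) ?_ hx
    rw [mY.natDegree_map, dY]
  refine h.out hinj hinj' hr hS ?_
  by_cases hdiv : npB D (p : B) ∣ npB D (q : B)
  · -- the compatible case
    have hlcm : Nat.lcm (npB D (p : B)) (npB D (q : B)) = npB D (q : B) :=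
      Nat.lcm_eq_right hdiv
    rw [hlcm] at hadl
    refine lp_dvd LP hdiv ?_ hadl n
    rcases (Nat.le_of_dvd hβ0 hdiv).eq_or_lt with e | hlt
    · rw [e]; rw [← e] at hadl ⊢; exact hadl
    · refine adapted_of_smul LP hΦS (Y := (Φ0.map (algebraMap (kerAlg D) A)).map (algebraMap A F))
        ((mΦ.map _).map _) ?_ ?_
      · rw [(mΦ.map (algebraMap (kerAlg D) A)).natDegree_map, mΦ.natDegree_map, dΦ]
      · rw [Nat.div_self hα0, Nat.div_eq_of_lt hlt, pow_one, pow_zero, mul_one, hΦ]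
  · have hdiv2 : ¬ npB D (q : B) ∣ npB D (p : B) := hcase.resolve_left hdiv
    have hgα : Nat.gcd (npB D (p : B)) (npB D (q : B)) < npB D (p : B) := by
      refine lt_of_le_of_ne (Nat.gcd_le_left _ hα0) fun e => hdiv ?_
      rw [← e]; exact Nat.gcd_dvd_right _ _
    have hgβ : Nat.gcd (npB D (p : B)) (npB D (q : B)) < npB D (q : B) := by
      refine lt_of_le_of_ne (Nat.gcd_le_right _ hβ0) fun e => hdiv2 ?_
      rw [← e]; exact Nat.gcd_dvd_left _ _
    refine lp_main LP hFS hΦS (mF.map (algebraMap (kerAlg D) A))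
      (mΦ.map (algebraMap (kerAlg D) A)) (by rw [mF.natDegree_map, dF])
      (by rw [mΦ.natDegree_map, dΦ]) hF hΦ rfl hgα hgβ hadl ?_ n
    intro k1 k2 hk1 hk2 hkk
    refine poly_div hmax (P := P.map (algebraMap (kerAlg D) A)) (hP.map _) (mF.map _) (mΦ.map _)
      (by rw [hP.natDegree_map, hPN]) (by rw [mF.natDegree_map, dF])
      (by rw [mΦ.natDegree_map, dΦ]) hα0 hβ0 hN hβN hαN ?_ ?_ hkk hk1
    · obtain ⟨R, hR⟩ := cF
      refine ⟨R.map (algebraMap (kerAlg D) A), ?_⟩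
      rw [← Polynomial.map_pow, ← Polynomial.map_sub, hR, Polynomial.map_mul, Polynomial.map_C]
    · obtain ⟨R, hR⟩ := cΦ
      refine ⟨R.map (algebraMap (kerAlg D) A), ?_⟩
      rw [← Polynomial.map_pow, ← Polynomial.map_sub, hR, Polynomial.map_mul, Polynomial.map_C]

theorem cross_main_aux2 {A F : Type} [CommRing A] [IsDomain A] [Field F] [Algebra A F]
    [m.IsPrime] [Algebra (kerAlg D) A] [IsLocalization.AtPrime A m] [IsLocalRing A]
    [IsFractionRing A F]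
    (hirr : ∀ p : B, Prime p → D p = 0 → ∃ x, ¬ p ∣ D x)
    (hmax0 : IsLocalRing.maximalIdeal A = m.map (algebraMap (kerAlg D) A))
    (h : Cross D cc m p q (npB D (p : B)) (npB D (q : B)))
    (hp1 : (p : B) ∣ cc 1) (hp2 : ¬ (p : B) ^ 2 ∣ cc 1) (hq1 : (q : B) ∣ cc 1)
    (hq2 : ¬ (q : B) ^ 2 ∣ cc 1) (hr : D r = cc 1) {N : ℕ} (hN : 0 < N)
    (hnp : ∀ p : B, Prime p → D p = 0 → npB D p ∣ N) {G : B} (hG : (⇑D)^[N] G = cc N) (n : ℕ) :
    ∃ (a : kerAlg D) (x : B), a ∉ m ∧ (⇑D)^[n + 1] x = 0 ∧ (⇑D)^[n] x = a * cc n := by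
  let _ : Algebra (kerAlg D) F := ((algebraMap A F).comp (algebraMap (kerAlg D) A)).toAlgebra
  have htow : IsScalarTower (kerAlg D) A F := IsScalarTower.of_algebraMap_eq fun _ => rfl
  by_cases h1 : npB D (p : B) ∣ npB D (q : B) ∨ ¬ npB D (q : B) ∣ npB D (p : B)
  · exact cross_main_aux (A := A) (F := F) hirr hmax0 h hp1 hp2 hq1 hq2 hr hN hnp hG h1 n
  · rw [not_or, not_not] at h1
    exact cross_main_aux (A := A) (F := F) hirr hmax0 h.symm' hq1 hq2 hp1 hp2 hr hN hnp hG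
      (Or.inl h1.2) n

theorem cross_main_aux3 {A : Type} [CommRing A] [IsDomain A]
    [m.IsPrime] [Algebra (kerAlg D) A] [IsLocalization.AtPrime A m] [IsLocalRing A]
    (hirr : ∀ p : B, Prime p → D p = 0 → ∃ x, ¬ p ∣ D x)
    (hmax0 : IsLocalRing.maximalIdeal A = m.map (algebraMap (kerAlg D) A))
    (h : Cross D cc m p q (npB D (p : B)) (npB D (q : B)))
    (hp1 : (p : B) ∣ cc 1) (hp2 : ¬ (p : B) ^ 2 ∣ cc 1) (hq1 : (q : B) ∣ cc 1)
    (hq2 : ¬ (q : B) ^ 2 ∣ cc 1) (hr : D r = cc 1) {N : ℕ} (hN : 0 < N)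
    (hnp : ∀ p : B, Prime p → D p = 0 → npB D p ∣ N) {G : B} (hG : (⇑D)^[N] G = cc N) (n : ℕ) :
    ∃ (a : kerAlg D) (x : B), a ∉ m ∧ (⇑D)^[n + 1] x = 0 ∧ (⇑D)^[n] x = a * cc n :=
  cross_main_aux2 (A := A) (F := FractionRing A) hirr hmax0 h hp1 hp2 hq1 hq2 hr hN hnp hG n

/-- THE LOCAL THEOREM at a crossing of two simple primes. `A = Localization.AtPrime m`,
`F = FractionRing A`, `S` from `exists_SB`; `P` from `int_poly`, its approximate roots of degree `n_p`, `n_q`,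
`lcm` from `approx_root`; `simple_root_dvd`, `simple_root_pow`; `poly_div`, `lp_main`; `lp_dvd` if `n_p ∣ n_q`
or `n_q ∣ n_p` (exchange `p` and `q`); `Cross.out`. -/
theorem cross_main (hirr : ∀ p : B, Prime p → D p = 0 → ∃ x, ¬ p ∣ D x)
    (hm : m.IsMaximal) (h : Cross D cc m p q (npB D (p : B)) (npB D (q : B)))
    (hp1 : (p : B) ∣ cc 1) (hp2 : ¬ (p : B) ^ 2 ∣ cc 1) (hq1 : (q : B) ∣ cc 1)
    (hq2 : ¬ (q : B) ^ 2 ∣ cc 1) (hr : D r = cc 1) {N : ℕ} (hN : 0 < N)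
    (hnp : ∀ p : B, Prime p → D p = 0 → npB D p ∣ N) {G : B} (hG : (⇑D)^[N] G = cc N) (n : ℕ) :
    ∃ (a : kerAlg D) (x : B), a ∉ m ∧ (⇑D)^[n + 1] x = 0 ∧ (⇑D)^[n] x = a * cc n := by
  have hmp : m.IsPrime := hm.isPrime
  have hdom : IsDomain (Localization.AtPrime m) :=
    IsLocalization.isDomain_localization m.primeCompl_le_nonZeroDivisors
  have hmax0 := (Localization.AtPrime.map_eq_maximalIdeal (I := m)).symm
  exact cross_main_aux3 (A := Localization.AtPrime m) hirr hmax0 h hp1 hp2 hq1 hq2 hr hN hnp hG n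

end Pool.Agent.LNDT
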