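import Mathlib
import Pool.Agent.LNDT.GDefs

set_option autoImplicit false

open Polynomial

namespace Pool.Agent.LNDT

open Pool.Agent.LNDHom

variable {k B : Type} [Field k] [CharZero k] [CommRing B] [IsDomain B] [Algebra k B]
  {D E : Derivation k B B}

private lemma gr1_iter_add (D : Derivation k B B) (n : ℕ) (x y : B) :
    (⇑D)^[n] (x + y) = (⇑D)^[n] x + (⇑D)^[n] y := iterate_map_add D n x y

private lemma gr1_iter_sub (D : Derivation k B B) (n : ℕ) (x y : B) :
    (⇑D)^[n] (x - y) = (⇑D)^[n] x - (⇑D)^[n] y := iterate_map_sub D n x y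

private lemma gr1_iter_cmul {a : B} (ha : D a = 0) (n : ℕ) (x : B) :
    (⇑D)^[n] (a * x) = a * (⇑D)^[n] x := by
  induction n with
  | zero => rfl
  | succ n ih =>
    rw [Function.iterate_succ_apply', ih, Function.iterate_succ_apply', Derivation.leibniz, ha]
    simp

private lemma gr1_fac_ne (n : ℕ) : (n.factorial : k) ≠ 0 := by
  exact_mod_cast n.factorial_ne_zero

theorem ld_add (n : ℕ) (x y : B) : ld D n (x + y) = ld D n x + ld D n y := by
  rw [ld, ld, ld, gr1_iter_add, smul_add]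

private lemma gr1_ld_sub (n : ℕ) (x y : B) : ld D n (x - y) = ld D n x - ld D n y := by
  rw [ld, ld, ld, gr1_iter_sub, smul_sub]

/-- `ld D n` is linear over the constants -/
theorem ld_cmul {a : B} (ha : D a = 0) (n : ℕ) (x : B) : ld D n (a * x) = a * ld D n x := by
  rw [ld, ld, gr1_iter_cmul ha, mul_smul_comm]

theorem D_ld {n : ℕ} {x : B} (hx : (⇑D)^[n + 1] x = 0) : D (ld D n x) = 0 := by
  rw [ld, D.map_smul, ← Function.iterate_succ_apply' (⇑D) n x, hx, smul_zero]

/-- leading coefficients multiply (`LNDHom.iter_mul_top`) -/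
theorem ld_mul {n m : ℕ} {x y : B} (hx : (⇑D)^[n + 1] x = 0) (hy : (⇑D)^[m + 1] y = 0) :
    (⇑D)^[n + m + 1] (x * y) = 0 ∧ ld D (n + m) (x * y) = ld D n x * ld D m y := by
  have h := iter_mul_top D (n + m) n m x y rfl hx hy
  refine ⟨h.2, ?_⟩
  rw [ld, ld, ld, h.1, smul_mul_smul_comm]
  have e1 : (((n + m).choose n : ℕ) : B) * ((⇑D)^[n] x * (⇑D)^[m] y) =
      (((n + m).choose n : ℕ) : k) • ((⇑D)^[n] x * (⇑D)^[m] y) := by
    rw [Algebra.smul_def, map_natCast]
  rw [e1, smul_smul]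
  congr 1
  have e2 : (((n + m).choose n : ℕ) : k) * (n.factorial : k) * (m.factorial : k) =
      ((n + m).factorial : k) := by
    rw [Nat.choose_symm_add]
    exact_mod_cast Nat.add_choose_mul_factorial_mul_factorial n m
  have h1 := gr1_fac_ne (k := k) n
  have h2 := gr1_fac_ne (k := k) m
  have h3 := gr1_fac_ne (k := k) (n + m)
  field_simp
  linear_combination e2

/-- the induced operator satisfies the Leibniz rule -/
theorem phi_mul {d : ℕ} (hd : BdE D E d) {n m : ℕ} {x y : B} (hx : (⇑D)^[n + 1] x = 0)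
    (hy : (⇑D)^[m + 1] y = 0) : ld D (n + m + d) (E (x * y)) =
      ld D n x * ld D (m + d) (E y) + ld D m y * ld D (n + d) (E x) := by
  rw [Derivation.leibniz, smul_eq_mul, smul_eq_mul, ld_add, ← (ld_mul hx (hd m y hy)).2,
    ← (ld_mul hy (hd n x hx)).2]
  congr 2
  · omega
  · omega

private lemma gr1_pow {r c : B} (hr : D r = c) (hc : D c = 0) (n : ℕ) :
    (⇑D)^[n + 1] (r ^ n) = 0 ∧ ld D n (r ^ n) = c ^ n := by
  have h1 : (⇑D)^[1 + 1] r = 0 := by
    simp [Function.iterate_succ_apply, hr, hc]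
  have h2 : ld D 1 r = c := by simp [ld, hr]
  induction n with
  | zero => simp [ld]
  | succ n ih =>
    have h3 := ld_mul ih.1 h1
    rw [ih.2, h2] at h3
    rw [pow_succ, pow_succ]
    exact h3

private lemma gr1_diff {r c : B} (hr : D r = c) (hc : D c = 0) {n : ℕ} {x : B}
    (hx : (⇑D)^[n + 1] x = 0) : (⇑D)^[n] (c ^ n * x - ld D n x * r ^ n) = 0 := by
  have hcn : D (c ^ n) = 0 := by
    rw [Derivation.leibniz_pow, hc]
    simp
  have h1 : ld D n (c ^ n * x - ld D n x * r ^ n) = 0 := by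
    rw [gr1_ld_sub, ld_cmul hcn, ld_cmul (D_ld hx), (gr1_pow hr hc n).2]
    ring
  rw [ld] at h1
  exact (smul_eq_zero.1 h1).resolve_left (inv_ne_zero (gr1_fac_ne n))

/-- THE FORMULA for the induced operator, multiplied by `c`. Compare `c ^ n * x` and `λ * r ^ n`,
`λ = ld D n x`: their difference has degree `< n`, so `E` of it has degree `< n + d`. Then cancel `c ^ n`. -/
theorem phi_formula {d : ℕ} (hd : BdE D E d) {r c : B} (hr : D r = c) (hc : D c = 0) (hc0 : c ≠ 0)
    {n : ℕ} {x : B} (hx : (⇑D)^[n + 1] x = 0) :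
    c * ld D (n + d) (E x) = c * ld D d (E (ld D n x)) +
      (n : B) * ld D n x * (ld D (1 + d) (E r) - ld D d (E c)) := by
  rcases Nat.eq_zero_or_pos n with h0 | h0
  · subst h0
    simp [ld]
  obtain ⟨n, rfl⟩ : ∃ m, n = m + 1 := ⟨n - 1, by omega⟩
  have hr1 : (⇑D)^[1 + 1] r = 0 := by
    simp [Function.iterate_succ_apply, hr, hc]
  have hcn : ∀ j, D (c ^ j) = 0 := by
    intro j
    rw [Derivation.leibniz_pow, hc]
    simp
  have hw := gr1_diff hr hc hx
  have hEw := hd n _ hw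
  have e0 : ld D (n + 1 + d) (E (c ^ (n + 1) * x - ld D (n + 1) x * r ^ (n + 1))) = 0 := by
    rw [ld, show n + 1 + d = n + d + 1 by omega, hEw, smul_zero]
  have lam : (⇑D)^[0 + 1] (ld D (n + 1) x) = 0 := by
    simpa using D_ld hx
  have hcn0 : (⇑D)^[0 + 1] (c ^ (n + 1)) = 0 := by
    simpa using hcn (n + 1)
  have e1 := phi_mul hd hcn0 hx
  have e2 := phi_mul hd lam (gr1_pow hr hc (n + 1)).1
  have e3 : ld D d (E (c ^ (n + 1))) = ((n + 1 : ℕ) : B) * (c ^ n * ld D d (E c)) := by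
    rw [Derivation.leibniz_pow, Nat.add_sub_cancel, ← ld_cmul (hcn n), nsmul_eq_mul, smul_eq_mul]
    rw [ld_cmul (D := D) (by simp)]
  have e4 : ld D (n + 1 + d) (E (r ^ (n + 1))) =
      ((n + 1 : ℕ) : B) * (c ^ n * ld D (1 + d) (E r)) := by
    rw [Derivation.leibniz_pow, Nat.add_sub_cancel, nsmul_eq_mul, smul_eq_mul,
      ld_cmul (D := D) (by simp), show n + 1 + d = n + (1 + d) by omega,
      (ld_mul (gr1_pow hr hc n).1 (hd 1 r hr1)).2, (gr1_pow hr hc n).2]
  have l0 : ∀ z : B, ld D 0 z = z := by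
    intro z
    simp [ld]
  rw [map_sub, gr1_ld_sub] at e0
  simp only [zero_add, l0] at e1 e2
  rw [e3] at e1
  rw [e4, (gr1_pow hr hc (n + 1)).2] at e2
  rw [e1, e2] at e0
  have hcc : c ^ n ≠ 0 := pow_ne_zero _ hc0
  apply mul_left_cancel₀ hcc
  linear_combination e0

/-- EXISTENCE OF `d`. For `a ∈ k[f, g]` the degree of `E a` is at most that of `E f`, `E g`; for `x` of degree
`≤ n` some multiple `s x` (`s ≠ 0` a constant) is a polynomial of degree `≤ n` in `r` over the constants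
(`LNDF.E1_repr` in `LNDF/ChE1.lean` may help). -/
theorem bd_exists (hln : ∀ x, ∃ n, (⇑D)^[n] x = 0) {r c : B} (hr : D r = c) (hc : D c = 0)
    (hc0 : c ≠ 0) {f g : B} (hker : ∀ b, D b = 0 ↔ b ∈ Algebra.adjoin k {f, g}) :
    ∃ d, BdE D E d := by
  obtain ⟨a1, h1⟩ := hln (E f)
  obtain ⟨a2, h2⟩ := hln (E g)
  obtain ⟨a3, h3⟩ := hln (E r)
  set d := a1 + a2 + a3 with hd
  have hEr : (⇑D)^[1 + d + 1] (E r) = 0 := iter_zero_of_le D h3 (by omega)
  have hker0 : ∀ b, D b = 0 → (⇑D)^[d + 1] (E b) = 0 := by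
    intro b hb
    rw [hker] at hb
    induction hb using Algebra.adjoin_induction with
    | mem x hx =>
      rcases hx with rfl | hx
      · exact iter_zero_of_le D h1 (by omega)
      · rw [Set.mem_singleton_iff] at hx
        subst hx
        exact iter_zero_of_le D h2 (by omega)
    | algebraMap x =>
      rw [Derivation.map_algebraMap, iterate_map_zero]
    | add x y _ _ hx hy =>
      rw [map_add, gr1_iter_add, hx, hy, add_zero]
    | mul x y hxm hym hx hy =>
      rw [← hker] at hxm hym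
      rw [Derivation.leibniz, smul_eq_mul, smul_eq_mul, gr1_iter_add, gr1_iter_cmul hxm,
        gr1_iter_cmul hym, hx, hy, mul_zero, mul_zero, add_zero]
  refine ⟨d, ?_⟩
  intro n
  induction n with
  | zero =>
    intro x hx
    rw [zero_add]
    exact hker0 x (by simpa using hx)
  | succ n ih =>
    intro x hx
    have hcn : D (c ^ (n + 1)) = 0 := by
      rw [Derivation.leibniz_pow, hc]
      simp
    have hw := ih _ (gr1_diff hr hc hx)
    have hw' : (⇑D)^[n + 1 + d + 1] (E (c ^ (n + 1) * x - ld D (n + 1) x * r ^ (n + 1))) = 0 :=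
      iter_zero_of_le D hw (by omega)
    have hlam : (⇑D)^[d + 1] (E (ld D (n + 1) x)) = 0 := hker0 _ (D_ld hx)
    have hEc : (⇑D)^[d + 1] (E (c ^ (n + 1))) = 0 := hker0 _ hcn
    -- `E (λ r^(n+1))`
    have t1 : (⇑D)^[n + 1 + d + 1] (r ^ (n + 1) * E (ld D (n + 1) x)) = 0 :=
      (ld_mul (gr1_pow hr hc (n + 1)).1 hlam).1
    have t2 : (⇑D)^[n + (1 + d) + 1] (r ^ n * E r) = 0 := (ld_mul (gr1_pow hr hc n).1 hEr).1
    have t3 : (⇑D)^[n + 1 + d + 1] (x * E (c ^ (n + 1))) = 0 := (ld_mul hx hEc).1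
    have t4 : (⇑D)^[n + 1 + d + 1] (E (ld D (n + 1) x * r ^ (n + 1))) = 0 := by
      rw [Derivation.leibniz, smul_eq_mul, smul_eq_mul, gr1_iter_add, t1, add_zero,
        gr1_iter_cmul (D_ld hx), Derivation.leibniz_pow, Nat.add_sub_cancel, nsmul_eq_mul,
        smul_eq_mul, gr1_iter_cmul (D := D) (by simp), show n + 1 + d + 1 = n + (1 + d) + 1 by omega,
        t2, mul_zero, mul_zero]
    have t5 : (⇑D)^[n + 1 + d + 1] (E (c ^ (n + 1) * x)) = 0 := by
      have e : E (c ^ (n + 1) * x) = E (c ^ (n + 1) * x - ld D (n + 1) x * r ^ (n + 1)) +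
          E (ld D (n + 1) x * r ^ (n + 1)) := by rw [← map_add, sub_add_cancel]
      rw [e, gr1_iter_add, hw', t4, add_zero]
    rw [Derivation.leibniz, smul_eq_mul, smul_eq_mul, gr1_iter_add, t3, add_zero,
      gr1_iter_cmul hcn] at t5
    exact (mul_eq_zero.1 t5).resolve_left (pow_ne_zero _ hc0)

end Pool.Agent.LNDT
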