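import Mathlib
import Pool.Agent.LNDT.GDefs

set_option autoImplicit false

open Polynomial

namespace Pool.Agent.LNDT

variable {K : Type} [Field K] [CharZero K] (δ : Derivation ℤ K K) (θ : K) (d : ℕ)

theorem Dl_mul (n m : ℤ) (x y : K) :
    Dl δ θ (n + m) (x * y) = x * Dl δ θ m y + y * Dl δ θ n x := by
  simp only [Dl, Derivation.leibniz, smul_eq_mul, Int.cast_add]
  ring

private lemma gr2_Dl_zero (n : ℤ) : Dl δ θ n 0 = 0 := by simp [Dl]

private lemma gr2_Dl_sum {ι : Type} (s : Finset ι) (n : ℤ) (f : ι → K) (c : ι → ℕ) :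
    Dl δ θ n (∑ i ∈ s, (c i : K) * f i) = ∑ i ∈ s, (c i : K) * Dl δ θ n (f i) := by
  simp only [Dl, map_sum, Derivation.leibniz, smul_eq_mul, Derivation.map_natCast, mul_zero,
    add_zero, mul_add, Finset.sum_add_distrib, Finset.mul_sum]
  congr 1
  apply Finset.sum_congr rfl
  intro i _
  ring

private lemma gr2_It_zero (j : ℕ) (n : ℤ) : It δ θ d j n 0 = 0 := by
  induction j generalizing n with
  | zero => rfl
  | succ j ih => rw [It, gr2_Dl_zero, ih]

theorem It_succ' (j : ℕ) (n : ℤ) (x : K) :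
    It δ θ d (j + 1) n x = Dl δ θ (n + j * d) (It δ θ d j n x) := by
  induction j generalizing n x with
  | zero => simp [It]
  | succ j ih =>
    rw [It, ih, It]
    congr 1
    push_cast
    ring

theorem It_add (i j : ℕ) (n : ℤ) (x : K) :
    It δ θ d (i + j) n x = It δ θ d j (n + i * d) (It δ θ d i n x) := by
  induction j with
  | zero => rfl
  | succ j ih =>
    rw [← add_assoc, It_succ', ih, It_succ']
    congr 1
    push_cast
    ring

theorem It_zero_of_le {i j : ℕ} (hij : i ≤ j) {n : ℤ} {x : K} (hx : It δ θ d i n x = 0) :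
    It δ θ d j n x = 0 := by
  obtain ⟨k, rfl⟩ := Nat.exists_eq_add_of_le hij
  rw [It_add, hx, gr2_It_zero]

/-- Leibniz rule for the iterates -/
theorem It_mul (j : ℕ) (n m : ℤ) (x y : K) : It δ θ d j (n + m) (x * y) =
    ∑ i ∈ Finset.range (j + 1), (j.choose i : K) * (It δ θ d i n x * It δ θ d (j - i) m y) := by
  rw [← Nat.succ_eq_add_one, ← Finset.Nat.sum_antidiagonal_eq_sum_range_succ
    (fun a b => (j.choose a : K) * (It δ θ d a n x * It δ θ d b m y))]
  induction j with
  | zero => simp [It]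
  | succ j ih =>
    rw [It_succ', ih, gr2_Dl_sum,
      Finset.sum_antidiagonal_choose_succ_mul (fun a b => It δ θ d a n x * It δ θ d b m y),
      ← Finset.sum_add_distrib]
    apply Finset.sum_congr rfl
    intro p hp
    rw [Finset.HasAntidiagonal.mem_antidiagonal] at hp
    have e : n + m + (j : ℤ) * d = (n + p.1 * d) + (m + p.2 * d) := by
      rw [← hp]
      push_cast
      ring
    have e2 : j.choose p.1 = j.choose p.2 := by
      rw [← hp, Nat.choose_symm_add]
    rw [e, Dl_mul, ← It_succ', ← It_succ', ← e2]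
    ring

/-- the orders add up -/
theorem It_mul_top {i j : ℕ} {n m : ℤ} {x y : K} (hx : It δ θ d (i + 1) n x = 0)
    (hy : It δ θ d (j + 1) m y = 0) :
    It δ θ d (i + j) (n + m) (x * y) =
      ((i + j).choose i : K) * (It δ θ d i n x * It δ θ d j m y) ∧
    It δ θ d (i + j + 1) (n + m) (x * y) = 0 := by
  constructor
  · rw [It_mul, Finset.sum_eq_single i]
    · rw [Nat.add_sub_cancel_left]
    · intro l _ hl
      rcases Nat.lt_or_ge i l with h1 | h1
      · rw [It_zero_of_le δ θ d h1 hx, zero_mul, mul_zero]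
      · rw [It_zero_of_le δ θ d (show j + 1 ≤ i + j - l by omega) hy, mul_zero, mul_zero]
    · intro hi
      exact absurd (Finset.mem_range.2 (by omega)) hi
  · rw [It_mul]
    apply Finset.sum_eq_zero
    intro l _
    rcases Nat.lt_or_ge i l with h1 | h1
    · rw [It_zero_of_le δ θ d h1 hx, zero_mul, mul_zero]
    · rw [It_zero_of_le δ θ d (show j + 1 ≤ i + j + 1 - l by omega) hy, mul_zero, mul_zero]

private lemma gr2_order {n : ℤ} {x : K} (hx0 : x ≠ 0) (hx : ∃ j, It δ θ d j n x = 0) :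
    ∃ i, It δ θ d i n x ≠ 0 ∧ It δ θ d (i + 1) n x = 0 := by
  classical
  have h1 := Nat.find_spec hx
  have h2 : Nat.find hx ≠ 0 := by
    intro h0
    rw [h0] at h1
    exact hx0 h1
  obtain ⟨i, hi⟩ := Nat.exists_eq_succ_of_ne_zero h2
  refine ⟨i, Nat.find_min hx (by omega), ?_⟩
  rw [← Nat.succ_eq_add_one, ← hi]
  exact h1

/-- no eigenvalues: if `Dl n x = x * y` with nilpotent `x ≠ 0`, `y` (of degree `d`) then `y = 0` -/
theorem no_eigen {n : ℤ} {x y : K} (hx0 : x ≠ 0) (hx : ∃ j, It δ θ d j n x = 0)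
    (hy : ∃ j, It δ θ d j d y = 0) (h : Dl δ θ n x = x * y) : y = 0 := by
  by_contra hy0
  obtain ⟨i, hi, hi1⟩ := gr2_order δ θ d hx0 hx
  obtain ⟨j, hj, hj1⟩ := gr2_order δ θ d hy0 hy
  have h1 := (It_mul_top δ θ d hi1 hj1).1
  have h2 : It δ θ d (i + j) (n + d) (x * y) = It δ θ d (i + j + 1) n x := by
    rw [← h]
    rfl
  rw [h2, It_zero_of_le δ θ d (show i + 1 ≤ i + j + 1 by omega) hi1] at h1
  have h3 : ((i + j).choose i : K) ≠ 0 := by
    exact_mod_cast (Nat.choose_pos (by omega)).ne'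
  exact mul_ne_zero h3 (mul_ne_zero hi hj) h1.symm

end Pool.Agent.LNDT
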