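import Mathlib
import Pool.Agent.LNDT.GDefs

set_option autoImplicit false

open Polynomial

namespace Pool.Agent.LNDT

open Pool.Agent.LNDHom

/-- extension of a derivation to the field of fractions -/
theorem exists_ext {A F : Type} [CommRing A] [IsDomain A] [Field F] [Algebra A F]
    [IsFractionRing A F] (δ : Derivation ℤ A A) :
    ∃ δ' : Derivation ℤ F F, ∀ a, δ' (algebraMap A F a) = algebraMap A F (δ a) := by
  classical
  let j : A →+* TrivSqZeroExt F F :=
    { toFun := fun a => (algebraMap A F a, algebraMap A F (δ a))
      map_one' := by
        apply TrivSqZeroExt.ext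
        · show algebraMap A F 1 = _
          rw [map_one, TrivSqZeroExt.fst_one]
        · show algebraMap A F (δ 1) = _
          rw [Derivation.map_one_eq_zero, map_zero, TrivSqZeroExt.snd_one]
      map_mul' := by
        intro a b
        apply TrivSqZeroExt.ext
        · rw [TrivSqZeroExt.fst_mul]
          show algebraMap A F (a * b) = algebraMap A F a * algebraMap A F b
          rw [map_mul]
        · rw [TrivSqZeroExt.snd_mul]
          show algebraMap A F (δ (a * b)) = algebraMap A F a • algebraMap A F (δ b) +
            MulOpposite.op (algebraMap A F b) • algebraMap A F (δ a)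
          rw [Derivation.leibniz, map_add]
          simp only [smul_eq_mul, map_mul, MulOpposite.smul_eq_mul_unop, MulOpposite.unop_op]
          ring
      map_zero' := by
        apply TrivSqZeroExt.ext
        · show algebraMap A F 0 = _
          rw [map_zero, TrivSqZeroExt.fst_zero]
        · show algebraMap A F (δ 0) = _
          rw [map_zero, map_zero, TrivSqZeroExt.snd_zero]
      map_add' := by
        intro a b
        apply TrivSqZeroExt.ext
        · rw [TrivSqZeroExt.fst_add]
          show algebraMap A F (a + b) = algebraMap A F a + algebraMap A F b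
          rw [map_add]
        · rw [TrivSqZeroExt.snd_add]
          show algebraMap A F (δ (a + b)) = algebraMap A F (δ a) + algebraMap A F (δ b)
          rw [map_add, map_add] }
  have hj1 : ∀ a, (j a).fst = algebraMap A F a := fun a => rfl
  have hj2 : ∀ a, (j a).snd = algebraMap A F (δ a) := fun a => rfl
  have hj : ∀ y : nonZeroDivisors A, IsUnit (j y) := by
    intro y
    rw [TrivSqZeroExt.isUnit_iff_isUnit_fst, hj1]
    exact IsUnit.mk0 _ (by
      intro h0
      exact nonZeroDivisors.coe_ne_zero y ((IsFractionRing.injective A F) (by rw [h0, map_zero])))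
  let J : F →+* TrivSqZeroExt F F := IsLocalization.lift hj
  have hJ : ∀ a, J (algebraMap A F a) = j a := fun a => IsLocalization.lift_eq hj a
  have hfst : ∀ x, (J x).fst = x := by
    have h1 : ((TrivSqZeroExt.fstHom ℤ F F).toRingHom.comp J) = RingHom.id F := by
      apply IsLocalization.ringHom_ext (nonZeroDivisors A)
      ext a
      show (J (algebraMap A F a)).fst = algebraMap A F a
      rw [hJ]; exact hj1 a
    intro x
    exact congrArg (fun f : F →+* F => f x) h1
  let L : F →+ F :=
    { toFun := fun x => (J x).snd
      map_zero' := by rw [map_zero]; rfl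
      map_add' := by intro x y; rw [map_add]; rfl }
  refine ⟨Derivation.mk' L.toIntLinearMap ?_, ?_⟩
  · intro a b
    show (J (a * b)).snd = a • (J b).snd + b • (J a).snd
    rw [map_mul, TrivSqZeroExt.snd_mul, hfst, hfst]
    simp only [smul_eq_mul, MulOpposite.smul_eq_mul_unop, MulOpposite.unop_op]
    ring
  · intro a
    show (J (algebraMap A F a)).snd = _
    rw [hJ]; exact hj2 a

end Pool.Agent.LNDT
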