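import Mathlib
import Pool.Agent.LNDT.GDefs
import Pool.Agent.LNDT.Gr1
import Pool.Agent.LNDT.Gr2
import Pool.Agent.LNDT.IclA

set_option autoImplicit false

open Polynomial

namespace Pool.Agent.LNDT

open Pool.Agent.LNDHom

namespace Ic

variable {k B : Type} [Field k] [CharZero k] [CommRing B] [IsDomain B] [Algebra k B]
  {D E : Derivation k B B}

omit [IsDomain B] [CharZero k] in
theorem ld_zero_eq (x : B) : ld D 0 x = x := by simp [ld]

omit [IsDomain B] [CharZero k] in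
theorem ld_map_zero (n : ℕ) : ld D n (0 : B) = 0 := by
  simp only [ld, iterate_map_zero, smul_zero]

omit [IsDomain B] [CharZero k] in
theorem it_add {n : ℕ} {x y : B} (hx : (⇑D)^[n] x = 0) (hy : (⇑D)^[n] y = 0) :
    (⇑D)^[n] (x + y) = 0 := by
  rw [iterate_map_add, hx, hy, add_zero]

theorem ld_pow {N : ℕ} {G : B} (hG : (⇑D)^[N + 1] G = 0) (e : ℕ) :
    (⇑D)^[e * N + 1] (G ^ e) = 0 ∧ ld D (e * N) (G ^ e) = (ld D N G) ^ e := by
  induction e with
  | zero =>
    rw [zero_mul, pow_zero, pow_zero, ld_zero_eq]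
    refine ⟨?_, rfl⟩
    simp
  | succ e ih =>
    obtain ⟨h1, h2⟩ := ld_mul ih.1 hG
    have e1 : (e + 1) * N = e * N + N := by ring
    rw [e1, pow_succ, pow_succ, h2, ih.2]
    exact ⟨h1, rfl⟩

theorem ld_cmul' {m : ℕ} {a y : B} (ha : D a = 0) (hy : (⇑D)^[m + 1] y = 0) :
    (⇑D)^[m + 1] (a * y) = 0 ∧ ld D m (a * y) = a * ld D m y := by
  have h0 : (⇑D)^[0 + 1] a = 0 := by simpa using ha
  obtain ⟨h1, h2⟩ := ld_mul h0 hy
  rw [zero_add] at h1 h2
  rw [ld_zero_eq] at h2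
  exact ⟨h1, h2⟩

/-- the derivation on the kernel -/
theorem exists_dA {d : ℕ} (hd : BdE D E d) : ∃ δA : Derivation ℤ (kerAlg D) (kerAlg D),
    ∀ a, ((δA a : kerAlg D) : B) = ld D d (E a) := by
  have hm : ∀ a : kerAlg D, D (ld D d (E a)) = 0 := by
    intro a
    apply D_ld
    have h1 := hd 0 (a : B) (show D (a : B) = 0 from a.2)
    rwa [zero_add] at h1
  let L : kerAlg D →+ kerAlg D :=
    { toFun := fun a => ⟨ld D d (E a), hm a⟩
      map_zero' := by
        apply Subtype.ext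
        show ld D d (E ((0 : kerAlg D) : B)) = 0
        rw [ZeroMemClass.coe_zero, map_zero, ld_map_zero]
      map_add' := by
        intro a b
        apply Subtype.ext
        show ld D d (E ((a + b : kerAlg D) : B)) = ld D d (E a) + ld D d (E b)
        rw [AddMemClass.coe_add, map_add, ld_add] }
  refine ⟨Derivation.mk' L.toIntLinearMap ?_, fun a => rfl⟩
  intro a b
  apply Subtype.ext
  show ld D d (E ((a * b : kerAlg D) : B)) = ((a • L b + b • L a : kerAlg D) : B)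
  have h1 := phi_mul hd (n := 0) (m := 0) (x := (a : B)) (y := (b : B))
    (show D (a : B) = 0 from a.2) (show D (b : B) = 0 from b.2)
  simp only [zero_add, ld_zero_eq] at h1
  rw [MulMemClass.coe_mul, h1]
  rfl

/-- everything about `δ`, `θ`, `d` -/
structure Cx {F : Type} (D E : Derivation k B B) [Field F] [Algebra (kerAlg D) F]
    (δ : Derivation ℤ F F) (θ : F) (d : ℕ) : Prop where
  bd : BdE D E d
  phi : ∀ (n : ℕ) (x : B) (a b : kerAlg D), (⇑D)^[n + 1] x = 0 → (a : B) = ld D n x →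
    (b : B) = ld D (n + d) (E x) →
      Dl δ θ n (algebraMap (kerAlg D) F a) = algebraMap (kerAlg D) F b
  lndE : ∀ x, ∃ n, (⇑E)^[n] x = 0

variable {F : Type} [Field F] [Algebra (kerAlg D) F] [IsFractionRing (kerAlg D) F]

theorem exists_cx {d : ℕ} (hd : BdE D E d) (hE : ∀ x, ∃ n, (⇑E)^[n] x = 0) {r : B}
    {c : kerAlg D} (hr : D r = c) (hc0 : c ≠ 0) :
    ∃ (δ : Derivation ℤ F F) (θ : F), Cx D E δ θ d ∧
      ∀ a b : kerAlg D, (b : B) = ld D d (E a) →
        δ (algebraMap (kerAlg D) F a) = algebraMap (kerAlg D) F b := by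
  obtain ⟨δA, hA⟩ := exists_dA hd
  obtain ⟨δ, hδ⟩ := exists_ext (F := F) δA
  have hcB : D (c : B) = 0 := c.2
  have hr2 : (⇑D)^[1 + 1] r = 0 := by
    show D (D r) = 0
    rw [hr]; exact hcB
  obtain ⟨tr, htr⟩ : ∃ tr : kerAlg D, (tr : B) = ld D (1 + d) (E r) := by
    refine ⟨⟨ld D (1 + d) (E r), ?_⟩, rfl⟩
    exact D_ld (hd 1 r hr2)
  have hc0B : (c : B) ≠ 0 := by
    intro h0
    exact hc0 (Subtype.ext h0)
  have hι : Function.Injective (algebraMap (kerAlg D) F) := IsFractionRing.injective _ _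
  have hιc : algebraMap (kerAlg D) F c ≠ 0 := by
    intro h0
    exact hc0 (hι (by rw [h0, map_zero]))
  refine ⟨δ, (algebraMap (kerAlg D) F tr - δ (algebraMap (kerAlg D) F c)) /
    algebraMap (kerAlg D) F c, ⟨hd, ?_, hE⟩, ?_⟩
  · intro n x a b hx ha hb
    have h1 := phi_formula hd hr hcB hc0B hx
    have h2 : c * b = c * δA a + (n : kerAlg D) * a * (tr - δA c) := by
      apply Subtype.ext
      push_cast
      rw [hA, hA, htr, hb, h1, ha]
    have h3 := congrArg (algebraMap (kerAlg D) F) h2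
    rw [map_add, map_mul, map_mul, map_mul, map_mul, map_sub, map_natCast, ← hδ, ← hδ] at h3
    simp only [Dl]
    apply mul_left_cancel₀ hιc
    rw [h3]
    push_cast
    field_simp
  · intro a b hb
    rw [hδ]
    congr 1
    apply Subtype.ext
    rw [hA, hb]

omit [IsFractionRing (kerAlg D) F] in
theorem Cx.it {δ : Derivation ℤ F F} {θ : F} {d : ℕ} (C : Cx D E δ θ d) (j : ℕ) :
    ∀ (n : ℕ) (x : B) (a b : kerAlg D), (⇑D)^[n + 1] x = 0 → (a : B) = ld D n x →
    (b : B) = ld D (n + j * d) ((⇑E)^[j] x) →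
      It δ θ d j n (algebraMap (kerAlg D) F a) = algebraMap (kerAlg D) F b := by
  induction j with
  | zero =>
    intro n x a b _ ha hb
    have : a = b := by
      apply Subtype.ext
      rw [ha, hb, zero_mul, add_zero]; rfl
    rw [this]; rfl
  | succ j ih =>
    intro n x a b hx ha hb
    have hx1 := C.bd n x hx
    obtain ⟨a', ha'⟩ : ∃ a' : kerAlg D, (a' : B) = ld D (n + d) (E x) := ⟨⟨_, D_ld hx1⟩, rfl⟩
    have h1 := C.phi n x a a' hx ha ha'
    show It δ θ d j ((n : ℤ) + d) (Dl δ θ n (algebraMap (kerAlg D) F a)) = _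
    rw [h1, show ((n : ℤ) + d) = ((n + d : ℕ) : ℤ) by push_cast; rfl]
    apply ih (n + d) (E x) a' b hx1 ha'
    rw [hb, Function.iterate_succ_apply]
    congr 1
    ring

omit [IsFractionRing (kerAlg D) F] in
theorem Cx.nil {δ : Derivation ℤ F F} {θ : F} {d : ℕ} (C : Cx D E δ θ d) (n : ℕ) (x : B)
    (a : kerAlg D) (hx : (⇑D)^[n + 1] x = 0) (ha : (a : B) = ld D n x) :
    ∃ j, It δ θ d j n (algebraMap (kerAlg D) F a) = 0 := by
  obtain ⟨j, hj⟩ := C.lndE x
  refine ⟨j, ?_⟩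
  have h1 := C.it j n x a 0 hx ha (by rw [hj, ld_map_zero]; rfl)
  rw [h1, map_zero]

end Ic

end Pool.Agent.LNDT
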