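import Mathlib
import Pool.Agent.LNDT.GDefs
import Pool.Agent.LNDT.Gr1
import Pool.Agent.LNDT.Gr2
import Pool.Agent.LNDT.IclB

set_option autoImplicit false

open Polynomial

namespace Pool.Agent.LNDT

open Pool.Agent.LNDHom

namespace Ic

variable {k B : Type} [Field k] [CharZero k] [CommRing B] [IsDomain B] [Algebra k B]
  {D E : Derivation k B B} {F : Type} [Field F] [Algebra (kerAlg D) F]
  [IsFractionRing (kerAlg D) F] {δ : Derivation ℤ F F} {θ : F} {d N : ℕ}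

/-- `c1 * h ^ j * x` is a leading coefficient of degree `n + j N` -/
def Rp (D : Derivation k B B) [Algebra (kerAlg D) F] (δ : Derivation ℤ F F) (N : ℕ) (h : F)
    (n : ℤ) (x : F) (c1 : kerAlg D) (j : ℕ) : Prop :=
  c1 ≠ 0 ∧ δ (algebraMap (kerAlg D) F c1) = 0 ∧ ∃ (m : ℕ) (y : B) (a : kerAlg D),
    (m : ℤ) = n + j * N ∧ (⇑D)^[m + 1] y = 0 ∧ (a : B) = ld D m y ∧
    algebraMap (kerAlg D) F c1 * h ^ j * x = algebraMap (kerAlg D) F a

omit [IsDomain B] [CharZero k] [IsFractionRing (kerAlg D) F] in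
theorem del_mul {x y : F} (hx : δ x = 0) (hy : δ y = 0) : δ (x * y) = 0 := by
  rw [Derivation.leibniz, hx, hy, smul_zero, smul_zero, add_zero]

omit [IsFractionRing (kerAlg D) F] in
theorem Rp.raise {h : F} {G : B} {g0 : kerAlg D} (hG : (⇑D)^[N + 1] G = 0)
    (hg0 : (g0 : B) = ld D N G) (hh : h = algebraMap (kerAlg D) F g0) {n : ℤ} {x : F}
    {c1 : kerAlg D} {j : ℕ} (H : Rp D δ N h n x c1 j) {c2 : kerAlg D} (hc2 : c2 ≠ 0)
    (hd2 : δ (algebraMap (kerAlg D) F c2) = 0) (e : ℕ) : Rp D δ N h n x (c1 * c2) (j + e) := by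
  obtain ⟨h1, h2, m, y, a, hm, hy, ha, hx⟩ := H
  have hp := ld_pow hG e
  obtain ⟨h3, h4⟩ := ld_mul hp.1 hy
  obtain ⟨h5, h6⟩ := ld_cmul' (show D (c2 : B) = 0 from c2.2) h3
  refine ⟨mul_ne_zero h1 hc2, by rw [map_mul]; exact del_mul h2 hd2, e * N + m,
    c2 * (G ^ e * y), c2 * (g0 ^ e * a), ?_, h5, ?_, ?_⟩
  · push_cast
    rw [hm]; ring
  · rw [h6, h4, hp.2]
    push_cast
    rw [hg0, ha]
  · rw [map_mul, map_mul, map_mul, map_pow, ← hh, ← hx]
    ring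

omit [IsDomain B] [CharZero k] [IsFractionRing (kerAlg D) F] in
theorem Rp.add [CharZero k] {h : F} {n : ℤ} {x x' : F} {c1 : kerAlg D} {j : ℕ}
    (H : Rp D δ N h n x c1 j) (H' : Rp D δ N h n x' c1 j) : Rp D δ N h n (x + x') c1 j := by
  obtain ⟨h1, h2, m, y, a, hm, hy, ha, hx⟩ := H
  obtain ⟨_, _, m', y', a', hm', hy', ha', hx'⟩ := H'
  obtain rfl : m = m' := by
    have : (m : ℤ) = m' := by rw [hm, hm']
    exact_mod_cast this
  refine ⟨h1, h2, m, y + y', a + a', hm, it_add hy hy', ?_, ?_⟩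
  · rw [AddMemClass.coe_add, ha, ha']
    simp only [ld, iterate_map_add, smul_add]
  · rw [mul_add, hx, hx', map_add]

omit [IsDomain B] [CharZero k] [IsFractionRing (kerAlg D) F] in
theorem Rp.neg {h : F} {n : ℤ} {x : F} {c1 : kerAlg D} {j : ℕ}
    (H : Rp D δ N h n x c1 j) : Rp D δ N h n (-x) c1 j := by
  obtain ⟨h1, h2, m, y, a, hm, hy, ha, hx⟩ := H
  refine ⟨h1, h2, m, -y, -a, hm, ?_, ?_, ?_⟩
  · rw [iterate_map_neg, hy, neg_zero]
  · rw [NegMemClass.coe_neg, ha]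
    simp only [ld, iterate_map_neg, smul_neg]
  · rw [mul_neg, hx, map_neg]

/-- the graded pieces -/
def Is {h : F} {G : B} {g0 : kerAlg D} (hN : 0 < N) (hG : (⇑D)^[N + 1] G = 0)
    (hg0 : (g0 : B) = ld D N G) (hh : h = algebraMap (kerAlg D) F g0) (δ : Derivation ℤ F F)
    (n : ℤ) : AddSubgroup F where
  carrier := {x | ∃ c1 j, Rp D δ N h n x c1 j}
  zero_mem' := by
    have h0 : 0 ≤ n + (n.natAbs : ℕ) * N := by
      have h1 : (1 : ℤ) ≤ N := by exact_mod_cast hN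
      have h2 : -n ≤ (n.natAbs : ℕ) := by omega
      have h3 : (0 : ℤ) ≤ (n.natAbs : ℕ) := by positivity
      nlinarith
    refine ⟨1, n.natAbs, one_ne_zero, by rw [map_one]; exact Derivation.map_one_eq_zero δ,
      (n + (n.natAbs : ℕ) * N).toNat, 0, 0, by omega, iterate_map_zero _ _, ?_, ?_⟩
    · rw [ld_map_zero]; rfl
    · rw [mul_zero, map_zero]
  add_mem' := by
    rintro x x' ⟨c1, j, h1⟩ ⟨c1', j', h2⟩
    refine ⟨c1 * c1', j + j', (h1.raise hG hg0 hh h2.1 h2.2.1 j').add ?_⟩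
    have := h2.raise hG hg0 hh h1.1 h1.2.1 j
    rwa [mul_comm c1', add_comm j'] at this
  neg_mem' := by
    rintro x ⟨c1, j, h1⟩
    exact ⟨c1, j, h1.neg⟩

variable {h : F} {G : B} {g0 : kerAlg D} (hN : 0 < N) (hG : (⇑D)^[N + 1] G = 0)
    (hg0 : (g0 : B) = ld D N G) (hh : h = algebraMap (kerAlg D) F g0)

omit [IsFractionRing (kerAlg D) F] in
theorem mem_Is (n : ℤ) (x : F) :
    x ∈ Is hN hG hg0 hh δ n ↔ ∃ c1 j, Rp D δ N h n x c1 j := Iff.rfl

include hh in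
omit [IsDomain B] [CharZero k] in
theorem h_ne (hg : g0 ≠ 0) : h ≠ 0 := by
  rw [hh]
  intro h0
  exact hg ((IsFractionRing.injective (kerAlg D) F) (by rw [h0, map_zero]))

omit [IsDomain B] [CharZero k] in
theorem i_ne {c1 : kerAlg D} (hg : c1 ≠ 0) : algebraMap (kerAlg D) F c1 ≠ 0 := by
  intro h0
  exact hg ((IsFractionRing.injective (kerAlg D) F) (by rw [h0, map_zero]))

/-- freeness, repeated -/
theorem free_pow (free : ∀ (n : ℕ) (x : B), (⇑D)^[n + N + 1] x = 0 →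
    ∃ y, (⇑D)^[n + 1] y = 0 ∧ ld D (n + N) x = ld D N G * ld D n y) (j : ℕ) :
    ∀ (n : ℕ) (x : B), (⇑D)^[n + j * N + 1] x = 0 →
    ∃ y, (⇑D)^[n + 1] y = 0 ∧ ld D (n + j * N) x = (ld D N G) ^ j * ld D n y := by
  induction j with
  | zero =>
    intro n x hx
    rw [zero_mul, add_zero] at hx ⊢
    exact ⟨x, hx, by rw [pow_zero, one_mul]⟩
  | succ j ih =>
    intro n x hx
    have e : n + (j + 1) * N = n + j * N + N := by ring
    rw [e] at hx ⊢
    obtain ⟨y, hy, h1⟩ := free (n + j * N) x hx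
    obtain ⟨z, hz, h2⟩ := ih n y hy
    refine ⟨z, hz, ?_⟩
    rw [h1, h2, pow_succ]; ring

end Ic

end Pool.Agent.LNDT
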