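import Mathlib
import Pool.Agent.LNDT.GDefs
import Pool.Agent.LNDT.Gr2

set_option autoImplicit false
set_option linter.unusedSectionVars false
set_option linter.unusedVariables false

open Polynomial

namespace Pool.Agent.LNDT

variable {K : Type} [Field K] [CharZero K] {δ : Derivation ℤ K K} {θ : K} {d : ℕ}
  {I : ℤ → AddSubgroup K} {N : ℕ} {h c : K}

/-! ### additivity of the operators -/

theorem sl_Dl_zero (n : ℤ) : Dl δ θ n (0 : K) = 0 := by
  simp [Dl]

theorem sl_Dl_add (n : ℤ) (x y : K) : Dl δ θ n (x + y) = Dl δ θ n x + Dl δ θ n y := by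
  simp only [Dl, map_add]; ring

theorem sl_It_zero (j : ℕ) (n : ℤ) : It δ θ d j n (0 : K) = 0 := by
  induction j generalizing n with
  | zero => rfl
  | succ j ih => simp only [It, sl_Dl_zero]; exact ih _

theorem sl_It_add (j : ℕ) (n : ℤ) (x y : K) :
    It δ θ d j n (x + y) = It δ θ d j n x + It δ θ d j n y := by
  induction j generalizing n x y with
  | zero => rfl
  | succ j ih => simp only [It, sl_Dl_add]; exact ih _ _ _

theorem sl_It_neg (j : ℕ) (n : ℤ) (x : K) : It δ θ d j n (-x) = -It δ θ d j n x := by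
  have := sl_It_add (δ := δ) (θ := θ) (d := d) j n x (-x)
  rw [add_neg_cancel, sl_It_zero] at this
  exact (neg_eq_of_add_eq_zero_right this.symm).symm

theorem sl_It_sub (j : ℕ) (n : ℤ) (x y : K) :
    It δ θ d j n (x - y) = It δ θ d j n x - It δ θ d j n y := by
  rw [sub_eq_add_neg, sl_It_add, sl_It_neg, sub_eq_add_neg]

theorem sl_It_sum {ι : Type} (s : Finset ι) (f : ι → K) (j : ℕ) (n : ℤ) :
    It δ θ d j n (∑ i ∈ s, f i) = ∑ i ∈ s, It δ θ d j n (f i) := by
  classical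
  induction s using Finset.induction_on with
  | empty => simp [sl_It_zero]
  | insert a s ha ih => rw [Finset.sum_insert ha, Finset.sum_insert ha, sl_It_add, ih]

theorem sl_It_one (n : ℤ) (x : K) : It δ θ d 1 n x = Dl δ θ n x := rfl

theorem sl_It_mem (H : GrData δ θ d I N h c) (j : ℕ) {n : ℤ} {x : K} (hx : x ∈ I n) :
    It δ θ d j n x ∈ I (n + j * d) := by
  induction j generalizing n x with
  | zero => simpa [It] using hx
  | succ j ih =>
    have := ih (H.dl_mem n x hx)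
    simp only [It]
    convert this using 2
    push_cast; ring

/-! ### homogeneous constants -/

/-- homogeneous constants of degree `n` -/
def Zc (δ : Derivation ℤ K K) (θ : K) (I : ℤ → AddSubgroup K) (n : ℤ) (x : K) : Prop :=
  x ∈ I n ∧ Dl δ θ n x = 0

theorem Zc.add {n : ℤ} {x y : K} (hx : Zc δ θ I n x) (hy : Zc δ θ I n y) : Zc δ θ I n (x + y) :=
  ⟨(I n).add_mem hx.1 hy.1, by rw [sl_Dl_add, hx.2, hy.2, add_zero]⟩

theorem Zc.zero (n : ℤ) : Zc δ θ I n (0 : K) := ⟨(I n).zero_mem, sl_Dl_zero n⟩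

theorem Zc.mul (H : GrData δ θ d I N h c) {n m : ℤ} {x y : K} (hx : Zc δ θ I n x)
    (hy : Zc δ θ I m y) : Zc δ θ I (n + m) (x * y) :=
  ⟨H.mul_mem _ _ _ _ hx.1 hy.1, by rw [Dl_mul, hx.2, hy.2]; ring⟩

theorem Zc.one (H : GrData δ θ d I N h c) : Zc δ θ I 0 (1 : K) :=
  ⟨H.one_mem, by simp [Dl]⟩

theorem Zc.pow (H : GrData δ θ d I N h c) {n : ℤ} {x : K} (hx : Zc δ θ I n x) (i : ℕ) :
    Zc δ θ I (i * n) (x ^ i) := by
  induction i with
  | zero => simpa using Zc.one H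
  | succ i ih =>
    have := ih.mul H hx
    rw [pow_succ]
    convert this using 1
    push_cast; ring

theorem Zc.nat (H : GrData δ θ d I N h c) (i : ℕ) : Zc δ θ I 0 (i : K) := by
  induction i with
  | zero => simpa using Zc.zero (δ := δ) (θ := θ) (I := I) 0
  | succ i ih => simpa using ih.add (Zc.one H)

theorem zc_of_eq {n m : ℤ} {x : K} (hx : Zc δ θ I n x) (e : n = m) : Zc δ θ I m x := e ▸ hx

/-- homogeneous constants are units: `x ^ N * h ^ (-n)` is a constant of degree zero -/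
theorem Zc.inv (H : GrData δ θ d I N h c) {n : ℤ} {x : K} (hx : Zc δ θ I n x) (hx0 : x ≠ 0) :
    Zc δ θ I (-n) x⁻¹ := by
  -- `h⁻¹` is a constant
  have key : ∀ (n : ℤ) (x : K), x ≠ 0 → x⁻¹ ∈ I (-n) → Dl δ θ n x = 0 → Zc δ θ I (-n) x⁻¹ := by
    intro n x hx0 hm hd
    refine ⟨hm, ?_⟩
    have h1 := Dl_mul δ θ n (-n) x x⁻¹
    rw [mul_inv_cancel₀ hx0, hd, add_neg_cancel] at h1
    have h2 : Dl δ θ 0 (1 : K) = 0 := by simp [Dl]
    rw [h2, mul_zero, add_zero] at h1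
    rcases mul_eq_zero.mp h1.symm with h3 | h3
    · exact absurd h3 hx0
    · exact h3
  have hh : Zc δ θ I N h := ⟨H.h_mem, H.h_const⟩
  have hhi : Zc δ θ I (-N) h⁻¹ := key N h H.h_ne H.h_inv H.h_const
  -- the integral powers of `h`
  have hz : ∀ n : ℤ, Zc δ θ I (n * N) (h ^ n) := by
    intro n
    rcases Int.eq_nat_or_neg n with ⟨i, rfl | rfl⟩
    · rw [zpow_natCast]; exact hh.pow H i
    · rw [zpow_neg, zpow_natCast, ← inv_pow]
      exact zc_of_eq (hhi.pow H i) (by ring)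
  obtain ⟨M, hM⟩ : ∃ M, N = M + 1 := ⟨N - 1, by have := H.N_pos; omega⟩
  have hy : Zc δ θ I 0 (x ^ N * h ^ (-n)) :=
    zc_of_eq ((hx.pow H N).mul H (hz (-n))) (by ring)
  have hy0 : x ^ N * h ^ (-n) ≠ 0 := mul_ne_zero (pow_ne_zero _ hx0) (zpow_ne_zero _ H.h_ne)
  have hyi : Zc δ θ I 0 (x ^ N * h ^ (-n))⁻¹ := by
    have h1 : δ (x ^ N * h ^ (-n)) = 0 := by
      have := hy.2
      simpa [Dl] using this
    have h2 := H.inv0 _ hy.1 hy0 h1
    have := key 0 _ hy0 (by simpa using h2) hy.2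
    simpa using this
  have e : x⁻¹ = x ^ M * h ^ (-n) * (x ^ N * h ^ (-n))⁻¹ := by
    rw [hM, pow_succ]
    have : h ^ (-n) ≠ 0 := zpow_ne_zero _ H.h_ne
    field_simp
  rw [e]
  refine zc_of_eq (((hx.pow H M).mul H (hz (-n))).mul H hyi) ?_
  rw [hM]; push_cast; ring

theorem Zc.zpow (H : GrData δ θ d I N h c) {n : ℤ} {x : K} (hx : Zc δ θ I n x) (hx0 : x ≠ 0)
    (i : ℤ) : Zc δ θ I (i * n) (x ^ i) := by
  rcases Int.eq_nat_or_neg i with ⟨j, rfl | rfl⟩
  · rw [zpow_natCast]; exact hx.pow H j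
  · rw [zpow_neg, zpow_natCast, ← inv_pow]
    exact zc_of_eq ((hx.inv H hx0).pow H j) (by ring)

/-- homogeneous constants are units: `x ^ N * h ^ (-n)` is a constant of degree zero -/
theorem GrData.inv_mem (H : GrData δ θ d I N h c) {n : ℤ} {x : K} (hx : x ∈ I n) (hx0 : x ≠ 0)
    (hc : Dl δ θ n x = 0) : x⁻¹ ∈ I (-n) ∧ Dl δ θ (-n) x⁻¹ = 0 :=
  Zc.inv H ⟨hx, hc⟩ hx0

/-- a slice: an element `s` of some degree `σ` whose image is a nonzero constant -/
theorem GrData.exists_slice (H : GrData δ θ d I N h c) :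
    ∃ (σ : ℤ) (s : K), s ∈ I σ ∧ Dl δ θ σ s ≠ 0 ∧ Dl δ θ (σ + d) (Dl δ θ σ s) = 0 := by
  classical
  obtain ⟨x, hx, hx1⟩ := H.act
  have hex := H.nil 0 x hx
  set j := Nat.find hex with hj
  have hj0 : It δ θ d j 0 x = 0 := Nat.find_spec hex
  have hmin : ∀ i, i < j → It δ θ d i 0 x ≠ 0 := fun i hi => Nat.find_min hex hi
  have hD : Dl δ θ 0 x ≠ 0 := by simpa [Dl] using hx1
  have hx0 : x ≠ 0 := by
    rintro rfl
    exact hD (sl_Dl_zero 0)
  have h2 : 2 ≤ j := by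
    by_contra hlt
    have : j = 0 ∨ j = 1 := by omega
    rcases this with e | e
    · rw [e] at hj0; exact hx0 hj0
    · rw [e, sl_It_one] at hj0; exact hD hj0
  obtain ⟨m, hm⟩ : ∃ m, j = m + 2 := ⟨j - 2, by omega⟩
  refine ⟨0 + m * d, It δ θ d m 0 x, sl_It_mem H m hx, ?_, ?_⟩
  · have := hmin (m + 1) (by omega)
    rwa [It_succ'] at this
  · have := hj0
    rw [hm, show m + 2 = (m + 1) + 1 from rfl, It_succ', It_succ'] at this
    convert this using 2
    push_cast; ring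

/-! ### powers of the slice -/

theorem sl_It_const_mul {k : K} {n : ℤ} (hk : Dl δ θ n k = 0) (j : ℕ) (m : ℤ) (x : K) :
    It δ θ d j (n + m) (k * x) = k * It δ θ d j m x := by
  induction j generalizing m x with
  | zero => rfl
  | succ j ih =>
    simp only [It]
    rw [Dl_mul, hk, mul_zero, add_zero, add_assoc]
    exact ih _ _

theorem sl_It_pow {σ : ℤ} {s : K} (hs2 : Dl δ θ (σ + d) (Dl δ θ σ s) = 0) (m : ℕ) :
    It δ θ d m (m * σ) (s ^ m) = (m.factorial : K) * Dl δ θ σ s ^ m ∧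
    It δ θ d (m + 1) (m * σ) (s ^ m) = 0 := by
  induction m with
  | zero => simp [It, Dl]
  | succ m ih =>
    have hs : It δ θ d (1 + 1) σ s = 0 := by simpa [It] using hs2
    have := It_mul_top δ θ d (i := m) (j := 1) (n := m * σ) (m := σ) ih.2 hs
    have e : ((m + 1 : ℕ) : ℤ) * σ = m * σ + σ := by push_cast; ring
    rw [e, pow_succ]
    refine ⟨?_, this.2⟩
    rw [this.1, ih.1, sl_It_one, pow_succ, Nat.factorial_succ]
    have h3 : ((m + 1).choose m : ℕ) = m + 1 := by simp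
    rw [h3]; push_cast; ring

/-- expansion in powers of the slice with constant coefficients -/
theorem GrData.expand (H : GrData δ θ d I N h c) {σ : ℤ} {s : K} (hs : s ∈ I σ)
    (hs1 : Dl δ θ σ s ≠ 0) (hs2 : Dl δ θ (σ + d) (Dl δ θ σ s) = 0) {n : ℤ} {x : K} (hx : x ∈ I n) :
    ∃ P : K[X], (∀ i : ℕ, P.coeff i ∈ I (n - i * σ) ∧ Dl δ θ (n - i * σ) (P.coeff i) = 0) ∧
      P.eval s = x := by
  have hη : Zc δ θ I (σ + d) (Dl δ θ σ s) := ⟨H.dl_mem _ _ hs, hs2⟩
  obtain ⟨j, hj⟩ := H.nil n x hx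
  induction j generalizing x with
  | zero =>
    have : x = 0 := hj
    subst this
    exact ⟨0, fun i => by rw [coeff_zero]; exact Zc.zero _, by simp⟩
  | succ m ih =>
    -- the top coefficient
    have ha : Zc δ θ I (n + m * d) (It δ θ d m n x) :=
      ⟨sl_It_mem H m hx, by rw [← It_succ']; exact hj⟩
    set k : K := It δ θ d m n x * (Dl δ θ σ s)⁻¹ ^ m * (m.factorial : K)⁻¹ with hk
    have hfac : (m.factorial : K) ≠ 0 := Nat.cast_ne_zero.mpr (Nat.factorial_ne_zero m)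
    have hkZ : Zc δ θ I (n - m * σ) k := by
      have h1 := (hη.inv H hs1).pow H m
      have h2 := (Zc.nat H (m.factorial)).inv H hfac
      exact zc_of_eq ((ha.mul H h1).mul H h2) (by ring)
    have hspow : ∀ i : ℕ, s ^ i ∈ I (i * σ) := by
      intro i
      induction i with
      | zero => simpa using H.one_mem
      | succ i ih2 =>
        rw [pow_succ]
        have := H.mul_mem _ _ _ _ ih2 hs
        convert this using 2
        push_cast; ring
    have hks : k * s ^ m ∈ I n := by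
      have := H.mul_mem _ _ _ _ hkZ.1 (hspow m)
      convert this using 2
      ring
    have hIt : It δ θ d m n (k * s ^ m) = It δ θ d m n x := by
      have h1 := sl_It_const_mul (δ := δ) (θ := θ) (d := d) hkZ.2 m (m * σ) (s ^ m)
      rw [sub_add_cancel, (sl_It_pow hs2 m).1] at h1
      have e2 : (Dl δ θ σ s)⁻¹ ^ m * Dl δ θ σ s ^ m = 1 := by
        rw [← mul_pow, inv_mul_cancel₀ hs1, one_pow]
      rw [h1, hk]
      calc It δ θ d m n x * (Dl δ θ σ s)⁻¹ ^ m * (m.factorial : K)⁻¹ *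
            ((m.factorial : K) * Dl δ θ σ s ^ m)
          = It δ θ d m n x * ((Dl δ θ σ s)⁻¹ ^ m * Dl δ θ σ s ^ m) *
              ((m.factorial : K)⁻¹ * (m.factorial : K)) := by ring
        _ = It δ θ d m n x := by rw [e2, inv_mul_cancel₀ hfac]; ring
    obtain ⟨P, hP, hPe⟩ := ih (x := x - k * s ^ m) ((I n).sub_mem hx hks) (by
      rw [sl_It_sub, hIt, sub_self])
    refine ⟨P + C k * X ^ m, fun i => ?_, ?_⟩
    · rw [coeff_add, coeff_C_mul, coeff_X_pow]
      refine Zc.add (hP i) ?_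
      by_cases him : i = m
      · subst him; simpa using hkZ
      · rw [if_neg him, mul_zero]; exact Zc.zero _
    · rw [eval_add, hPe, eval_mul, eval_C, eval_pow, eval_X]; ring

/-- uniqueness of the expansion -/
theorem GrData.expand_unique (H : GrData δ θ d I N h c) {σ : ℤ} {s : K} (hs : s ∈ I σ)
    (hs1 : Dl δ θ σ s ≠ 0) (hs2 : Dl δ θ (σ + d) (Dl δ θ σ s) = 0) {n : ℤ} (P : K[X])
    (hP : ∀ i : ℕ, P.coeff i ∈ I (n - i * σ) ∧ Dl δ θ (n - i * σ) (P.coeff i) = 0)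
    (h0 : P.eval s = 0) : P = 0 := by
  by_contra hne
  set m := P.natDegree with hm
  have hlead : P.coeff m ≠ 0 := by
    rw [hm]; exact (leadingCoeff_ne_zero.mpr hne)
  have h1 : It δ θ d m n (P.eval s) = P.coeff m * ((m.factorial : K) * Dl δ θ σ s ^ m) := by
    rw [eval_eq_sum_range, sl_It_sum, Finset.sum_range_succ, ← hm]
    have hterm : ∀ i : ℕ, ∀ j : ℕ, It δ θ d j n (P.coeff i * s ^ i) =
        P.coeff i * It δ θ d j (i * σ) (s ^ i) := by
      intro i j
      have := sl_It_const_mul (δ := δ) (θ := θ) (d := d) (hP i).2 j (i * σ) (s ^ i)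
      rwa [sub_add_cancel] at this
    rw [Finset.sum_eq_zero, zero_add, hterm, (sl_It_pow hs2 m).1]
    intro i hi
    rw [hterm, It_zero_of_le δ θ d (i := i + 1) (Finset.mem_range.mp hi) (sl_It_pow hs2 i).2,
      mul_zero]
  rw [h0, sl_It_zero] at h1
  have hfac : (m.factorial : K) ≠ 0 := Nat.cast_ne_zero.mpr (Nat.factorial_ne_zero m)
  exact (mul_ne_zero hlead (mul_ne_zero hfac (pow_ne_zero _ hs1))) h1.symm

/-! ### the slice theorem -/

/-- units of the degree zero part are constants -/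
theorem sl_unit (H : GrData δ θ d I N h c) {a b : K} (ha : a ∈ I 0) (hb : b ∈ I 0)
    (hab : a * b = 1) : δ a = 0 := by
  classical
  have ha0 : a ≠ 0 := left_ne_zero_of_mul_eq_one hab
  have hb0 : b ≠ 0 := right_ne_zero_of_mul_eq_one hab
  have key : ∀ x ∈ I 0, x ≠ 0 → ∃ i, It δ θ d (i + 1) 0 x = 0 ∧ It δ θ d i 0 x ≠ 0 := by
    intro x hx hx0
    have hex := H.nil 0 x hx
    have h1 := Nat.find_spec hex
    have h2 : Nat.find hex ≠ 0 := by
      intro e
      rw [e] at h1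
      exact hx0 h1
    obtain ⟨i, hi⟩ : ∃ i, Nat.find hex = i + 1 := ⟨Nat.find hex - 1, by omega⟩
    refine ⟨i, hi ▸ h1, Nat.find_min hex (by omega)⟩
  obtain ⟨i, hi1, hi2⟩ := key a ha ha0
  obtain ⟨j, hj1, hj2⟩ := key b hb hb0
  have h3 := (It_mul_top δ θ d hi1 hj1).1
  rw [hab, add_zero] at h3
  have hi0 : i + j = 0 := by
    by_contra hne
    have h4 : It δ θ d 1 0 (1 : K) = 0 := by simp [It, Dl]
    rw [It_zero_of_le δ θ d (by omega) h4] at h3
    have h5 : (((i + j).choose i : ℕ) : K) ≠ 0 :=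
      Nat.cast_ne_zero.mpr (Nat.choose_pos (by omega)).ne'
    exact (mul_ne_zero h5 (mul_ne_zero hi2 hj2)) h3.symm
  have hi00 : i = 0 := by omega
  subst hi00
  simpa [It, Dl] using hi1

theorem sl_pow_mem (H : GrData δ θ d I N h c) {σ : ℤ} {s : K} (hs : s ∈ I σ) (i : ℕ) :
    s ^ i ∈ I (i * σ) := by
  induction i with
  | zero => simpa using H.one_mem
  | succ i ih2 =>
    rw [pow_succ]
    have := H.mul_mem _ _ _ _ ih2 hs
    convert this using 2
    push_cast; ring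

theorem sl_mem_of_eq {n m : ℤ} {x : K} (hx : x ∈ I n) (e : n = m) : x ∈ I m := e ▸ hx

/-- THE SLICE THEOREM, see doc H/821812_TSTAR, 1.5. `b'` the least positive degree of a nonzero constant, `w`
such a constant, `Y = w^(-σ) s^b'`. -/
theorem GrData.main (H : GrData δ θ d I N h c) : ∃ Y ∈ I 0,
    (∀ a ∈ I 0, ∃ P : K[X], (∀ i, P.coeff i ∈ Kap δ I) ∧ P.eval Y = a) ∧
    (∀ P : K[X], (∀ i, P.coeff i ∈ Kap δ I) → P.eval Y = 0 → P = 0) ∧
    ∀ (n : ℕ) (x : K), x ∈ I n → ∃ a ∈ I 0, ∃ (i : ℕ) (μ : K), μ ∈ Kap δ I ∧ μ ≠ 0 ∧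
      a * c ^ n = μ * x * Y ^ i := by
  classical
  obtain ⟨σ, s, hs, hs1, hs2⟩ := H.exists_slice
  have hs0 : s ≠ 0 := by
    rintro rfl
    exact hs1 (sl_Dl_zero _)
  -- the group of degrees of homogeneous constants
  let Dg : AddSubgroup ℤ :=
    { carrier := {n | ∃ x, x ≠ 0 ∧ Zc δ θ I n x}
      zero_mem' := ⟨1, one_ne_zero, Zc.one H⟩
      add_mem' := by
        rintro a b ⟨x, hx0, hx⟩ ⟨y, hy0, hy⟩
        exact ⟨x * y, mul_ne_zero hx0 hy0, hx.mul H hy⟩
      neg_mem' := by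
        rintro a ⟨x, hx0, hx⟩
        exact ⟨x⁻¹, inv_ne_zero hx0, hx.inv H hx0⟩ }
  have hDg : ∀ n, n ∈ Dg ↔ ∃ x, x ≠ 0 ∧ Zc δ θ I n x := fun n => Iff.rfl
  obtain ⟨b0, hb0⟩ := Int.subgroup_cyclic Dg
  have hdvd0 : ∀ n, n ∈ Dg ↔ b0 ∣ n := by
    intro n
    rw [hb0, AddSubgroup.mem_closure_singleton]
    constructor
    · rintro ⟨k, rfl⟩
      exact ⟨k, by rw [smul_eq_mul, mul_comm]⟩
    · rintro ⟨k, rfl⟩
      exact ⟨k, by rw [smul_eq_mul, mul_comm]⟩
  have hNmem : (N : ℤ) ∈ Dg := (hDg _).mpr ⟨h, H.h_ne, H.h_mem, H.h_const⟩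
  have hb00 : b0 ≠ 0 := by
    rintro rfl
    have := (hdvd0 _).mp hNmem
    rw [zero_dvd_iff] at this
    have := H.N_pos
    omega
  obtain ⟨b, hb, hbd⟩ : ∃ b : ℕ, 0 < b ∧ ∀ n, n ∈ Dg ↔ (b : ℤ) ∣ n :=
    ⟨b0.natAbs, Int.natAbs_pos.mpr hb00, fun n => by rw [hdvd0, Int.natAbs_dvd]⟩
  have hbz : (b : ℤ) ≠ 0 := by exact_mod_cast hb.ne'
  obtain ⟨w, hw0, hw⟩ := (hDg _).mp ((hbd b).mpr dvd_rfl)
  -- `b` and `σ` are coprime
  have hcop : IsCoprime (b : ℤ) σ := by
    obtain ⟨P, hP, hPe⟩ := H.expand hs hs1 hs2 H.c_mem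
    have hPne : P ≠ 0 := by
      rintro rfl
      rw [eval_zero] at hPe
      exact H.c_ne hPe.symm
    have h1 : (1 - (P.natDegree : ℤ) * σ) ∈ Dg :=
      (hDg _).mpr ⟨P.coeff P.natDegree, leadingCoeff_ne_zero.mpr hPne, hP _⟩
    obtain ⟨q, hq⟩ := (hbd _).mp h1
    exact ⟨q, P.natDegree, by linarith⟩
  -- the basis elements `w ^ i * s ^ j`
  have claimC : ∀ (n i : ℤ) (j : ℕ), j < b → n - j * σ = b * i → ∀ x ∈ I n,
      x / (w ^ i * s ^ j) ∈ I 0 := by
    intro n i j hj hi x hx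
    obtain ⟨P, hP, rfl⟩ := H.expand hs hs1 hs2 hx
    rw [eval_eq_sum_range, Finset.sum_div]
    refine (I 0).sum_mem fun l _ => ?_
    by_cases hl : P.coeff l = 0
    · rw [hl, zero_mul, zero_div]; exact (I 0).zero_mem
    · have h1 : (b : ℤ) ∣ n - l * σ := (hbd _).mp ((hDg _).mpr ⟨_, hl, hP l⟩)
      have h2 : (b : ℤ) ∣ ((l : ℤ) - j) * σ := by
        have : ((l : ℤ) - j) * σ = b * i - (n - l * σ) := by rw [← hi]; ring
        rw [this]
        exact dvd_sub (dvd_mul_right _ _) h1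
      have h3 : (b : ℤ) ∣ (l : ℤ) - j := hcop.dvd_of_dvd_mul_right h2
      obtain ⟨t, ht⟩ := h3
      have ht0 : 0 ≤ t := by
        by_contra hlt
        have : t ≤ -1 := by omega
        nlinarith
      obtain ⟨t', rfl⟩ := Int.eq_ofNat_of_zero_le ht0
      have hl2 : l = j + b * t' := by
        have : (l : ℤ) = j + b * t' := by linarith
        exact_mod_cast this
      have e : P.coeff l * s ^ l / (w ^ i * s ^ j) = P.coeff l * s ^ (b * t') * w ^ (-i) := by
        rw [zpow_neg, hl2, pow_add]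
        have := zpow_ne_zero i hw0
        field_simp
      rw [e]
      refine sl_mem_of_eq (H.mul_mem _ _ _ _ (H.mul_mem _ _ _ _ (hP l).1 (sl_pow_mem H hs _))
        (Zc.zpow H hw hw0 (-i)).1) ?_
      rw [hl2] at *
      push_cast
      linarith
  -- the coordinate
  set Y : K := w ^ (-σ) * s ^ b with hY
  have hsb : s ^ b = w ^ σ * Y := by
    rw [hY, ← mul_assoc, ← zpow_add₀ hw0, add_neg_cancel, zpow_zero, one_mul]
  have hYmem : Y ∈ I 0 :=
    sl_mem_of_eq (H.mul_mem _ _ _ _ (Zc.zpow H hw hw0 (-σ)).1 (sl_pow_mem H hs b)) (by ring)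
  refine ⟨Y, hYmem, ?_, ?_, ?_⟩
  · -- generation
    intro a ha
    obtain ⟨P, hP, hPe⟩ := H.expand hs hs1 hs2 ha
    have hexp : Polynomial.expand K b (contract b P) = P := by
      ext l
      rw [coeff_expand hb]
      split_ifs with hdv
      · rw [coeff_contract hb.ne', Nat.div_mul_cancel hdv]
      · by_contra hne
        have h1 : (b : ℤ) ∣ 0 - l * σ := (hbd _).mp ((hDg _).mpr ⟨_, Ne.symm hne, hP l⟩)
        rw [zero_sub, dvd_neg] at h1
        exact hdv (Int.natCast_dvd_natCast.mp (hcop.dvd_of_dvd_mul_right h1))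
    refine ⟨(contract b P).comp (C (w ^ σ) * X), fun i => ?_, ?_⟩
    · rw [comp_C_mul_X_coeff, coeff_contract hb.ne']
      have := (show Zc δ θ I _ _ from hP (i * b)).mul H ((Zc.zpow H hw hw0 σ).pow H i)
      have h2 := zc_of_eq this (m := 0) (by push_cast; ring)
      exact ⟨h2.1, by simpa [Dl] using h2.2⟩
    · rw [eval_comp, eval_mul, eval_C, eval_X, ← hsb, ← expand_eval, hexp, hPe]
  · -- uniqueness
    intro P hP hPe
    have h1 : Polynomial.expand K b (P.comp (C (w ^ (-σ)) * X)) = 0 := by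
      refine H.expand_unique hs hs1 hs2 (n := 0) _ (fun l => ?_) ?_
      · rw [coeff_expand hb]
        split_ifs with hdv
        · obtain ⟨i, rfl⟩ := hdv
          rw [Nat.mul_div_cancel_left _ hb, comp_C_mul_X_coeff]
          have h0 : Zc δ θ I 0 (P.coeff i) := ⟨(hP i).1, by simpa [Dl] using (hP i).2⟩
          exact zc_of_eq (h0.mul H ((Zc.zpow H hw hw0 (-σ)).pow H i)) (by push_cast; ring)
        · exact Zc.zero _
      · rw [expand_eval, eval_comp, eval_mul, eval_C, eval_X]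
        exact hPe
    ext i
    have h2 : (Polynomial.expand K b (P.comp (C (w ^ (-σ)) * X))).coeff (i * b) = 0 := by
      rw [h1, coeff_zero]
    rw [coeff_expand_mul hb, comp_C_mul_X_coeff] at h2
    rcases mul_eq_zero.mp h2 with h3 | h3
    · rw [h3, coeff_zero]
    · exact absurd h3 (pow_ne_zero _ (zpow_ne_zero _ hw0))
  · -- the relation with `c ^ n`
    -- representatives
    have hrep : ∀ n : ℤ, ∃ (j : ℕ) (i : ℤ), j < b ∧ n - j * σ = b * i := by
      intro n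
      obtain ⟨u, v, huv⟩ := hcop
      have h1 : 0 ≤ (v * n) % b := Int.emod_nonneg _ hbz
      have h2 : (v * n) % b < b := Int.emod_lt_of_pos _ (by exact_mod_cast hb)
      obtain ⟨j, hj⟩ := Int.eq_ofNat_of_zero_le h1
      refine ⟨j, u * n + σ * ((v * n) / b), ?_, ?_⟩
      · rw [hj] at h2; exact_mod_cast h2
      · have h3 := Int.emod_add_mul_ediv (v * n) b
        rw [hj] at h3
        have h4 : (j : ℤ) = v * n - b * ((v * n) / b) := by
          have : ((j : ℕ) : ℤ) = (Int.ofNat j) := rfl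
          linarith
        rw [h4]
        have : n = (u * b + v * σ) * n := by rw [huv, one_mul]
        linear_combination this
    obtain ⟨j1, i1, hj1, hi1⟩ := hrep 1
    have hg1 : w ^ i1 * s ^ j1 ∈ I 1 :=
      sl_mem_of_eq (H.mul_mem _ _ _ _ (Zc.zpow H hw hw0 i1).1 (sl_pow_mem H hs j1))
        (by linarith)
    have hg10 : w ^ i1 * s ^ j1 ≠ 0 := mul_ne_zero (zpow_ne_zero _ hw0) (pow_ne_zero _ hs0)
    obtain ⟨μ, hμ⟩ : ∃ μ, μ = c / (w ^ i1 * s ^ j1) := ⟨_, rfl⟩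
    have hμ0 : μ ≠ 0 := by rw [hμ]; exact div_ne_zero H.c_ne hg10
    have hμm : μ ∈ I 0 := by rw [hμ]; exact claimC 1 i1 j1 hj1 hi1 c H.c_mem
    obtain ⟨a', ha', hga⟩ := H.c_gen _ hg1
    have hμa : μ * a' = 1 := by
      have h1 : a' = (w ^ i1 * s ^ j1) / c := by
        rw [hga]; field_simp [H.c_ne]
      rw [h1, hμ]
      field_simp [H.c_ne, hg10]
    have hμd : δ μ = 0 := sl_unit H hμm ha' hμa
    have hcμ : c = μ * (w ^ i1 * s ^ j1) := by rw [hμ, div_mul_cancel₀ _ hg10]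
    intro n x hx
    obtain ⟨j, i, hj, hi⟩ := hrep n
    have hg0 : w ^ i * s ^ j ≠ 0 := mul_ne_zero (zpow_ne_zero _ hw0) (pow_ne_zero _ hs0)
    -- `j1 * n = j + b * t`
    obtain ⟨t, ht⟩ : ∃ t : ℕ, j1 * n = j + b * t := by
      have h2 : (b : ℤ) ∣ ((j1 * n : ℤ) - j) * σ := by
        refine ⟨i - i1 * n, ?_⟩
        linear_combination hi - (n : ℤ) * hi1
      obtain ⟨t, ht⟩ := hcop.dvd_of_dvd_mul_right h2
      have ht0 : 0 ≤ t := by
        by_contra hlt
        have h5 : t ≤ -1 := by omega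
        have h6 : (0 : ℤ) ≤ j1 * n := by positivity
        nlinarith
      obtain ⟨t', rfl⟩ := Int.eq_ofNat_of_zero_le ht0
      refine ⟨t', ?_⟩
      have : ((j1 * n : ℕ) : ℤ) = ((j + b * t' : ℕ) : ℤ) := by
        push_cast
        linarith
      exact_mod_cast this
    have hkey : (w ^ i1 * s ^ j1) ^ n = (w ^ i * s ^ j) * Y ^ t := by
      have e1 : i = i1 * n + σ * t := by
        have h7 : (j1 : ℤ) * n = j + b * t := by exact_mod_cast ht
        refine mul_left_cancel₀ hbz ?_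
        linear_combination (n : ℤ) * hi1 - hi + σ * h7
      rw [mul_pow, ← zpow_natCast, ← zpow_mul, ← pow_mul, ht, e1, zpow_add₀ hw0, hY, mul_pow,
        ← zpow_natCast (w ^ (-σ)), ← zpow_mul, ← pow_mul, pow_add]
      have e2 : w ^ (σ * (t : ℤ)) * w ^ (-σ * (t : ℤ)) = 1 := by
        rw [← zpow_add₀ hw0]
        have : σ * (t : ℤ) + -σ * (t : ℤ) = 0 := by ring
        rw [this, zpow_zero]
      linear_combination (-(w ^ (i1 * (n : ℤ)) * s ^ j * s ^ (b * t))) * e2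
    refine ⟨x / (w ^ i * s ^ j), claimC n i j hj hi x hx, t, μ ^ n, ?_, pow_ne_zero _ hμ0, ?_⟩
    · have h1 : Zc δ θ I 0 μ := ⟨hμm, by simp [Dl, hμd]⟩
      have h2 := zc_of_eq (h1.pow H n) (m := 0) (by ring)
      exact ⟨h2.1, by simpa [Dl] using h2.2⟩
    · calc x / (w ^ i * s ^ j) * c ^ n = x / (w ^ i * s ^ j) * (μ ^ n * ((w ^ i * s ^ j) * Y ^ t)) := by
            rw [hcμ, mul_pow μ, hkey]
        _ = (x / (w ^ i * s ^ j) * (w ^ i * s ^ j)) * (μ ^ n * Y ^ t) := by ring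
        _ = μ ^ n * x * Y ^ t := by rw [div_mul_cancel₀ _ hg0]; ring

end Pool.Agent.LNDT
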