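import Mathlib
import Pool.Agent.LNDT.Icl
import Pool.Agent.LNDT.Slice

set_option autoImplicit false

open Polynomial

namespace Pool.Agent.LNDT

open Pool.Agent.LNDHom

theorem st1_order {K : Type} [Field K] [CharZero K] {δ : Derivation ℤ K K} {θ : K} {d : ℕ}
    {I : ℤ → AddSubgroup K} {N : ℕ} {h c : K} (H : GrData δ θ d I N h c) {x : K} (hx : x ∈ I 0)
    (hx0 : x ≠ 0) : ∃ i, It δ θ d (i + 1) 0 x = 0 ∧ It δ θ d i 0 x ≠ 0 := by
  classical
  have hex := H.nil 0 x hx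
  have h1 := Nat.find_spec hex
  have h2 : Nat.find hex ≠ 0 := by
    intro e
    rw [e] at h1
    exact hx0 h1
  obtain ⟨i, hi⟩ : ∃ i, Nat.find hex = i + 1 := ⟨Nat.find hex - 1, by omega⟩
  exact ⟨i, hi ▸ h1, Nat.find_min hex (by omega)⟩

/-- the constants of degree zero are factorially closed (`It_mul_top`) -/
theorem GrData.fc {K : Type} [Field K] [CharZero K] {δ : Derivation ℤ K K} {θ : K} {d : ℕ}
    {I : ℤ → AddSubgroup K} {N : ℕ} {h c : K} (H : GrData δ θ d I N h c) {x y : K} (hx : x ∈ I 0)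
    (hy : y ∈ I 0) (hxy : x * y ≠ 0) (h0 : δ (x * y) = 0) : δ x = 0 ∧ δ y = 0 := by
  have hx0 : x ≠ 0 := left_ne_zero_of_mul hxy
  have hy0 : y ≠ 0 := right_ne_zero_of_mul hxy
  obtain ⟨i, hi1, hi2⟩ := st1_order H hx hx0
  obtain ⟨j, hj1, hj2⟩ := st1_order H hy hy0
  have h3 := (It_mul_top δ θ d hi1 hj1).1
  rw [add_zero] at h3
  have hi0 : i + j = 0 := by
    by_contra hne
    have h4 : It δ θ d 1 0 (x * y) = 0 := by simpa [It, Dl] using h0
    rw [It_zero_of_le δ θ d (by omega) h4] at h3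
    have h5 : (((i + j).choose i : ℕ) : K) ≠ 0 :=
      Nat.cast_ne_zero.mpr (Nat.choose_pos (by omega)).ne'
    exact (mul_ne_zero h5 (mul_ne_zero hi2 hj2)) h3.symm
  obtain ⟨rfl, rfl⟩ : i = 0 ∧ j = 0 := by omega
  exact ⟨by simpa [It, Dl] using hi1, by simpa [It, Dl] using hj1⟩

/-- the ring of constants of degree zero -/
def st1_kap {K : Type} [Field K] {δ : Derivation ℤ K K} {θ : K} {d : ℕ}
    {I : ℤ → AddSubgroup K} {N : ℕ} {h c : K} (H : GrData δ θ d I N h c) : Subring K where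
  carrier := Kap δ I
  mul_mem' := fun {a b} ha hb => ⟨by
    have := H.mul_mem 0 0 a b ha.1 hb.1
    rwa [add_zero] at this, by
    rw [Derivation.leibniz, ha.2, hb.2, smul_zero, smul_zero, add_zero]⟩
  one_mem' := ⟨H.one_mem, by simp⟩
  add_mem' := fun {a b} ha hb => ⟨(I 0).add_mem ha.1 hb.1, by rw [map_add, ha.2, hb.2, add_zero]⟩
  zero_mem' := ⟨(I 0).zero_mem, map_zero _⟩
  neg_mem' := fun {a} ha => ⟨(I 0).neg_mem ha.1, by rw [map_neg, ha.2, neg_zero]⟩

theorem st1_inv {K : Type} [Field K] {δ : Derivation ℤ K K} {θ : K} {d : ℕ}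
    {I : ℤ → AddSubgroup K} {N : ℕ} {h c : K} (H : GrData δ θ d I N h c) {x : K}
    (hx : x ∈ Kap δ I) (hx0 : x ≠ 0) : x⁻¹ ∈ Kap δ I := by
  refine ⟨H.inv0 x hx.1 hx0 hx.2, ?_⟩
  have h1 : δ (x * x⁻¹) = 0 := by
    rw [mul_inv_cancel₀ hx0]
    simp
  rw [Derivation.leibniz, hx.2, smul_zero, add_zero, smul_eq_mul] at h1
  exact (mul_eq_zero.1 h1).resolve_left hx0

variable {k B F : Type} [Field k] [CharZero k] [CommRing B] [IsDomain B] [Algebra k B]
  {D : Derivation k B B} [Field F] [CharZero F] [Algebra (kerAlg D) F]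
  [IsFractionRing (kerAlg D) F] {δ : Derivation ℤ F F} {θ : F} {d : ℕ} {I : ℤ → AddSubgroup F}
  {N : ℕ} {h : F} {c : kerAlg D}

omit [CharZero k] [IsDomain B] [CharZero F] in
theorem st1_inj : Function.Injective (algebraMap (kerAlg D) F) := IsFractionRing.injective _ _

omit [CharZero k] [CharZero F] [IsFractionRing (kerAlg D) F] in
theorem st1_mem (H : IData D c N δ θ d I h) (a : kerAlg D) :
    algebraMap (kerAlg D) F a ∈ I 0 :=
  (H.zero _).2 ⟨a, 1, one_ne_zero, by simp, by simp⟩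

omit [CharZero k] [CharZero F] [IsFractionRing (kerAlg D) F] in
theorem st1_frac (H : IData D c N δ θ d I h) {x : F} (hx : x ∈ Kap δ I) :
    ∃ a c1 : kerAlg D, c1 ≠ 0 ∧ δ (algebraMap (kerAlg D) F c1) = 0 ∧
      δ (algebraMap (kerAlg D) F a) = 0 ∧
      algebraMap (kerAlg D) F c1 * x = algebraMap (kerAlg D) F a := by
  obtain ⟨a, c1, h1, h2, h3⟩ := (H.zero x).1 hx.1
  refine ⟨a, c1, h1, h2, ?_, h3⟩
  rw [← h3, Derivation.leibniz, hx.2, h2, smul_zero, smul_zero, add_zero]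

/-- a horizontal element does not divide a constant of `δ` -/
theorem st1_not_dvd (H : IData D c N δ θ d I h) {p m : kerAlg D}
    (hh : δ (algebraMap (kerAlg D) F p) ≠ 0) (hm : m ≠ 0)
    (hm' : δ (algebraMap (kerAlg D) F m) = 0) : ¬ (p : B) ∣ (m : B) := by
  rintro ⟨e, he⟩
  have hm0 : (m : B) ≠ 0 := fun h0 => hm (Subtype.ext h0)
  have hD : D e = 0 := Pool.Agent.LNDF.const_of_dvd D H.lnd ((mem_kerAlg D _).1 m.2) hm0
    ⟨(p : B), by rw [he, mul_comm]⟩
  have h1 : m = p * ⟨e, hD⟩ := Subtype.ext he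
  have h2 : algebraMap (kerAlg D) F p * algebraMap (kerAlg D) F ⟨e, hD⟩ =
      algebraMap (kerAlg D) F m := by rw [← map_mul, ← h1]
  exact hh (H.gr.fc (st1_mem H _) (st1_mem H _) (by
    rw [h2]
    exact fun h0 => hm (st1_inj (by rw [h0, map_zero]))) (by rw [h2, hm'])).1

/-- 1.6: a horizontal special prime is a constant times `Y` -/
theorem st1_key (H : IData D c N δ θ d I h) {Y : F} (hY : Y ∈ I 0)
    (hgen : ∀ a ∈ I 0, ∃ P : F[X], (∀ i, P.coeff i ∈ Kap δ I) ∧ P.eval Y = a)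
    (hinj : ∀ P : F[X], (∀ i, P.coeff i ∈ Kap δ I) → P.eval Y = 0 → P = 0)
    (h3 : ∀ (n : ℕ) (x : F), x ∈ I n → ∃ a ∈ I 0, ∃ (i : ℕ) (μ : F), μ ∈ Kap δ I ∧ μ ≠ 0 ∧
      a * (algebraMap (kerAlg D) F c) ^ n = μ * x * Y ^ i)
    {p : kerAlg D} (hp : Prime (p : B)) (hs : Special D (c : B) (p : B))
    (hh : δ (algebraMap (kerAlg D) F p) ≠ 0) :
    ∃ μ ∈ Kap δ I, μ ≠ 0 ∧ algebraMap (kerAlg D) F p = μ * Y := by
  have inj := st1_inj (D := D) (F := F)
  have hY0 : Y ≠ 0 := by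
    rintro rfl
    have := hinj X (fun i => by
      rw [coeff_X]
      split_ifs
      · exact (st1_kap H.gr).one_mem
      · exact (st1_kap H.gr).zero_mem) (by simp)
    exact X_ne_zero this
  obtain ⟨n, x, t, hx, hpt, hnp⟩ := hs
  have hlam : D (ld D n x) = 0 := D_ld hx
  set lam : kerAlg D := ⟨ld D n x, hlam⟩ with hlamdef
  have hfac : (n.factorial : k) ≠ 0 := by exact_mod_cast n.factorial_ne_zero
  have hnp' : ¬ (p : B) ^ t ∣ (lam : B) := by
    intro hd
    apply hnp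
    have h1 : (⇑D)^[n] x = (n.factorial : k) • ld D n x := by
      rw [ld, smul_smul, mul_inv_cancel₀ hfac, one_smul]
    rw [h1]
    exact dvd_smul_of_dvd _ hd
  obtain ⟨a, ha, i, μ, hμ, hμ0, e⟩ := h3 n (algebraMap (kerAlg D) F lam) (H.mem n x hlam hx)
  obtain ⟨a', c1, hc1, hc1', ea⟩ := (H.zero a).1 ha
  obtain ⟨m, c2, hc2, hc2', hm', em⟩ := st1_frac H hμ
  obtain ⟨y', c3, hc3, hc3', ey⟩ := (H.zero Y).1 hY
  have hm0 : m ≠ 0 := by
    rintro rfl
    rw [map_zero] at em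
    rcases mul_eq_zero.1 em with h0 | h0
    · exact hc2 (inj (by rw [h0, map_zero]))
    · exact hμ0 h0
  have E : c2 * c3 ^ i * a' * c ^ n = c1 * m * y' ^ i * lam := by
    apply inj
    simp only [map_mul, map_pow]
    rw [← ea, ← em, ← ey, mul_pow]
    linear_combination (algebraMap (kerAlg D) F c2 * algebraMap (kerAlg D) F c3 ^ i *
      algebraMap (kerAlg D) F c1) * e
  have E' : (c2 : B) * (c3 : B) ^ i * a' * (c : B) ^ n = c1 * m * (y' : B) ^ i * lam := by
    exact_mod_cast congrArg (Subtype.val) E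
  have hd1 : (p : B) ^ t ∣ (c1 : B) * m * (y' : B) ^ i * lam := by
    rw [← E']
    exact dvd_mul_of_dvd_right hpt _
  have hpy : (p : B) ∣ (y' : B) := by
    by_contra hcon
    refine hnp' (hp.pow_dvd_of_dvd_mul_left t ?_ hd1)
    intro hd
    rcases hp.dvd_or_dvd hd with h4 | h4
    · rcases hp.dvd_or_dvd h4 with h5 | h5
      · exact st1_not_dvd H hh hc1 hc1' h5
      · exact st1_not_dvd H hh hm0 hm' h5
    · exact hcon (hp.dvd_of_dvd_pow h4)
  obtain ⟨q, hq⟩ := hpy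
  have hι3 : algebraMap (kerAlg D) F c3 ≠ 0 := fun h0 => hc3 (inj (by rw [h0, map_zero]))
  have hy0 : y' ≠ 0 := by
    rintro rfl
    rw [map_zero] at ey
    exact (mul_ne_zero hι3 hY0) ey
  have hDq : D q = 0 := Pool.Agent.LNDF.const_of_dvd D H.lnd ((mem_kerAlg D _).1 y'.2)
    (fun h0 => hy0 (Subtype.ext h0)) ⟨(p : B), by rw [hq, mul_comm]⟩
  have hyq : y' = p * ⟨q, hDq⟩ := Subtype.ext hq
  set z : F := algebraMap (kerAlg D) F ⟨q, hDq⟩ / algebraMap (kerAlg D) F c3 with hz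
  have hzI : z ∈ I 0 := (H.zero z).2 ⟨⟨q, hDq⟩, c3, hc3, hc3', by
    rw [hz, mul_div_cancel₀ _ hι3]⟩
  have hYz : algebraMap (kerAlg D) F p * z = Y := by
    have h5 : algebraMap (kerAlg D) F c3 * (algebraMap (kerAlg D) F p * z) = algebraMap (kerAlg D) F c3 * Y := by
      rw [ey, hyq, map_mul, hz]
      field_simp
    exact mul_left_cancel₀ hι3 h5
  obtain ⟨P1, hP1, eP1⟩ := hgen _ (st1_mem H p)
  obtain ⟨P2, hP2, eP2⟩ := hgen z hzI
  have hprod : P1 * P2 = X := by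
    refine sub_eq_zero.1 (hinj (P1 * P2 - X) (fun i => ?_) ?_)
    · rw [coeff_sub, coeff_mul, coeff_X]
      refine (st1_kap H.gr).sub_mem ((st1_kap H.gr).sum_mem fun x _ =>
        (st1_kap H.gr).mul_mem (hP1 _) (hP2 _)) ?_
      split_ifs
      · exact (st1_kap H.gr).one_mem
      · exact (st1_kap H.gr).zero_mem
    · rw [eval_sub, eval_mul, eP1, eP2, hYz, eval_X, sub_self]
  have hP10 : P1 ≠ 0 := by
    rintro rfl
    rw [zero_mul] at hprod
    exact X_ne_zero hprod.symm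
  have hP20 : P2 ≠ 0 := by
    rintro rfl
    rw [mul_zero] at hprod
    exact X_ne_zero hprod.symm
  have hdeg : P1.natDegree + P2.natDegree = 1 := by
    rw [← natDegree_mul hP10 hP20, hprod, natDegree_X]
  have hP1d : P1.natDegree ≠ 0 := by
    intro h0
    rw [eq_C_of_natDegree_eq_zero h0, eval_C] at eP1
    apply hh
    rw [← eP1]
    exact (hP1 0).2
  have hP2d : P2.natDegree = 0 := by omega
  have hz2 : z = P2.coeff 0 := by
    rw [← eP2, eq_C_of_natDegree_eq_zero hP2d, eval_C, coeff_C_zero]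
  have hz0 : z ≠ 0 := by
    intro h0
    rw [h0, mul_zero] at hYz
    exact hY0 hYz.symm
  have hzK : z ∈ Kap δ I := hz2 ▸ hP2 0
  refine ⟨z⁻¹, st1_inv H.gr hzK hz0, inv_ne_zero hz0, ?_⟩
  rw [← hYz]
  field_simp

/-- two horizontal (`δ p ≠ 0`) special primes are associated: both are `μ Y` with `μ` a nonzero constant of
`δ` of degree zero, `Y` as in `GrData.main` (doc H/821812_TSTAR, 1.6). Primes are primes of `B` which lie in the
kernel; the kernel is factorially closed in `B` (`LNDF.const_of_dvd`), and the constants of `δ` are factorially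
closed in the kernel (`GrData.fc`). -/
theorem horizontal_assoc (H : IData D c N δ θ d I h)
    {p q : kerAlg D} (hp : Prime (p : B)) (hs : Special D (c : B) (p : B))
    (hq : Prime (q : B)) (hs' : Special D (c : B) (q : B))
    (hh : δ (algebraMap (kerAlg D) F p) ≠ 0) (hh' : δ (algebraMap (kerAlg D) F q) ≠ 0) :
    Associated (p : B) (q : B) := by
  obtain ⟨Y, hY, hgen, hinj, h3⟩ := H.gr.main
  obtain ⟨μ, hμ, hμ0, e⟩ := st1_key H hY hgen hinj h3 hp hs hh
  obtain ⟨μ', hμ', hμ0', e'⟩ := st1_key H hY hgen hinj h3 hq hs' hh'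
  have inj := st1_inj (D := D) (F := F)
  have aux : ∀ {p q : kerAlg D} {μ μ' : F}, μ ∈ Kap δ I → μ' ∈ Kap δ I → μ' ≠ 0 →
      algebraMap (kerAlg D) F p = μ * Y → algebraMap (kerAlg D) F q = μ' * Y →
      Prime (q : B) → δ (algebraMap (kerAlg D) F q) ≠ 0 → (q : B) ∣ (p : B) := by
    intro p q μ μ' hμ hμ' hμ0' e e' hq hh'
    obtain ⟨m, c1, hc1, hc1', hm', em⟩ := st1_frac H hμ
    obtain ⟨m2, c2, hc2, hc2', hm2', em2⟩ := st1_frac H hμ'
    have hm20 : m2 ≠ 0 := by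
      rintro rfl
      rw [map_zero] at em2
      rcases mul_eq_zero.1 em2 with h0 | h0
      · exact hc2 (inj (by rw [h0, map_zero]))
      · exact hμ0' h0
    have E : c1 * m2 * p = c2 * m * q := by
      apply inj
      simp only [map_mul]
      rw [← em2, ← em, e, e']
      ring
    have E' : (c1 : B) * m2 * p = c2 * m * q := by
      exact_mod_cast congrArg (Subtype.val) E
    have hd : (q : B) ∣ (c1 : B) * m2 * p := ⟨(c2 : B) * m, by rw [E', mul_comm]⟩
    rcases hq.dvd_or_dvd hd with h4 | h4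
    · rcases hq.dvd_or_dvd h4 with h5 | h5
      · exact absurd h5 (st1_not_dvd H hh' hc1 hc1')
      · exact absurd h5 (st1_not_dvd H hh' hm20 hm2')
    · exact h4
  exact associated_of_dvd_dvd (aux hμ' hμ hμ0 e' e hp hh) (aux hμ hμ' hμ0' e e' hq hh')

omit [CharZero k] [CharZero F] [IsFractionRing (kerAlg D) F] in
theorem st1_den (H : IData D c N δ θ d I h) (f : ℕ → F) (hf : ∀ i, f i ∈ Kap δ I) (n : ℕ) :
    ∃ c1 : kerAlg D, c1 ≠ 0 ∧ δ (algebraMap (kerAlg D) F c1) = 0 ∧ ∀ i < n,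
      ∃ a : kerAlg D, δ (algebraMap (kerAlg D) F a) = 0 ∧
        algebraMap (kerAlg D) F c1 * f i = algebraMap (kerAlg D) F a := by
  induction n with
  | zero => exact ⟨1, one_ne_zero, by simp, fun i hi => absurd hi (Nat.not_lt_zero i)⟩
  | succ n ih =>
    obtain ⟨c1, h1, h2, h3⟩ := ih
    obtain ⟨m, c2, hc2, hc2', hm', em⟩ := st1_frac H (hf n)
    refine ⟨c1 * c2, mul_ne_zero h1 hc2, ?_, fun i hi => ?_⟩
    · rw [map_mul, Derivation.leibniz, h2, hc2', smul_zero, smul_zero, add_zero]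
    · rcases Nat.lt_succ_iff_lt_or_eq.1 hi with hi | rfl
      · obtain ⟨a, ha, ea⟩ := h3 i hi
        refine ⟨c2 * a, ?_, ?_⟩
        · rw [map_mul, Derivation.leibniz, ha, hc2', smul_zero, smul_zero, add_zero]
        · rw [map_mul, map_mul, ← ea]
          ring
      · refine ⟨c1 * m, ?_, ?_⟩
        · rw [map_mul, Derivation.leibniz, hm', h2, smul_zero, smul_zero, add_zero]
        · rw [map_mul, map_mul, ← em]
          ring

/-- over the constants of `δ` every element of the kernel is a polynomial in a horizontal special prime -/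
theorem horizontal_gen (H : IData D c N δ θ d I h)
    {p : kerAlg D} (hp : Prime (p : B)) (hs : Special D (c : B) (p : B))
    (hh : δ (algebraMap (kerAlg D) F p) ≠ 0) (a : kerAlg D) :
    ∃ (c1 : kerAlg D) (P : (kerAlg D)[X]), c1 ≠ 0 ∧ δ (algebraMap (kerAlg D) F c1) = 0 ∧
      (∀ i, δ (algebraMap (kerAlg D) F (P.coeff i)) = 0) ∧ c1 * a = P.eval p := by
  classical
  obtain ⟨Y, hY, hgen, hinj, h3⟩ := H.gr.main
  obtain ⟨μ, hμ, hμ0, e⟩ := st1_key H hY hgen hinj h3 hp hs hh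
  have inj := st1_inj (D := D) (F := F)
  obtain ⟨Q, hQ, eQ⟩ := hgen _ (st1_mem H a)
  obtain ⟨c1, hc1, hc1', hden⟩ := st1_den H (fun i => Q.coeff i * (μ⁻¹) ^ i)
    (fun i => (st1_kap H.gr).mul_mem (hQ i) ((st1_kap H.gr).pow_mem (st1_inv H.gr hμ hμ0) i))
    (Q.natDegree + 1)
  choose! b hb1 hb2 using hden
  refine ⟨c1, ∑ i ∈ Finset.range (Q.natDegree + 1), monomial i (b i), hc1, hc1', fun i => ?_, ?_⟩
  · rw [finsetSum_coeff, map_sum, map_sum]
    refine Finset.sum_eq_zero fun j hj => ?_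
    rw [coeff_monomial]
    split_ifs
    · exact hb1 j (Finset.mem_range.1 hj)
    · simp
  · apply inj
    rw [map_mul, ← eQ, eval_eq_sum_range, eval_finsetSum, map_sum, Finset.mul_sum]
    refine Finset.sum_congr rfl fun i hi => ?_
    have hYp : Y = μ⁻¹ * algebraMap (kerAlg D) F p := by
      rw [e]
      field_simp
    rw [eval_monomial, map_mul, map_pow, ← hb2 i (Finset.mem_range.1 hi), hYp, mul_pow]
    ring

end Pool.Agent.LNDT
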