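import Mathlib
import Pool.Agent.LNDT.Icl
import Pool.Agent.LNDT.ST1

set_option autoImplicit false

open Polynomial

namespace Pool.Agent.LNDT

open Pool.Agent.LNDHom

/-- chain rule for a polynomial whose coefficients are constants -/
theorem delta_eval₂ {S F : Type} [CommRing S] [Field F] (δ : Derivation ℤ F F) (ψ : S →+* F)
    (h : ∀ s, δ (ψ s) = 0) (p : S[X]) (x : F) :
    δ (p.eval₂ ψ x) = p.derivative.eval₂ ψ x * δ x := by
  induction p using Polynomial.induction_on' with
  | add p q hp hq =>
    rw [eval₂_add, map_add, hp, hq, derivative_add, eval₂_add]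
    ring
  | monomial n s =>
    rw [eval₂_monomial, Derivation.leibniz, h, smul_zero, add_zero, Derivation.leibniz_pow,
      derivative_monomial, eval₂_monomial, map_mul, map_natCast]
    simp only [smul_eq_mul, nsmul_eq_mul]
    ring

/-- a derivation vanishes on everything algebraic over its constants -/
theorem delta_alg {k A F : Type} [Field k] [CharZero k] [CommRing A] [IsDomain A] [Algebra k A]
    [Field F] [Algebra A F] (hinj : Function.Injective (algebraMap A F)) (δ : Derivation ℤ F F)
    (S : Subalgebra k A) (hS : ∀ s ∈ S, δ (algebraMap A F s) = 0) (a : A)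
    (ha : IsAlgebraic S a) : δ (algebraMap A F a) = 0 := by
  have : CharZero S := charZero_of_injective_algebraMap (algebraMap k S).injective
  obtain ⟨p, hp0, hp⟩ := ha
  have hzero : ∀ q : S[X], q ≠ 0 → q.natDegree = 0 → aeval a q = 0 → False := by
    intro q hq0 hqd hq
    rw [eq_C_of_natDegree_eq_zero hqd, aeval_C] at hq
    apply hq0
    rw [eq_C_of_natDegree_eq_zero hqd]
    have : q.coeff 0 = 0 := Subtype.ext hq
    rw [this, C_0]
  have key : ∀ n : ℕ, ∀ q : S[X], q ≠ 0 → q.natDegree ≤ n → aeval a q = 0 →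
      δ (algebraMap A F a) = 0 := by
    intro n
    induction n with
    | zero =>
      intro q hq0 hqd hq
      exact (hzero q hq0 (by omega) hq).elim
    | succ n ih =>
      intro q hq0 hqd hq
      have h1 := delta_eval₂ δ ((algebraMap A F).comp (algebraMap S A))
        (fun s => hS _ s.2) q (algebraMap A F a)
      rw [← hom_eval₂, ← hom_eval₂, ← aeval_def, ← aeval_def, hq, map_zero, map_zero] at h1
      rcases mul_eq_zero.1 h1.symm with h2 | h2
      · have h3 : aeval a q.derivative = 0 := hinj (by rw [h2, map_zero])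
        by_cases h4 : q.derivative = 0
        · exact (hzero q hq0 (derivative_eq_zero.1 h4) hq).elim
        · refine ih q.derivative h4 ?_ h3
          have h5 := natDegree_derivative_le q
          omega
      · exact h2
  exact key _ p hp0 le_rfl hp

/-- an algebra with two generators is algebraic over two algebraically independent elements -/
theorem alg_of_indep {k A : Type} [Field k] [CommRing A] [IsDomain A] [Algebra k A] {f g : A}
    (hfg : Algebra.adjoin k {f, g} = ⊤) {x : Option Unit → A} (hx : AlgebraicIndependent k x) :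
    Algebra.IsAlgebraic (Algebra.adjoin k (Set.range x)) A := by
  have h1 : Algebra.IsAlgebraic (Algebra.adjoin k ({f, g} : Set A)) A := by
    constructor
    intro a
    have ha : a ∈ Algebra.adjoin k ({f, g} : Set A) := by
      rw [hfg]
      exact Algebra.mem_top
    exact isAlgebraic_algebraMap (⟨a, ha⟩ : Algebra.adjoin k ({f, g} : Set A))
  have h2 : Algebra.trdeg k A ≤ Cardinal.mk (Option Unit) := by
    refine (Algebra.IsAlgebraic.trdeg_le_cardinalMk k ({f, g} : Set A)).trans ?_
    have h3 : Cardinal.mk ({f, g} : Set A) ≤ 2 := by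
      have := Cardinal.mk_insert_le (α := A) (s := {g}) (a := f)
      rw [Cardinal.mk_singleton] at this
      refine this.trans ?_
      norm_num [one_add_one_eq_two]
    refine h3.trans ?_
    simp [one_add_one_eq_two]
  exact (hx.isTranscendenceBasis_of_trdeg_le_of_finite h2).isAlgebraic

/-- the last step: `u` prime, `u` divides a polynomial in `y` over the field -/
theorem coprime_of_poly {k A : Type} [Field k] [CommRing A] [IsDomain A] [Algebra k A] {u y : A}
    (hu : Prime u) (huy : ¬ u ∣ y) : ∀ (n : ℕ) (R : k[X]), R ≠ 0 → R.natDegree ≤ n →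
      u ∣ aeval y R → ∃ a b : A, a * u + b * y = 1 := by
  have hunit : ∀ R : k[X], R.coeff 0 ≠ 0 → u ∣ aeval y R → ∃ a b : A, a * u + b * y = 1 := by
    intro R hR0 hdvd
    obtain ⟨w, hw⟩ := hdvd
    rw [← divX_mul_X_add R, map_add, map_mul, aeval_X, aeval_C] at hw
    have h1 : algebraMap k A (R.coeff 0) * algebraMap k A (R.coeff 0)⁻¹ = 1 := by
      rw [← map_mul, mul_inv_cancel₀ hR0, map_one]
    refine ⟨w * algebraMap k A (R.coeff 0)⁻¹,
      -(aeval y R.divX) * algebraMap k A (R.coeff 0)⁻¹, ?_⟩
    have h2 : w * algebraMap k A (R.coeff 0)⁻¹ * u +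
        -(aeval y R.divX) * algebraMap k A (R.coeff 0)⁻¹ * y =
        (u * w - aeval y R.divX * y) * algebraMap k A (R.coeff 0)⁻¹ := by ring
    rw [h2, ← hw, add_sub_cancel_left, h1]
  intro n
  induction n with
  | zero =>
    intro R hR hd hdvd
    refine hunit R ?_ hdvd
    intro h0
    apply hR
    rw [eq_C_of_natDegree_eq_zero (by omega : R.natDegree = 0), h0, C_0]
  | succ n ih =>
    intro R hR hd hdvd
    by_cases h0 : R.coeff 0 = 0
    · have h1 : R = R.divX * X := by
        conv_lhs => rw [← divX_mul_X_add R, h0, C_0, add_zero]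
      have h2 : R.divX ≠ 0 := by
        intro h
        rw [h, zero_mul] at h1
        exact hR h1
      refine ih R.divX h2 ?_ ?_
      · rw [natDegree_divX_eq_natDegree_tsub_one]
        omega
      · rw [h1, map_mul, aeval_X] at hdvd
        exact (hu.dvd_or_dvd hdvd).resolve_right huy
    · exact hunit R h0 hdvd

variable {k B F : Type} [Field k] [CharZero k] [CommRing B] [IsDomain B] [Algebra k B]
  {D : Derivation k B B} [Field F] [CharZero F] [Algebra (kerAlg D) F]
  [IsFractionRing (kerAlg D) F] {δ : Derivation ℤ F F} {θ : F} {d : ℕ} {I : ℤ → AddSubgroup F}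
  {N : ℕ} {h : F} {c : kerAlg D}

/-- divisibility in the kernel and in the ring -/
theorem dvd_ker (hln : ∀ x, ∃ n, (⇑D)^[n] x = 0) {u y : kerAlg D} :
    (u : B) ∣ (y : B) ↔ u ∣ y := by
  constructor
  · rintro ⟨b, hb⟩
    by_cases hy : (y : B) = 0
    · have : y = 0 := Subtype.ext hy
      rw [this]
      exact dvd_zero u
    · have h1 : D b = 0 := LNDF.const_of_dvd D hln ((mem_kerAlg D _).1 y.2) hy
        ⟨(u : B), by rw [hb, mul_comm]⟩
      exact ⟨⟨b, (mem_kerAlg D b).2 h1⟩, Subtype.ext hb⟩
  · rintro ⟨b, rfl⟩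
    exact ⟨(b : B), rfl⟩

theorem prime_ker (hln : ∀ x, ∃ n, (⇑D)^[n] x = 0) {u : kerAlg D} (hu : Prime (u : B)) :
    Prime u := by
  refine ⟨?_, ?_, ?_⟩
  · rintro rfl
    exact hu.ne_zero rfl
  · intro h
    exact hu.not_isUnit (h.map (kerAlg D).val)
  · intro a b hab
    rw [← dvd_ker hln] at hab
    rcases hu.dvd_or_dvd (a := (a : B)) (b := (b : B)) (by simpa using hab) with h | h
    · exact Or.inl ((dvd_ker hln).1 h)
    · exact Or.inr ((dvd_ker hln).1 h)

omit [CharZero k] [IsDomain B] in
/-- the kernel has two generators -/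
theorem ker_gens {f g : B} (hker : ∀ b, D b = 0 ↔ b ∈ Algebra.adjoin k {f, g}) :
    ∃ f' g' : kerAlg D, Algebra.adjoin k ({f', g'} : Set (kerAlg D)) = ⊤ := by
  have hf : f ∈ kerAlg D := (mem_kerAlg D f).2 ((hker f).2 (Algebra.subset_adjoin (by simp)))
  have hg : g ∈ kerAlg D := (mem_kerAlg D g).2 ((hker g).2 (Algebra.subset_adjoin (by simp)))
  refine ⟨⟨f, hf⟩, ⟨g, hg⟩, ?_⟩
  rw [eq_top_iff]
  rintro ⟨b, hb⟩ -
  have h1 : b ∈ Algebra.adjoin k ({f, g} : Set B) := (hker b).1 ((mem_kerAlg D b).1 hb)
  have h2 : (Algebra.adjoin k ({⟨f, hf⟩, ⟨g, hg⟩} : Set (kerAlg D))).map (kerAlg D).val =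
      Algebra.adjoin k ({f, g} : Set B) := by
    rw [AlgHom.map_adjoin]
    congr 1
    rw [Set.image_pair]
    rfl
  rw [← h2] at h1
  obtain ⟨z, hz, hzb⟩ := h1
  have h3 : z = ⟨b, hb⟩ := Subtype.ext hzb
  rwa [h3] at hz

theorem delta_ne (H : IData D c N δ θ d I h) :
    ∃ a : kerAlg D, δ (algebraMap (kerAlg D) F a) ≠ 0 := by
  obtain ⟨x, hx, hxδ⟩ := H.gr.act
  obtain ⟨a, c1, hc1, hδc1, e⟩ := (H.zero x).1 hx
  refine ⟨a, fun h0 => hxδ ?_⟩
  have h1 : δ (algebraMap (kerAlg D) F c1 * x) =
      algebraMap (kerAlg D) F c1 * δ x + x * δ (algebraMap (kerAlg D) F c1) := by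
    rw [Derivation.leibniz, smul_eq_mul, smul_eq_mul]
  rw [e, h0, hδc1, mul_zero, add_zero] at h1
  exact (mul_eq_zero.1 h1.symm).resolve_left
    (fun h => hc1 (IsFractionRing.injective (kerAlg D) F (by rw [h, map_zero])))

/-- VERTICAL PRIMES. The kernel is `k[f, g]`. Let `u`, `y` be constants of `δ` in the kernel, `u` prime, `u` not
dividing `y`. Then `1` is in the ideal `(u, y)` of the kernel. (`u`, `y` are algebraically dependent over `k`,
otherwise `δ = 0` on the kernel, which has transcendence degree two; take a relation `R(u, y) = 0` with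
`R(0, T) ≠ 0`, write `R(0, T) = T^s R_1(T)`, `R_1(0) ≠ 0`.) -/
theorem vertical_coprime (H : IData D c N δ θ d I h) {f g : B}
    (hker : ∀ b, D b = 0 ↔ b ∈ Algebra.adjoin k {f, g})
    {u y : kerAlg D} (hu : Prime (u : B)) (hδu : δ (algebraMap (kerAlg D) F u) = 0)
    (hδy : δ (algebraMap (kerAlg D) F y) = 0) (huy : ¬ (u : B) ∣ (y : B)) :
    ∃ a b : kerAlg D, a * u + b * y = 1 := by
  have hinj := IsFractionRing.injective (kerAlg D) F
  have hu' : Prime u := prime_ker H.lnd hu
  have huy' : ¬ u ∣ y := fun h => huy ((dvd_ker H.lnd).2 h)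
  suffices hR : ∃ R : k[X], R ≠ 0 ∧ u ∣ aeval y R by
    obtain ⟨R, hR, hd⟩ := hR
    exact coprime_of_poly hu' huy' R.natDegree R hR le_rfl hd
  by_contra hcon
  push Not at hcon
  have hy : Transcendental k y := by
    rintro ⟨R, hR, h0⟩
    exact hcon R hR (by rw [h0]; exact dvd_zero u)
  have hyi : AlgebraicIndependent k (fun _ : Unit => y) :=
    algebraicIndependent_unique_type_iff.2 hy
  have hmem : ∀ s ∈ Algebra.adjoin k (Set.range fun _ : Unit => y), ∃ R : k[X],
      aeval y R = s := by
    intro s hs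
    rw [Set.range_const, Algebra.adjoin_singleton_eq_range_aeval] at hs
    exact hs
  have hut : Transcendental (Algebra.adjoin k (Set.range fun _ : Unit => y)) u := by
    have hmain : ∀ q : (Algebra.adjoin k (Set.range fun _ : Unit => y))[X], q.coeff 0 ≠ 0 →
        aeval u q = 0 → False := by
      intro q hq0 hq
      rw [← divX_mul_X_add q, map_add, map_mul, aeval_X, aeval_C] at hq
      have h1 : u ∣ ((q.coeff 0 : Algebra.adjoin k (Set.range fun _ : Unit => y)) :
          kerAlg D) := by
        refine ⟨-(aeval u q.divX), ?_⟩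
        have h2 : ((q.coeff 0 : Algebra.adjoin k (Set.range fun _ : Unit => y)) : kerAlg D) =
            -(aeval u q.divX * u) := by
          rw [eq_neg_iff_add_eq_zero, add_comm]
          exact hq
        rw [h2]
        ring
      obtain ⟨R, hR⟩ := hmem _ (q.coeff 0).2
      refine hcon R ?_ ?_
      · rintro rfl
        apply hq0
        apply Subtype.ext
        rw [← hR]
        exact map_zero _
      · have h3 : aeval y R = ((q.coeff 0 : Algebra.adjoin k (Set.range fun _ : Unit => y)) :
          kerAlg D) := hR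
        rw [h3]
        exact h1
    have key : ∀ n : ℕ, ∀ q : (Algebra.adjoin k (Set.range fun _ : Unit => y))[X], q ≠ 0 →
        q.natDegree ≤ n → aeval u q = 0 → False := by
      intro n
      induction n with
      | zero =>
        intro q hq0 hqd hq
        refine hmain q ?_ hq
        intro h0
        apply hq0
        rw [eq_C_of_natDegree_eq_zero (by omega : q.natDegree = 0), h0, C_0]
      | succ n ih =>
        intro q hq0 hqd hq
        by_cases h0 : q.coeff 0 = 0
        · have h1 : q = q.divX * X := by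
            conv_lhs => rw [← divX_mul_X_add q, h0, C_0, add_zero]
          have h2 : q.divX ≠ 0 := by
            intro h
            rw [h, zero_mul] at h1
            exact hq0 h1
          refine ih q.divX h2 ?_ ?_
          · rw [natDegree_divX_eq_natDegree_tsub_one]
            omega
          · rw [h1, map_mul, aeval_X] at hq
            exact (mul_eq_zero.1 hq).resolve_right hu'.ne_zero
        · exact hmain q h0 hq
    rintro ⟨q, hq0, hq⟩
    exact key _ q hq0 le_rfl hq
  have hxi := (hyi.option_iff_transcendental u).2 hut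
  obtain ⟨f', g', hfg⟩ := ker_gens hker
  have halg := alg_of_indep hfg hxi
  obtain ⟨a, ha⟩ := delta_ne H
  apply ha
  refine delta_alg hinj δ _ ?_ a (halg.isAlgebraic a)
  intro s hs
  induction hs using Algebra.adjoin_induction with
  | mem x hx =>
    obtain ⟨o, rfl⟩ := hx
    cases o with
    | none => exact hδu
    | some o => exact hδy
  | algebraMap r => exact H.base r
  | add x y _ _ hx hy => rw [map_add, map_add, hx, hy, add_zero]
  | mul x y _ _ hx hy =>
    rw [map_mul, Derivation.leibniz, hx, hy, smul_zero, smul_zero, add_zero]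

/-- a constant of `δ` which divides... : the constants of `δ` in the kernel are factorially closed -/
theorem fc_ker (H : IData D c N δ θ d I h) {x y : kerAlg D} (hx : x ≠ 0) (hy : y ≠ 0)
    (h0 : δ (algebraMap (kerAlg D) F (x * y)) = 0) :
    δ (algebraMap (kerAlg D) F x) = 0 ∧ δ (algebraMap (kerAlg D) F y) = 0 := by
  have hinj := IsFractionRing.injective (kerAlg D) F
  have hm : ∀ a : kerAlg D, algebraMap (kerAlg D) F a ∈ I 0 := fun a =>
    (H.zero _).2 ⟨a, 1, one_ne_zero, by rw [map_one]; exact δ.map_one_eq_zero,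
      by rw [map_one, one_mul]⟩
  refine H.gr.fc (hm x) (hm y) ?_ ?_
  · rw [← map_mul]
    exact fun h => mul_ne_zero hx hy (hinj (by rw [h, map_zero]))
  · rw [← map_mul]
    exact h0

/-- THE CROSSING (doc H/821812_TSTAR, 1.8): a vertical prime `u` and a horizontal special prime `v` in a maximal
ideal `m` generate `m` locally -/
theorem crossing_gen (H : IData D c N δ θ d I h) {f g : B}
    (hker : ∀ b, D b = 0 ↔ b ∈ Algebra.adjoin k {f, g}) (m : Ideal (kerAlg D)) (hm : m.IsPrime)
    {u v : kerAlg D} (hu : Prime (u : B)) (hδu : δ (algebraMap (kerAlg D) F u) = 0)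
    (hv : Prime (v : B)) (hs : Special D (c : B) (v : B))
    (hδv : δ (algebraMap (kerAlg D) F v) ≠ 0) (hum : u ∈ m) (hvm : v ∈ m) {a : kerAlg D}
    (ha : a ∈ m) : ∃ s, s ∉ m ∧ ∃ x y, s * a = x * u + y * v := by
  have hu' : Prime u := prime_ker H.lnd hu
  have hv' : Prime v := prime_ker H.lnd hv
  have hmne : (1 : kerAlg D) ∉ m := fun h => hm.ne_top ((Ideal.eq_top_iff_one m).2 h)
  -- constants of `δ` in `m` are divisible by `u`
  have hdiv : ∀ y : kerAlg D, δ (algebraMap (kerAlg D) F y) = 0 → y ∈ m → u ∣ y := by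
    intro y hδy hym
    by_contra hn
    obtain ⟨a, b, hab⟩ := vertical_coprime H hker hu hδu hδy
      (fun h => hn ((dvd_ker H.lnd).1 h))
    apply hmne
    rw [← hab]
    exact m.add_mem (m.mul_mem_left a hum) (m.mul_mem_left b hym)
  have huv : ¬ u ∣ v := by
    rintro ⟨w, hw⟩
    rcases hv'.irreducible.isUnit_or_isUnit hw with h1 | h1
    · exact hu'.not_isUnit h1
    · obtain ⟨w', hw'⟩ := h1.exists_right_inv
      have hw0 : w ≠ 0 := left_ne_zero_of_mul (by rw [hw']; exact one_ne_zero)
      have hw0' : w' ≠ 0 := right_ne_zero_of_mul (by rw [hw']; exact one_ne_zero)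
      have h2 := fc_ker H hw0 hw0' (by rw [hw', map_one]; exact δ.map_one_eq_zero)
      apply hδv
      rw [hw, map_mul, Derivation.leibniz, h2.1, hδu, smul_zero, smul_zero, add_zero]
  -- divisibility of the coefficients
  have hcoef : ∀ n : ℕ, ∀ P : (kerAlg D)[X], P.natDegree ≤ n →
      (∀ i, δ (algebraMap (kerAlg D) F (P.coeff i)) = 0) → u ∣ P.eval v → ∀ i, u ∣ P.coeff i := by
    intro n
    have h0 : ∀ P : (kerAlg D)[X], (∀ i, δ (algebraMap (kerAlg D) F (P.coeff i)) = 0) →
        u ∣ P.eval v → u ∣ P.coeff 0 ∧ u ∣ P.divX.eval v := by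
      intro P hP hd
      have e : P.eval v = P.divX.eval v * v + P.coeff 0 := by
        conv_lhs => rw [← divX_mul_X_add P]
        rw [eval_add, eval_mul, eval_X, eval_C]
      have h1 : P.coeff 0 ∈ m := by
        have h2 : P.coeff 0 = P.eval v - P.divX.eval v * v := by
          rw [e]
          ring
        rw [h2]
        obtain ⟨z, hz⟩ := hd
        rw [hz]
        exact m.sub_mem (m.mul_mem_right z hum) (m.mul_mem_left _ hvm)
      have h2 := hdiv _ (hP 0) h1
      refine ⟨h2, ?_⟩
      rw [e] at hd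
      exact (hu'.dvd_or_dvd ((dvd_add_left h2).1 hd)).resolve_right huv
    induction n with
    | zero =>
      intro P hPd hP hd i
      cases i with
      | zero => exact (h0 P hP hd).1
      | succ i =>
        rw [coeff_eq_zero_of_natDegree_lt (by omega)]
        exact dvd_zero u
    | succ n ih =>
      intro P hPd hP hd i
      cases i with
      | zero => exact (h0 P hP hd).1
      | succ i =>
        rw [← coeff_divX]
        refine ih P.divX ?_ ?_ (h0 P hP hd).2 i
        · rw [natDegree_divX_eq_natDegree_tsub_one]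
          omega
        · intro j
          rw [coeff_divX]
          exact hP _
  -- cancel `u`
  have key : ∀ t : ℕ, ∀ (c2 : kerAlg D) (P : (kerAlg D)[X]),
      (∀ i, δ (algebraMap (kerAlg D) F (P.coeff i)) = 0) → u ^ t * c2 * a = P.eval v →
      ∃ Q : (kerAlg D)[X], (∀ i, δ (algebraMap (kerAlg D) F (Q.coeff i)) = 0) ∧
        c2 * a = Q.eval v := by
    intro t
    induction t with
    | zero =>
      intro c2 P hP e
      exact ⟨P, hP, by rw [← e, pow_zero, one_mul]⟩
    | succ t ih =>
      intro c2 P hP e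
      have h1 := hcoef P.natDegree P le_rfl hP ⟨u ^ t * c2 * a, by rw [← e]; ring⟩
      obtain ⟨Q, hQ⟩ := (C_dvd_iff_dvd_coeff u P).2 h1
      refine ih c2 Q ?_ ?_
      · intro i
        by_cases h2 : Q.coeff i = 0
        · rw [h2, map_zero, map_zero]
        · refine (fc_ker H hu'.ne_zero h2 ?_).2
          rw [← coeff_C_mul, ← hQ]
          exact hP i
      · apply mul_left_cancel₀ hu'.ne_zero
        have h2 : u * Q.eval v = P.eval v := by rw [hQ, eval_mul, eval_C]
        rw [h2, ← e]
        ring
  have hN : IsNoetherianRing (kerAlg D) := by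
    obtain ⟨f', g', hfg⟩ := ker_gens hker
    have : Algebra.FiniteType k (kerAlg D) := by
      refine ⟨?_⟩
      rw [← hfg]
      exact Subalgebra.fg_def.2 ⟨{f', g'}, by simp, rfl⟩
    exact Algebra.FiniteType.isNoetherianRing k (kerAlg D)
  obtain ⟨c1, P, hc1, hδc1, hP, e⟩ := horizontal_gen H hv hs hδv a
  obtain ⟨t, c2, hc2, ec⟩ := WfDvdMonoid.max_power_factor' hc1 hu'.not_isUnit
  have hc20 : c2 ≠ 0 := by
    rintro rfl
    exact hc2 (dvd_zero u)
  have hδc2 : δ (algebraMap (kerAlg D) F c2) = 0 := by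
    refine (fc_ker H (pow_ne_zero t hu'.ne_zero) hc20 ?_).2
    rw [← ec]
    exact hδc1
  obtain ⟨Q, hQ, eQ⟩ := key t c2 P hP (by rw [← ec]; exact e)
  have hc2m : c2 ∉ m := fun h => hc2 (hdiv c2 hδc2 h)
  have e2 : Q.eval v = Q.divX.eval v * v + Q.coeff 0 := by
    conv_lhs => rw [← divX_mul_X_add Q]
    rw [eval_add, eval_mul, eval_X, eval_C]
  have h1 : Q.coeff 0 ∈ m := by
    have h2 : Q.coeff 0 = c2 * a - Q.divX.eval v * v := by
      rw [eQ, e2]
      ring
    rw [h2]
    exact m.sub_mem (m.mul_mem_left _ ha) (m.mul_mem_left _ hvm)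
  obtain ⟨w, hw⟩ := hdiv _ (hQ 0) h1
  refine ⟨c2, hc2m, w, Q.divX.eval v, ?_⟩
  rw [eQ, e2, hw]
  ring

end Pool.Agent.LNDT
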