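import Mathlib
import Pool.Agent.LNDT.Icl
import Pool.Agent.LNDT.ST1
import Pool.Agent.LNDT.ST2
import Pool.Agent.LNDF.FinDefs
import Pool.Agent.LNDF.GeoDefs

set_option autoImplicit false

open Polynomial

namespace Pool.Agent.LNDT

open Pool.Agent.LNDHom

/-- partial derivatives are locally nilpotent -/
theorem pderiv_ln {k : Type} [Field k] (i : Fin 3) (x : MvPolynomial (Fin 3) k) :
    ∃ n, (⇑(MvPolynomial.pderiv (R := k) i))^[n] x = 0 := by
  induction x using MvPolynomial.induction_on with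
  | C a => exact ⟨1, by simp⟩
  | add x y hx hy =>
    obtain ⟨n, hn⟩ := hx
    obtain ⟨m, hm⟩ := hy
    refine ⟨n + m, ?_⟩
    rw [iterate_map_add]
    have h1 : (⇑(MvPolynomial.pderiv (R := k) i))^[n + m] x = 0 :=
      iter_zero_of_le _ hn (Nat.le_add_right n m)
    have h2 : (⇑(MvPolynomial.pderiv (R := k) i))^[n + m] y = 0 :=
      iter_zero_of_le _ hm (Nat.le_add_left m n)
    rw [h1, h2, add_zero]
  | mul_X x j hx =>
    obtain ⟨n, hn⟩ := hx
    refine ⟨n + 1 + 1, ?_⟩
    have h1 : (⇑(MvPolynomial.pderiv (R := k) i))^[n + 1] x = 0 :=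
      iter_zero_of_le _ hn (Nat.le_succ n)
    have h2 : (⇑(MvPolynomial.pderiv (R := k) i))^[1 + 1] (MvPolynomial.X j) = 0 := by
      simp only [Function.iterate_succ, Function.iterate_zero, Function.comp, id]
      rw [MvPolynomial.pderiv_X]
      by_cases h : i = j
      · subst h; simp
      · have : (Pi.single i 1 : Fin 3 → MvPolynomial (Fin 3) k) j = 0 := by
          rw [Pi.single_apply, if_neg (fun e => h e.symm)]
        rw [this, map_zero]
    exact (iter_mul_top (MvPolynomial.pderiv (R := k) i) (n + 1) n 1 x (MvPolynomial.X j) rfl h1 h2).2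

/-- a nonconstant polynomial has a nonzero partial derivative -/
theorem exists_pderiv_ne' {k : Type} [Field k] [CharZero k] {f : MvPolynomial (Fin 3) k}
    (hf : ∀ a : k, f ≠ MvPolynomial.C a) :
    ∃ i : Fin 3, MvPolynomial.pderiv (R := k) i f ≠ 0 := by
  by_contra hcon
  push Not at hcon
  refine hf (MvPolynomial.coeff 0 f) ?_
  ext m
  rw [MvPolynomial.coeff_C]
  by_cases hm : (0 : Fin 3 →₀ ℕ) = m
  · rw [if_pos hm, hm]
  · rw [if_neg hm]
    obtain ⟨i, hi⟩ : ∃ i, m i ≠ 0 := by
      by_contra h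
      push Not at h
      exact hm (Finsupp.ext (fun i => (h i).symm))
    have h1 := MvPolynomial.coeff_pderiv (i := i) f (m - Finsupp.single i 1)
    have h2 : m - Finsupp.single i 1 + Finsupp.single i 1 = m := by
      refine tsub_add_cancel_of_le ?_
      rw [Finsupp.single_le_iff]
      omega
    rw [h2, hcon i, MvPolynomial.coeff_zero] at h1
    have h3 : (((m - Finsupp.single i 1 : Fin 3 →₀ ℕ) i : ℕ) : k) + 1 ≠ 0 := Nat.cast_add_one_ne_zero _
    exact (mul_eq_zero.1 h1.symm).resolve_right h3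

/-- the degree of a factor -/
theorem deg_of_mul {k B : Type} [Field k] [CharZero k] [CommRing B] [IsDomain B] [Algebra k B]
    (D : Derivation k B B) (hln : ∀ x, ∃ n, (⇑D)^[n] x = 0) {N n : ℕ} {s G : B}
    (hG : (⇑D)^[N + 1] G = 0) (hG0 : (⇑D)^[N] G ≠ 0) (h : (⇑D)^[n + N + 1] (s * G) = 0) :
    (⇑D)^[n + 1] s = 0 := by
  by_cases hs : s = 0
  · rw [hs, iterate_map_zero]
  obtain ⟨m, hm, hm'⟩ := exists_top D hs (hln s)
  by_contra hne
  have hmn : n < m := by
    by_contra hle
    exact hne (iter_zero_of_le D hm' (by omega))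
  have h1 := (iter_mul_top D (m + N) m N s G rfl hm' hG).1
  have h2 : (⇑D)^[m + N] (s * G) = 0 := iter_zero_of_le D h (by omega)
  rw [h2] at h1
  have hcz : CharZero B := charZero_of_injective_algebraMap (algebraMap k B).injective
  have h3 : (((m + N).choose m : ℕ) : B) ≠ 0 :=
    Nat.cast_ne_zero.2 (Nat.choose_pos (Nat.le_add_right m N)).ne'
  exact mul_ne_zero h3 (mul_ne_zero hm hG0) h1.symm

/-- the hypotheses of the structure theorem hold: `E` a partial derivative not vanishing on the kernel;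
`free`: divide `x` by `G` (`LNDF.Pkg.div`) -/
theorem exists_setup {k : Type} [Field k] [CharZero k]
    (D : Derivation k (MvPolynomial (Fin 3) k) (MvPolynomial (Fin 3) k))
    (hln : ∀ x, ∃ n, (⇑D)^[n] x = 0) {f g : MvPolynomial (Fin 3) k}
    (hind : AlgebraicIndependent k ![f, g]) (hker : ∀ b, D b = 0 ↔ b ∈ Algebra.adjoin k {f, g})
    {N : ℕ} {G : MvPolynomial (Fin 3) k} (hP : LNDF.Pkg D N G) {r : MvPolynomial (Fin 3) k}
    {c : kerAlg D} (hr : D r = c) (hc : LNDF.IsCC D 1 (c : MvPolynomial (Fin 3) k)) :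
    ∃ E, Setup D E r c N G := by
  obtain ⟨i, hi⟩ := exists_pderiv_ne' (f := f) (fun a ha => by
    have h1 : Transcendental k (![f, g] 0) := hind.transcendental 0
    apply h1
    have : (![f, g] 0 : MvPolynomial (Fin 3) k) = algebraMap k _ a := by
      rw [MvPolynomial.algebraMap_eq, ← ha]
      rfl
    rw [this]
    exact isAlgebraic_algebraMap a)
  have hf : D f = 0 := (hker f).2 (Algebra.subset_adjoin (by simp))
  refine ⟨MvPolynomial.pderiv i, hln, pderiv_ln i, hr, fun h => hc.ne (by rw [h]; rfl), ?_, hP.pos,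
    hP.top, hP.ne, ?_, ⟨f, hf, hi⟩, bd_exists hln hr hc.const hc.ne hker⟩
  · intro x hx
    exact hc.dvd x hx
  · intro n x hx
    obtain ⟨s, t, hst, ht⟩ := hP.div x
    have ht' : (⇑D)^[n + N] t = 0 := iter_zero_of_le D ht (Nat.le_add_left N n)
    have hsG : (⇑D)^[n + N + 1] (s * G) = 0 := by
      have h1 : s * G = x - t := by rw [hst]; ring
      rw [h1, iterate_map_sub, hx, iter_zero_of_le D ht' (Nat.le_succ _), sub_zero]
    have hs := deg_of_mul D hln hP.top hP.ne hsG
    refine ⟨s, hs, ?_⟩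
    rw [hst, ld_add, (ld_mul hs hP.top).2]
    have : ld D (n + N) t = 0 := by
      unfold ld
      rw [ht', smul_zero]
    rw [this, add_zero, mul_comm]

/-- THE STRUCTURE THEOREM, as it is used: two non-associated special primes in a maximal ideal `m` of the
kernel generate it locally, and every special prime in `m` is associated to one of them -/
theorem st_main {k : Type} [Field k] [CharZero k]
    (D : Derivation k (MvPolynomial (Fin 3) k) (MvPolynomial (Fin 3) k))
    (hln : ∀ x, ∃ n, (⇑D)^[n] x = 0) {f g : MvPolynomial (Fin 3) k}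
    (hind : AlgebraicIndependent k ![f, g]) (hker : ∀ b, D b = 0 ↔ b ∈ Algebra.adjoin k {f, g})
    {N : ℕ} {G : MvPolynomial (Fin 3) k} (hP : LNDF.Pkg D N G) {r : MvPolynomial (Fin 3) k}
    {c : kerAlg D} (hr : D r = c) (hc : LNDF.IsCC D 1 (c : MvPolynomial (Fin 3) k))
    (m : Ideal (kerAlg D)) (hm : m.IsMaximal) {p q : kerAlg D}
    (hp : Prime (p : MvPolynomial (Fin 3) k)) (hq : Prime (q : MvPolynomial (Fin 3) k))
    (sp : Special D (c : MvPolynomial (Fin 3) k) (p : MvPolynomial (Fin 3) k))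
    (sq : Special D (c : MvPolynomial (Fin 3) k) (q : MvPolynomial (Fin 3) k))
    (hpq : ¬ Associated (p : MvPolynomial (Fin 3) k) (q : MvPolynomial (Fin 3) k))
    (hpm : p ∈ m) (hqm : q ∈ m) :
    (∀ a ∈ m, ∃ s, s ∉ m ∧ ∃ x y, s * a = x * p + y * q) ∧
    ∀ p' : kerAlg D, Prime (p' : MvPolynomial (Fin 3) k) →
      Special D (c : MvPolynomial (Fin 3) k) (p' : MvPolynomial (Fin 3) k) → p' ∈ m →
      Associated (p' : MvPolynomial (Fin 3) k) (p : MvPolynomial (Fin 3) k) ∨
      Associated (p' : MvPolynomial (Fin 3) k) (q : MvPolynomial (Fin 3) k) := by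
  obtain ⟨E, HS⟩ := exists_setup D hln hind hker hP hr hc
  have hF0 : CharZero (FractionRing (kerAlg D)) := by
    exact charZero_of_injective_algebraMap
      (algebraMap k (FractionRing (kerAlg D))).injective
  obtain ⟨δ, θ, d, I, h, H⟩ := icl (F := FractionRing (kerAlg D)) HS
  -- two vertical special primes in `m` are associated
  have hvv : ∀ u v : kerAlg D, Prime (u : MvPolynomial (Fin 3) k) →
      Prime (v : MvPolynomial (Fin 3) k) →
      δ (algebraMap (kerAlg D) (FractionRing (kerAlg D)) u) = 0 →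
      δ (algebraMap (kerAlg D) (FractionRing (kerAlg D)) v) = 0 → u ∈ m → v ∈ m →
      Associated (u : MvPolynomial (Fin 3) k) (v : MvPolynomial (Fin 3) k) := by
    intro u v hu hv hδu hδv hum hvm
    by_contra hne
    obtain ⟨a, b, hab⟩ := vertical_coprime H hker hu hδu hδv
      (fun hd => hne ((hu.dvd_prime_iff_associated hv).1 hd))
    exact hm.ne_top ((Ideal.eq_top_iff_one m).2
      (hab ▸ m.add_mem (m.mul_mem_left a hum) (m.mul_mem_left b hvm)))
  -- the crossing of a vertical and a horizontal prime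
  have hvh : ∀ u v : kerAlg D, Prime (u : MvPolynomial (Fin 3) k) →
      Prime (v : MvPolynomial (Fin 3) k) →
      Special D (c : MvPolynomial (Fin 3) k) (v : MvPolynomial (Fin 3) k) →
      δ (algebraMap (kerAlg D) (FractionRing (kerAlg D)) u) = 0 →
      δ (algebraMap (kerAlg D) (FractionRing (kerAlg D)) v) ≠ 0 → u ∈ m → v ∈ m →
      (∀ a ∈ m, ∃ s, s ∉ m ∧ ∃ x y, s * a = x * u + y * v) ∧
      ∀ p' : kerAlg D, Prime (p' : MvPolynomial (Fin 3) k) →
        Special D (c : MvPolynomial (Fin 3) k) (p' : MvPolynomial (Fin 3) k) → p' ∈ m →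
        Associated (p' : MvPolynomial (Fin 3) k) (u : MvPolynomial (Fin 3) k) ∨
        Associated (p' : MvPolynomial (Fin 3) k) (v : MvPolynomial (Fin 3) k) := by
    intro u v hu hv sv hδu hδv hum hvm
    refine ⟨fun a ha => crossing_gen H hker m hm.isPrime hu hδu hv sv hδv hum hvm ha, ?_⟩
    intro p' hp' sp' hp'm
    by_cases h' : δ (algebraMap (kerAlg D) (FractionRing (kerAlg D)) p') = 0
    · exact Or.inl (hvv p' u hp' hu h' hδu hp'm hum)
    · exact Or.inr (horizontal_assoc H hp' sp' hv sv h' hδv)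
  by_cases hδp : δ (algebraMap (kerAlg D) (FractionRing (kerAlg D)) p) = 0
  · by_cases hδq : δ (algebraMap (kerAlg D) (FractionRing (kerAlg D)) q) = 0
    · exact absurd (hvv p q hp hq hδp hδq hpm hqm) hpq
    · exact hvh p q hp hq sq hδp hδq hpm hqm
  · by_cases hδq : δ (algebraMap (kerAlg D) (FractionRing (kerAlg D)) q) = 0
    · obtain ⟨h1, h2⟩ := hvh q p hq hp sp hδq hδp hqm hpm
      refine ⟨fun a ha => ?_, fun p' hp' sp' hp'm => (h2 p' hp' sp' hp'm).symm⟩
      obtain ⟨s, hs, x, y, hxy⟩ := h1 a ha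
      exact ⟨s, hs, y, x, by rw [hxy, add_comm]⟩
    · exact absurd (horizontal_assoc H hp sp hq sq hδp hδq) hpq

end Pool.Agent.LNDT
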