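import Mathlib
import Pool.Agent.LNDT.Glue
import Pool.Agent.LNDT.ST3
import Pool.Agent.LNDF.ChG
import Pool.Agent.LNDF.Fin4
import Pool.Agent.LNDF.Fin5

set_option autoImplicit false

open Polynomial

namespace Pool.Agent.LNDT

open Pool.Agent.LNDHom Pool.Agent.LNDF

/-- the argument of `LNDF.chain_main` at one maximal ideal -/
theorem chain_at {k B : Type} [Field k] [CharZero k] [CommRing B] [IsDomain B] [Algebra k B]
    [UniqueFactorizationMonoid B] {D : Derivation k B B} (hln : ∀ x, ∃ n, (⇑D)^[n] x = 0)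
    (hirr : ∀ p : B, Prime p → D p = 0 → ∃ x, ¬ p ∣ D x) (A : Arith D) {G : B}
    (hG : (⇑D)^[A.N] G = A.cc A.N) {r : B} (hr : D r = A.cc 1)
    (n : ℕ) (m : Ideal (kerAlg D)) (hm : m.IsMaximal)
    (hyp : ∀ p q : kerAlg D, Prime (p : B) → Prime (q : B) → p ∈ m → q ∈ m →
      ¬ Associated (p : B) (q : B) →
        ∀ a b : ℕ, a ∣ npB D (p : B) → b ∣ npB D (q : B) → a ≤ n → b ≤ n → a ∣ b ∨ b ∣ a) :
    ∃ (a : kerAlg D) (x : B), a ∉ m ∧ (⇑D)^[n + 1] x = 0 ∧ (⇑D)^[n] x = a * A.cc n := by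
  have hc0 : A.cc n ≠ 0 := (A.isCC n).ne
  have hmp := hm.isPrime
  -- the primes in `m`
  let Z : Set B := {p | Prime p ∧ ∃ h : D p = 0, (⟨p, h⟩ : kerAlg D) ∈ m ∧
    Quot.out (Associates.mk p) = p}
  have hZ : ∀ p ∈ Z, Prime p ∧ D p = 0 := fun p hp => ⟨hp.1, hp.2.choose⟩
  have hunit : ∀ u : B, IsUnit u → D u = 0 := fun u hu =>
    const_of_dvd D hln D.map_one_eq_zero one_ne_zero (isUnit_iff_dvd_one.1 hu)
  have hrep : ∀ p : B, Prime p → ∀ h : D p = 0, (⟨p, h⟩ : kerAlg D) ∈ m →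
      ∃ q ∈ Z, Associated p q := by
    intro p hp h hpm
    have h1 : Associates.mk (Quot.out (Associates.mk p)) = Associates.mk p := Quot.out_eq _
    have h2 : Associated p (Quot.out (Associates.mk p)) :=
      (Associates.mk_eq_mk_iff_associated.1 h1).symm
    obtain ⟨u, hu⟩ := h2
    have h3 : D (Quot.out (Associates.mk p)) = 0 := by
      rw [← hu, Derivation.leibniz, h, hunit _ u.isUnit, smul_zero, smul_zero, add_zero]
    refine ⟨Quot.out (Associates.mk p), ⟨(Associated.prime_iff ⟨u, hu⟩).1 hp, h3, ?_, ?_⟩, ⟨u, hu⟩⟩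
    · have : (⟨Quot.out (Associates.mk p), h3⟩ : kerAlg D) =
          ⟨(u : B), hunit _ u.isUnit⟩ * ⟨p, h⟩ := Subtype.ext (by
        show Quot.out (Associates.mk p) = (u : B) * p
        rw [mul_comm]
        exact hu.symm)
      rw [this]
      exact m.mul_mem_left _ hpm
    · rw [h1]
  have hyp' : ∀ p ∈ Z, ∀ q ∈ Z, p ≠ q → ∀ a b : ℕ, a ∣ npB D p → b ∣ npB D q → a ≤ n → b ≤ n →
      a ∣ b ∨ b ∣ a := by
    rintro p ⟨hp1, hp2, hp3, hp4⟩ q ⟨hq1, hq2, hq3, hq4⟩ hpq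
    have hna : ¬ Associated p q := by
      intro h
      apply hpq
      rw [← hp4, ← hq4, Associates.mk_eq_mk_iff_associated.2 h]
    exact hyp ⟨p, hp2⟩ ⟨q, hq2⟩ hp1 hq1 hp3 hq3 hna
  obtain ⟨t, ch, h0, ht, hdvd, hlt, hblk⟩ := exists_chain hln A.N A.N_pos A.npN hirr Z hZ n hyp'
  obtain ⟨x, hx1, hx2, hx3⟩ := chain_local hln hirr hr (A.isCC 1) A.N_pos (A.isCC A.N) hG A.cc
    A.isCC Z hZ t ch h0 ht hdvd hlt n hblk n le_rfl
  obtain ⟨a, ha⟩ := (A.isCC n).dvd x hx1
  have ha0 : a ≠ 0 := by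
    rintro rfl
    exact hx2 (by rw [ha, mul_zero])
  have hDx : D ((⇑D)^[n] x) = 0 := by
    rw [← Function.iterate_succ_apply' (⇑D) n x]
    exact hx1
  have hDa : D a = 0 := const_of_dvd D hln hDx hx2 ⟨A.cc n, by rw [ha, mul_comm]⟩
  refine ⟨⟨a, hDa⟩, x, fun ham => ?_, hx1, by rw [ha, mul_comm]⟩
  -- a prime factor of `a` in `m`
  have hfac : ∀ a : B, a ≠ 0 → ∀ h : D a = 0, (⟨a, h⟩ : kerAlg D) ∈ m →
      ∃ p : B, Prime p ∧ p ∣ a ∧ ∃ h : D p = 0, (⟨p, h⟩ : kerAlg D) ∈ m := by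
    intro a
    induction a using UniqueFactorizationMonoid.induction_on_prime with
    | h₁ => exact fun h => absurd rfl h
    | h₂ u hu =>
      intro _ h hum
      exfalso
      obtain ⟨w, hw⟩ := hu.exists_right_inv
      apply hmp.ne_top
      rw [Ideal.eq_top_iff_one]
      have : (1 : kerAlg D) = ⟨w, hunit w (IsUnit.of_mul_eq_one u (by rw [mul_comm]; exact hw))⟩ *
          ⟨u, h⟩ := Subtype.ext (by
        show (1 : B) = w * u
        rw [mul_comm, hw])
      rw [this]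
      exact m.mul_mem_left _ hum
    | h₃ a p ha' hp ih =>
      intro hpa h hm'
      have hDp : D p = 0 := const_of_dvd D hln h hpa (dvd_mul_right p a)
      have hDa : D a = 0 := const_of_dvd D hln h hpa (dvd_mul_left a p)
      have : (⟨p * a, h⟩ : kerAlg D) = ⟨p, hDp⟩ * ⟨a, hDa⟩ := rfl
      rw [this] at hm'
      rcases hmp.mem_or_mem hm' with h1 | h1
      · exact ⟨p, hp, dvd_mul_right p a, hDp, h1⟩
      · obtain ⟨q, hq, hqa, hDq, hqm⟩ := ih ha' hDa h1
        exact ⟨q, hq, hqa.mul_left p, hDq, hqm⟩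
  obtain ⟨p, hp, hpa, hDp, hpm⟩ := hfac a ha0 hDa ham
  obtain ⟨q, hqZ, hpq⟩ := hrep p hp hDp hpm
  have hqa : q ∣ a := hpq.symm.dvd.trans hpa
  have hqp : Prime q := hqZ.1
  have hall : ∀ s : ℕ, q ^ s ∣ A.cc n := by
    intro s
    induction s with
    | zero => rw [pow_zero]; exact one_dvd _
    | succ s ih =>
      rw [← hx3 q hqZ (s + 1), ha, pow_succ]
      exact mul_dvd_mul ih hqa
  obtain ⟨s, hs⟩ := FiniteMultiplicity.of_not_isUnit hqp.not_isUnit hc0
  exact hs (hall (s + 1))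

/-- THE MAIN STEP (copy of `LNDF.chain_main`). At a maximal ideal `m` of the kernel either all pairs of primes in
`m` satisfy the condition on divisors (`chain_local`), or there are non-associated `p`, `q` in `m` with
incomparable divisors, hence `n_p, n_q > 1`, `p ^ 2`, `q ^ 2` do not divide `cc 1`: `st_main`, `Cross`,
`cross_main`. -/
theorem main_step {k : Type} [Field k] [CharZero k]
    {D : Derivation k (MvPolynomial (Fin 3) k) (MvPolynomial (Fin 3) k)}
    (hD : ∃ x, D x ≠ 0) (hln : ∀ x, ∃ n, (⇑D)^[n] x = 0)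
    {f g : MvPolynomial (Fin 3) k} (hind : AlgebraicIndependent k ![f, g])
    (hker : ∀ b, D b = 0 ↔ b ∈ Algebra.adjoin k {f, g})
    (hirr : ∀ p : MvPolynomial (Fin 3) k, Prime p → D p = 0 → ∃ x, ¬ p ∣ D x)
    {N0 : ℕ} {G0 : MvPolynomial (Fin 3) k} (hP : Pkg D N0 G0) (A : Arith D)
    {G : MvPolynomial (Fin 3) k} (hG : (⇑D)^[A.N] G = A.cc A.N) {r : MvPolynomial (Fin 3) k}
    (hr : D r = A.cc 1) (n : ℕ)
    (hyp : ∀ p q : MvPolynomial (Fin 3) k, Prime p → Prime q → D p = 0 → D q = 0 →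
      ¬ Associated p q →
      (∃ a b, D a = 0 ∧ D b = 0 ∧ a * p + b * q = 1) ∨
        (∀ a b : ℕ, a ∣ npB D p → b ∣ npB D q → a ≤ n → b ≤ n → a ∣ b ∨ b ∣ a) ∨
        (¬ p ^ 2 ∣ A.cc 1 ∧ ¬ q ^ 2 ∣ A.cc 1)) :
    ∃ x, (⇑D)^[n] x = A.cc n := by
  -- the local statement
  have hloc : ∀ m : Ideal (kerAlg D), m.IsMaximal →
      ∃ (a : kerAlg D) (x : MvPolynomial (Fin 3) k), a ∉ m ∧ (⇑D)^[n + 1] x = 0 ∧
        (⇑D)^[n] x = a * A.cc n := by
    intro m hm
    by_cases hc : ∀ p q : kerAlg D, Prime (p : MvPolynomial (Fin 3) k) →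
        Prime (q : MvPolynomial (Fin 3) k) → p ∈ m → q ∈ m →
        ¬ Associated (p : MvPolynomial (Fin 3) k) (q : MvPolynomial (Fin 3) k) →
        ∀ a b : ℕ, a ∣ npB D (p : MvPolynomial (Fin 3) k) →
          b ∣ npB D (q : MvPolynomial (Fin 3) k) → a ≤ n → b ≤ n → a ∣ b ∨ b ∣ a
    · exact chain_at hln hirr A hG hr n m hm hc
    push Not at hc
    obtain ⟨p, q, hp, hq, hpm, hqm, hna, a, b, ha, hb, han, hbn, hab, hba⟩ := hc
    have hDp : D (p : MvPolynomial (Fin 3) k) = 0 := p.2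
    have hDq : D (q : MvPolynomial (Fin 3) k) = 0 := q.2
    have hsq : ¬ (p : MvPolynomial (Fin 3) k) ^ 2 ∣ A.cc 1 ∧
        ¬ (q : MvPolynomial (Fin 3) k) ^ 2 ∣ A.cc 1 := by
      rcases hyp p q hp hq hDp hDq hna with ⟨a', b', ha', hb', h⟩ | h | h
      · exfalso
        apply hm.isPrime.ne_top
        rw [Ideal.eq_top_iff_one]
        have : (1 : kerAlg D) = ⟨a', ha'⟩ * p + ⟨b', hb'⟩ * q := Subtype.ext h.symm
        rw [this]
        exact m.add_mem (m.mul_mem_left _ hpm) (m.mul_mem_left _ hqm)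
      · rcases h a b ha hb han hbn with h | h
        · exact absurd h hab
        · exact absurd h hba
      · exact h
    have hp0 : 0 < npB D (p : MvPolynomial (Fin 3) k) :=
      Nat.pos_of_dvd_of_pos (A.npN _ hp hDp) A.N_pos
    have hq0 : 0 < npB D (q : MvPolynomial (Fin 3) k) :=
      Nat.pos_of_dvd_of_pos (A.npN _ hq hDq) A.N_pos
    have hp1 : 1 < npB D (p : MvPolynomial (Fin 3) k) := by
      rcases Nat.lt_or_ge 1 (npB D (p : MvPolynomial (Fin 3) k)) with h | h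
      · exact h
      · exfalso
        have h1 : npB D (p : MvPolynomial (Fin 3) k) = 1 := by omega
        rw [h1] at ha
        exact hab ((Nat.dvd_one.1 ha) ▸ one_dvd _)
    have hq1 : 1 < npB D (q : MvPolynomial (Fin 3) k) := by
      rcases Nat.lt_or_ge 1 (npB D (q : MvPolynomial (Fin 3) k)) with h | h
      · exact h
      · exfalso
        have h1 : npB D (q : MvPolynomial (Fin 3) k) = 1 := by omega
        rw [h1] at hb
        exact hba ((Nat.dvd_one.1 hb) ▸ one_dvd _)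
    have hcc := A.isCC 1
    have hpc := dvd_of_np hln hp hDp (hirr _ hp hDp) hcc hp1
    have hqc := dvd_of_np hln hq hDq (hirr _ hq hDq) hcc hq1
    obtain ⟨hgen, hoth⟩ := st_main D hln hind hker hP (c := ⟨A.cc 1, hcc.const⟩) hr hcc m hm hp hq
      (special_of_np hln hp hDp (hirr _ hp hDp) hcc hp1)
      (special_of_np hln hq hDq (hirr _ hq hDq) hcc hq1) hna hpm hqm
    have hX : Cross D A.cc m p q (npB D (p : MvPolynomial (Fin 3) k))
        (npB D (q : MvPolynomial (Fin 3) k)) :=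
      { hcc := A.isCC
        lnd := hln
        pp := hp
        pq := hq
        npq := hna
        pm := hpm
        qm := hqm
        pα := hp1
        pβ := hq1
        ep := fun l s => simple_e hln hp hDp (hirr _ hp hDp) hcc hpc hsq.1 (A.isCC l) s
        eq := fun l s => simple_e hln hq hDq (hirr _ hq hDq) hcc hqc hsq.2 (A.isCC l) s
        other := fun p' hp' hpm' hpc' => by
          have hDp' : D (p' : MvPolynomial (Fin 3) k) = 0 := p'.2
          exact hoth p' hp' (special_of_np hln hp' hDp' (hirr _ hp' hDp') hcc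
            (np_of_dvd hln hp' hDp' (hirr _ hp' hDp') hcc hpc')) hpm'
        gen := hgen }
    exact cross_main hirr hm hX hpc hsq.1 hqc hsq.2 hr A.N_pos A.npN hG n
  have hconst : ∀ a x : MvPolynomial (Fin 3) k, D a = 0 → (⇑D)^[n] (a * x) = a * (⇑D)^[n] x :=
    fun a x ha => chG_iter_mul D ha x n
  have hadd : ∀ x y : MvPolynomial (Fin 3) k, (⇑D)^[n] (x + y) = (⇑D)^[n] x + (⇑D)^[n] y :=
    chG_iter_add D n
  -- the ideal
  let I : Ideal (kerAlg D) :=
    { carrier := {a | ∃ x, (⇑D)^[n] x = (a : MvPolynomial (Fin 3) k) * A.cc n}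
      add_mem' := by
        rintro a b ⟨x, hx⟩ ⟨y, hy⟩
        refine ⟨x + y, ?_⟩
        rw [hadd, hx, hy, Subalgebra.coe_add, add_mul]
      zero_mem' := ⟨0, by
        rw [Subalgebra.coe_zero, zero_mul]
        have := hconst 0 0 (map_zero _)
        rw [zero_mul, zero_mul] at this
        exact this⟩
      smul_mem' := by
        rintro c a ⟨x, hx⟩
        refine ⟨(c : MvPolynomial (Fin 3) k) * x, ?_⟩
        rw [hconst _ _ c.2, hx, smul_eq_mul, Subalgebra.coe_mul, mul_assoc] }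
  have hI : I = ⊤ := by
    by_contra hne
    obtain ⟨m, hm, hIm⟩ := Ideal.exists_le_maximal I hne
    obtain ⟨a, x, ham, -, hx⟩ := hloc m hm
    exact ham (hIm ⟨x, hx⟩)
  have h1 : (1 : kerAlg D) ∈ I := by rw [hI]; exact Submodule.mem_top
  obtain ⟨x, hx⟩ := h1
  exact ⟨x, by rw [hx, Subalgebra.coe_one, one_mul]⟩

end Pool.Agent.LNDT
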