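import Mathlib
import Pool.Agent.LNDT.Main
import Pool.Agent.LNDF.ChR
import Pool.Agent.LNDHom.Basis

set_option autoImplicit false

open MvPolynomial

namespace Pool.Agent.LNDT

open Pool.Agent.LNDHom Pool.Agent.LNDF

/-- the main theorem for irreducible `D`, in one degree -/
theorem res_irr (k : Type) [Field k] [CharZero k]
    (D : Derivation k (MvPolynomial (Fin 3) k) (MvPolynomial (Fin 3) k)) (hD : D ≠ 0)
    (hln : ∀ b : MvPolynomial (Fin 3) k, ∃ m : ℕ, (⇑D)^[m] b = 0)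
    (f g : MvPolynomial (Fin 3) k) (hind : AlgebraicIndependent k ![f, g])
    (hker : ∀ b : MvPolynomial (Fin 3) k, D b = 0 ↔ b ∈ Algebra.adjoin k {f, g})
    (hirr : ∀ p : MvPolynomial (Fin 3) k, Prime p → D p = 0 → ∃ x, ¬ p ∣ D x) (n : ℕ)
    (hyp : ∀ p q : MvPolynomial (Fin 3) k, Prime p → Prime q → D p = 0 → D q = 0 →
      ¬ Associated p q →
      (∃ a b, D a = 0 ∧ D b = 0 ∧ a * p + b * q = 1) ∨
        (∀ i j : ℕ, i ∣ npB D p → j ∣ npB D q → i ≤ n → j ≤ n → i ∣ j ∨ j ∣ i) ∨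
        ∃ r, D (D r) = 0 ∧ ¬ p ^ 2 ∣ D r ∧ ¬ q ^ 2 ∣ D r) :
    ∃ c x : MvPolynomial (Fin 3) k, IsCC D n c ∧ (⇑D)^[n] x = c := by
  have hD0 : ∃ x, D x ≠ 0 := by
    by_contra h
    push Not at h
    exact hD (Derivation.ext (fun x => by rw [h x]; rfl))
  obtain ⟨N0, G0, hP⟩ := pkg_all D hD0 hln f g hind hker
  obtain ⟨N1, hN1, hnp⟩ := exists_N D hD0 hln hirr
  obtain ⟨A, hA⟩ := arith_of D hD0 hln hirr (N0 * N1) (Nat.mul_pos hP.pos hN1)
    (fun p hp hDp => Dvd.dvd.mul_left (hnp p hp hDp) _)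
  -- from `Princ` to an element over `cc`
  have key : ∀ m, Princ D m → ∃ x, (⇑D)^[m] x = A.cc m := by
    intro m ⟨a, ha, hm⟩
    obtain ⟨x, hx1, hx2⟩ := (hm a).mpr ⟨1, by simp, by simp⟩
    have hcc := A.isCC m
    obtain ⟨b, hb⟩ := hcc.dvd x hx1
    rw [hx2] at hb
    -- `a` divides all values, `cc` is the greatest common divisor, so `b` is a unit
    have hbu : IsUnit b := by
      by_contra hbu
      have hb0 : b ≠ 0 := by
        rintro rfl
        rw [mul_zero] at hb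
        obtain ⟨y, hy1, hy2⟩ := exists_deg D hD0 hln m
        obtain ⟨c, _, hc⟩ := (hm _).mp ⟨y, hy2, rfl⟩
        rw [hb, zero_mul] at hc
        exact hy1 hc
      obtain ⟨q, hq, hqb⟩ := WfDvdMonoid.exists_irreducible_factor hbu hb0
      obtain ⟨y, hy1, hy2⟩ := hcc.sharp q hq.prime
      obtain ⟨c, _, hc⟩ := (hm _).mp ⟨y, hy1, rfl⟩
      apply hy2
      rw [hc, hb]
      obtain ⟨b', rfl⟩ := hqb
      exact ⟨b' * c, by ring⟩
    obtain ⟨u, hu⟩ := hbu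
    have hcu : a * ↑(u⁻¹) = A.cc m := by rw [hb, ← hu, mul_assoc, Units.mul_inv, mul_one]
    obtain ⟨y, _, hy⟩ := (hm (A.cc m)).mpr ⟨↑(u⁻¹), by
      have h1 : a ≠ 0 := by rw [hb]; exact mul_ne_zero hcc.ne (by rw [← hu]; exact u.ne_zero)
      have h2 := hcc.const
      rw [← hcu, Derivation.leibniz, ha, smul_zero, add_zero, smul_eq_mul] at h2
      exact (mul_eq_zero.mp h2).resolve_left h1, hcu.symm⟩
    exact ⟨y, hy⟩
  obtain ⟨G, hG⟩ := key A.N (hP.princ A.N (Or.inl (by rw [hA]; exact Dvd.intro _ rfl)))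
  obtain ⟨r, hr⟩ := key 1 (hP.princ_one hln (hP.dual 2 (by norm_num)) hD0)
  obtain ⟨x, hx⟩ := main_step hD0 hln hind hker hirr hP A hG (by simpa using hr) n (by
    intro p q hp hq hDp hDq hna
    rcases hyp p q hp hq hDp hDq hna with h | h | ⟨r', h1, h2, h3⟩
    · exact Or.inl h
    · exact Or.inr (Or.inl h)
    · have h4 : A.cc 1 ∣ D r' := by simpa using (A.isCC 1).dvd r' h1
      exact Or.inr (Or.inr ⟨fun h => h2 (h.trans h4), fun h => h3 (h.trans h4)⟩))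
  exact ⟨A.cc n, x, A.isCC n, hx⟩

/-- the main theorem for every `D`, in one degree -/
theorem res_degree (k : Type) [Field k] [CharZero k]
    (D : Derivation k (MvPolynomial (Fin 3) k) (MvPolynomial (Fin 3) k)) (hD : D ≠ 0)
    (hln : ∀ b : MvPolynomial (Fin 3) k, ∃ m : ℕ, (⇑D)^[m] b = 0)
    (f g : MvPolynomial (Fin 3) k) (hind : AlgebraicIndependent k ![f, g])
    (hker : ∀ b : MvPolynomial (Fin 3) k, D b = 0 ↔ b ∈ Algebra.adjoin k {f, g}) (n : ℕ)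
    (hyp : ∀ p q : MvPolynomial (Fin 3) k, Prime p → Prime q → D p = 0 → D q = 0 →
      ¬ Associated p q →
      (∃ a b, D a = 0 ∧ D b = 0 ∧ a * p + b * q = 1) ∨
        (∀ i j : ℕ, i ∣ lineNumber D p → j ∣ lineNumber D q → i ≤ n → j ≤ n → i ∣ j ∨ j ∣ i) ∨
        ∃ r, D (D r) = 0 ∧ ¬ p ^ 2 ∣ D r ∧ ¬ q ^ 2 ∣ D r) :
    ∃ c Q : MvPolynomial (Fin 3) k, (⇑D)^[n] Q = c ∧ c ≠ 0 ∧ D c = 0 ∧
      ∀ x, (⇑D)^[n + 1] x = 0 → c ∣ (⇑D)^[n] x := by
  have hD0 : ∃ x, D x ≠ 0 := by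
    by_contra h
    push Not at h
    exact hD (Derivation.ext (fun x => by rw [h x]; rfl))
  obtain ⟨q, E, hq, hDq, hqE, hEln, hEker, hEirr⟩ := exists_irr D hD0 hln
  have hEq : E q = 0 := (hEker q).mpr hDq
  have hE0 : E ≠ 0 := by
    rintro rfl
    obtain ⟨x, hx⟩ := hD0
    exact hx (by rw [hqE]; simp)
  obtain ⟨c, Q, hc, hQ⟩ := res_irr k E hE0 hEln f g hind
    (fun b => (hEker b).trans (hker b)) hEirr n
    (by
      intro p p' hp hp' hDp hDp' hna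
      rcases hyp p p' hp hp' ((hEker p).mp hDp) ((hEker p').mp hDp') hna with
        ⟨a, b, ha, hb, hab⟩ | h | ⟨r, h1, h2, h3⟩
      · exact Or.inl ⟨a, b, (hEker a).mpr ha, (hEker b).mpr hb, hab⟩
      · refine Or.inr (Or.inl ?_)
        rw [lineNumber_eq D E q hq hEq hqE hp (hEirr p hp hDp),
          lineNumber_eq D E q hq hEq hqE hp' (hEirr p' hp' hDp')] at h
        exact h
      · refine Or.inr (Or.inr ⟨r, ?_, fun h => h2 ?_, fun h => h3 ?_⟩)
        · have h4 : (⇑D)^[2] r = 0 := h1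
          rw [iter_smul_const D E q hEq hqE] at h4
          exact (mul_eq_zero.mp h4).resolve_left (pow_ne_zero _ hq)
        · rw [hqE]; exact Dvd.dvd.mul_left h _
        · rw [hqE]; exact Dvd.dvd.mul_left h _)
  refine ⟨q ^ n * c, Q, by rw [iter_smul_const D E q hEq hqE, hQ],
    mul_ne_zero (pow_ne_zero _ hq) hc.ne, ?_, fun x hx => ?_⟩
  · have h5 := (hEker _).mp hc.const
    rw [Derivation.leibniz, Derivation.leibniz_pow, hDq, h5]
    simp
  · rw [iter_smul_const D E q hEq hqE] at hx ⊢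
    exact mul_dvd_mul_left _ (hc.dvd x ((mul_eq_zero.mp hx).resolve_left (pow_ne_zero _ hq)))

/-- the main theorem for every `D` -/
theorem res_all (k : Type) [Field k] [CharZero k]
    (D : Derivation k (MvPolynomial (Fin 3) k) (MvPolynomial (Fin 3) k)) (hD : D ≠ 0)
    (hln : ∀ b : MvPolynomial (Fin 3) k, ∃ m : ℕ, (⇑D)^[m] b = 0)
    (f g : MvPolynomial (Fin 3) k) (hind : AlgebraicIndependent k ![f, g])
    (hker : ∀ b : MvPolynomial (Fin 3) k, D b = 0 ↔ b ∈ Algebra.adjoin k {f, g}) :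
    (∀ n : ℕ, (n ≤ 2 ∨
      ∀ p q : MvPolynomial (Fin 3) k, Prime p → Prime q → D p = 0 → D q = 0 → ¬ Associated p q →
        (∃ a b, D a = 0 ∧ D b = 0 ∧ a * p + b * q = 1) ∨
        (∀ i j : ℕ, i ∣ lineNumber D p → j ∣ lineNumber D q → i ≤ n → j ≤ n → i ∣ j ∨ j ∣ i) ∨
        ∃ r, D (D r) = 0 ∧ ¬ p ^ 2 ∣ D r ∧ ¬ q ^ 2 ∣ D r) →
      ∃ a : MvPolynomial (Fin 3) k, D a = 0 ∧ ∀ v : MvPolynomial (Fin 3) k,
        (∃ x : MvPolynomial (Fin 3) k, (⇑D)^[n + 1] x = 0 ∧ (⇑D)^[n] x = v) ↔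
        (∃ c : MvPolynomial (Fin 3) k, D c = 0 ∧ v = a * c)) ∧
    ((∀ p q : MvPolynomial (Fin 3) k, Prime p → Prime q → D p = 0 → D q = 0 →
      ¬ Associated p q → 1 < lineNumber D p → 1 < lineNumber D q →
      (∃ a b, D a = 0 ∧ D b = 0 ∧ a * p + b * q = 1) ∨
        (∃ l i j : ℕ, l.Prime ∧ lineNumber D p = l ^ i ∧ lineNumber D q = l ^ j) ∨
        ∃ r, D (D r) = 0 ∧ ¬ p ^ 2 ∣ D r ∧ ¬ q ^ 2 ∣ D r) →
      ∃ Q : ℕ → MvPolynomial (Fin 3) k,
        (∀ n, (⇑D)^[n] (Q n) ≠ 0 ∧ (⇑D)^[n + 1] (Q n) = 0) ∧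
        ∀ b : MvPolynomial (Fin 3) k, ∃! c : ℕ →₀ MvPolynomial (Fin 3) k,
          (∀ n, D (c n) = 0) ∧ b = c.sum fun n a => a * Q n) := by
  have hD0 : ∃ x, D x ≠ 0 := by
    by_contra h
    push Not at h
    exact hD (Derivation.ext (fun x => by rw [h x]; rfl))
  constructor
  · intro n hn
    obtain ⟨c, Q, h2, h3, h4, h5⟩ := res_degree k D hD hln f g hind hker n (by
      intro p q hp hq hDp hDq hna
      rcases hn with hn | hn
      · exact Or.inr (Or.inl fun i j _ _ hi hj => cmp_two hn hi hj)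
      · exact hn p q hp hq hDp hDq hna)
    exact LNDHom.principal D n h2 h3 h4 h5
  · intro hyp
    have key := fun n => res_degree k D hD hln f g hind hker n (by
      intro p q hp hq hDp hDq hna
      have hp0 := lineNumber_pos D hD0 hln hp hDp
      have hq0 := lineNumber_pos D hD0 hln hq hDq
      by_cases h : ∃ a b, D a = 0 ∧ D b = 0 ∧ a * p + b * q = 1
      · exact Or.inl h
      · refine Or.inr ?_
        by_cases h' : ∃ r, D (D r) = 0 ∧ ¬ p ^ 2 ∣ D r ∧ ¬ q ^ 2 ∣ D r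
        · exact Or.inr h'
        · exact Or.inl fun i j hi hj _ _ => cmp_pow hp0 hq0
            (fun h1 h2 => ((hyp p q hp hq hDp hDq hna h1 h2).resolve_left h).resolve_right h')
            hi hj)
    choose c Q h2 h3 h4 h5 using key
    refine ⟨Q, fun n => ?_, LNDHom.freeness D hln h2 h3 h4 h5⟩
    exact ⟨by rw [h2]; exact h3 n, by rw [Function.iterate_succ_apply', h2, h4]⟩

end Pool.Agent.LNDT
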